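import Mathlib

/-! Cyclic hyperbolic systems: solution of nonlinear equations measured by families of seminorms. -/

open scoped Topology
open Set Metric Filter

noncomputable section

namespace Pool.Agent.K4H64.Kt

universe u

section Semi

variable {X : Type u} [NormedAddCommGroup X] [NormedSpace ℝ X] [FiniteDimensional ℝ X]

lemma semi_bound (p : Seminorm ℝ X) : ∃ C, 0 < C ∧ ∀ x, p x ≤ C * ‖x‖ := by
  let b := Module.finBasis ℝ X
  obtain ⟨C, hC⟩ : ∃ C : Fin (Module.finrank ℝ X) → ℝ, ∀ i x, |b.repr x i| ≤ C i * ‖x‖ := by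
    have h1 : ∀ i, ∃ C : ℝ, ∀ x, |b.repr x i| ≤ C * ‖x‖ := by
      intro i
      let f : X →L[ℝ] ℝ := LinearMap.toContinuousLinearMap (b.coord i)
      exact ⟨‖f‖, fun x => f.le_opNorm x⟩
    choose C hC using h1
    exact ⟨C, hC⟩
  have hC0 : ∀ i, 0 ≤ |C i| := fun i => abs_nonneg _
  refine ⟨∑ i, |C i| * p (b i) + 1, ?_, fun x => ?_⟩
  · have : 0 ≤ ∑ i, |C i| * p (b i) := Finset.sum_nonneg fun i _ =>
      mul_nonneg (hC0 i) (apply_nonneg p _)
    linarith
  · have h1 : p x ≤ ∑ i, p (b.repr x i • b i) := by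
      calc p x = p (∑ i, b.repr x i • b i) := by rw [b.sum_repr]
        _ ≤ _ := Finset.le_sum_of_subadditive p (map_zero p).le (map_add_le_add p) _ _
    have h2 : ∀ i, p (b.repr x i • b i) ≤ |C i| * p (b i) * ‖x‖ := by
      intro i
      rw [map_smul_eq_mul, Real.norm_eq_abs]
      have h3 : |b.repr x i| ≤ |C i| * ‖x‖ :=
        (hC i x).trans (mul_le_mul_of_nonneg_right (le_abs_self _) (norm_nonneg _))
      calc |b.repr x i| * p (b i) ≤ (|C i| * ‖x‖) * p (b i) :=
            mul_le_mul_of_nonneg_right h3 (apply_nonneg p _)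
        _ = _ := by ring
    have h3 : ∑ i, p (b.repr x i • b i) ≤ (∑ i, |C i| * p (b i)) * ‖x‖ := by
      rw [Finset.sum_mul]
      exact Finset.sum_le_sum fun i _ => h2 i
    have := norm_nonneg x
    nlinarith

lemma semi_cont (p : Seminorm ℝ X) : Continuous p := by
  obtain ⟨C, hC0, hC⟩ := semi_bound p
  rw [continuous_iff_continuousAt]
  intro x
  rw [ContinuousAt, tendsto_iff_dist_tendsto_zero]
  refine squeeze_zero (fun y => dist_nonneg) (g := fun y => C * ‖y - x‖) ?_ ?_
  · intro y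
    rw [Real.dist_eq]
    exact (abs_sub_map_le_sub p y x).trans (hC _)
  · have h1 : Continuous (fun y : X => C * ‖y - x‖) := by fun_prop
    have h2 := h1.tendsto x
    simpa using h2

lemma semi_below (p : Seminorm ℝ X) (hp : ∀ x, p x = 0 → x = 0) :
    ∃ c, 0 < c ∧ ∀ x, c * ‖x‖ ≤ p x := by
  have : ProperSpace X := FiniteDimensional.proper ℝ X
  rcases (sphere (0:X) 1).eq_empty_or_nonempty with hemp | hne
  · refine ⟨1, one_pos, fun x => ?_⟩
    by_cases hx : x = 0
    · subst hx; simp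
    · exfalso
      have : ‖x‖⁻¹ • x ∈ sphere (0:X) 1 := by
        rw [mem_sphere_zero_iff_norm, norm_smul, norm_inv, norm_norm,
          inv_mul_cancel₀ (norm_ne_zero_iff.2 hx)]
      rw [hemp] at this
      exact this.elim
  · obtain ⟨x₀, hx₀, hmin⟩ := (isCompact_sphere (0:X) 1).exists_isMinOn hne
      (semi_cont p).continuousOn
    have hx₀1 : ‖x₀‖ = 1 := mem_sphere_zero_iff_norm.1 hx₀
    have h0 : 0 < p x₀ := by
      refine lt_of_le_of_ne (apply_nonneg p _) fun h => ?_
      have := hp x₀ h.symm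
      rw [this, norm_zero] at hx₀1
      exact zero_ne_one hx₀1
    refine ⟨p x₀, h0, fun x => ?_⟩
    by_cases hx : x = 0
    · subst hx; simp
    · have hxn : ‖x‖ ≠ 0 := norm_ne_zero_iff.2 hx
      have h1 : p x₀ ≤ p (‖x‖⁻¹ • x) := hmin (by
        rw [mem_sphere_zero_iff_norm, norm_smul, norm_inv, norm_norm, inv_mul_cancel₀ hxn])
      rw [map_smul_eq_mul, norm_inv, norm_norm] at h1
      have h2 : p x = (‖x‖⁻¹ * p x) * ‖x‖ := by field_simp
      rw [h2]
      exact mul_le_mul_of_nonneg_right h1 (norm_nonneg _)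

/-- **Solving an equation** which is close to an invertible linear one, with respect to a norm. -/
theorem solve2 (W : Seminorm ℝ X) (hW : ∀ x, W x = 0 → x = 0) (L : X →ₗ[ℝ] X) {C : ℝ} (hC : 0 ≤ C)
    (hL : ∀ x, W x ≤ C * W (L x)) {F : X → X} {η r δ : ℝ} (hr : 0 < r) (hη : 0 ≤ η)
    (hF : ∀ x y, W x ≤ r → W y ≤ r → W (F x - F y - L (x - y)) ≤ η * W (x - y))
    (h0 : W (F 0) ≤ δ) (hCη : C * η ≤ 1 / 2) (hδ : 4 * C * δ < r) (hδ2 : 0 ≤ δ) :
    ∃ x, W x ≤ r ∧ F x = 0 := by
  have : ProperSpace X := FiniteDimensional.proper ℝ X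
  obtain ⟨c, hc, hcW⟩ := semi_below W hW
  have hLinj : Function.Injective L := by
    rw [injective_iff_map_eq_zero]
    intro x hx
    have := hL x
    rw [hx, map_zero, mul_zero] at this
    exact hW x (le_antisymm this (apply_nonneg W x))
  have hLsurj : Function.Surjective L := LinearMap.injective_iff_surjective.1 hLinj
  -- the domain
  set S : Set X := {x | W x ≤ r} with hS
  have hSc : IsCompact S := by
    refine (isCompact_closedBall (0:X) (r / c)).of_isClosed_subset
      (isClosed_le (semi_cont W) continuous_const) ?_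
    intro x hx
    rw [mem_closedBall_zero_iff, le_div_iff₀ hc]
    have := hcW x
    have hx' : W x ≤ r := hx
    linarith
  have hS0 : (0:X) ∈ S := by
    show W 0 ≤ r
    rw [map_zero]; exact hr.le
  -- continuity
  have hWF : ContinuousOn (fun x => W (F x)) S := by
    intro x hx
    rw [ContinuousWithinAt, tendsto_iff_dist_tendsto_zero]
    refine squeeze_zero' (g := fun y => W (L (y - x)) + η * W (y - x))
      (Eventually.of_forall fun y => dist_nonneg) ?_ ?_
    · filter_upwards [self_mem_nhdsWithin] with y hy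
      rw [Real.dist_eq]
      refine (abs_sub_map_le_sub W _ _).trans ?_
      have h1 : F y - F x = (F y - F x - L (y - x)) + L (y - x) := by abel
      have h2 : W (F y - F x) ≤ W (F y - F x - L (y - x)) + W (L (y - x)) := by
        conv_lhs => rw [h1]
        exact map_add_le_add W _ _
      have h3 := hF y x hy hx
      linarith
    · have h1 : Continuous (fun y => W (L (y - x)) + η * W (y - x)) := by
        have h2 : Continuous L := LinearMap.continuous_of_finiteDimensional L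
        exact ((semi_cont W).comp (h2.comp (continuous_id.sub continuous_const))).add
          (continuous_const.mul ((semi_cont W).comp (continuous_id.sub continuous_const)))
      have h2 := h1.tendsto x
      simp only [sub_self, map_zero, mul_zero, add_zero] at h2
      exact h2.mono_left nhdsWithin_le_nhds
  -- choose the penalty
  obtain ⟨κ, hκ0, hκ1, hκ2⟩ : ∃ κ : ℝ, 0 < κ ∧ κ * C ≤ 1 / 4 ∧ δ < κ * r := by
    rcases hC.eq_or_lt with h | h
    · refine ⟨δ / r + 1, by positivity, by rw [← h]; norm_num, ?_⟩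
      rw [add_mul, div_mul_cancel₀ _ hr.ne']
      linarith
    · refine ⟨1 / (4 * C), by positivity, ?_, ?_⟩
      · have : 1 / (4 * C) * C = 1 / 4 := by field_simp
        rw [this]
      · rw [div_mul_eq_mul_div, lt_div_iff₀ (by positivity)]
        linarith
  obtain ⟨x, hxS, hmin⟩ := hSc.exists_isMinOn ⟨0, hS0⟩
    (f := fun x => W (F x) + κ * W x) (hWF.add (continuousOn_const.mul
      (semi_cont W).continuousOn))
  have h1 : W (F x) + κ * W x ≤ δ := by
    have h2 : W (F x) + κ * W x ≤ W (F 0) + κ * W 0 := hmin hS0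
    rw [map_zero, mul_zero, add_zero] at h2
    linarith
  have hWx : W x < r := by
    have h2 : κ * W x < κ * r := by
      have := apply_nonneg W (F x)
      linarith
    exact lt_of_mul_lt_mul_left h2 hκ0.le
  refine ⟨x, hxS, ?_⟩
  by_contra hFx
  obtain ⟨u, hu⟩ := hLsurj (- F x)
  have hWu : W u ≤ C * W (F x) := by
    have := hL u
    rw [hu, map_neg_eq_map] at this
    exact this
  have hFpos : 0 < W (F x) :=
    lt_of_le_of_ne (apply_nonneg W _) fun h => hFx (hW _ h.symm)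
  -- a small step
  obtain ⟨s, hs0, hs1, hs2⟩ : ∃ s : ℝ, 0 < s ∧ s ≤ 1 ∧ W x + s * W u ≤ r := by
    have hd : 0 < r - W x := by linarith
    refine ⟨min 1 ((r - W x) / (W u + 1)), ?_, min_le_left _ _, ?_⟩
    · have : 0 ≤ W u := apply_nonneg W u
      exact lt_min one_pos (by positivity)
    · have h2 : 0 ≤ W u := apply_nonneg W u
      have h3 : min 1 ((r - W x) / (W u + 1)) * W u ≤ (r - W x) / (W u + 1) * W u :=
        mul_le_mul_of_nonneg_right (min_le_right _ _) h2
      have h4 : (r - W x) / (W u + 1) * W u ≤ r - W x := by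
        rw [div_mul_eq_mul_div, div_le_iff₀ (by positivity)]
        nlinarith
      linarith
  have hWs : W (s • u) = s * W u := by
    rw [map_smul_eq_mul, Real.norm_eq_abs, abs_of_pos hs0]
  have hxs : W (x + s • u) ≤ W x + s * W u := by
    refine (map_add_le_add W _ _).trans ?_
    rw [hWs]
  have hxsS : W (x + s • u) ≤ r := hxs.trans hs2
  have h2 := hF (x + s • u) x hxsS hxS
  rw [add_sub_cancel_left, hWs, map_smul, hu] at h2
  have h3 : W (F (x + s • u)) ≤ (1 - s) * W (F x) + η * (s * W u) := by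
    have h4 : F (x + s • u) = (F (x + s • u) - F x - s • (- F x)) + (1 - s) • F x := by
      rw [sub_smul, one_smul, smul_neg]; abel
    have h5 : W (F (x + s • u)) ≤ W (F (x + s • u) - F x - s • (- F x)) + W ((1 - s) • F x) := by
      conv_lhs => rw [h4]
      exact map_add_le_add W _ _
    rw [map_smul_eq_mul, Real.norm_eq_abs, abs_of_nonneg (by linarith)] at h5
    linarith
  have h4 : W (F x) + κ * W x ≤ W (F (x + s • u)) + κ * W (x + s • u) := hmin hxsS
  have h5 : η * (s * W u) ≤ s * (1 / 2 * W (F x)) := by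
    have h6 : η * (s * W u) ≤ η * (s * (C * W (F x))) := by gcongr
    have h7 : η * (s * (C * W (F x))) = (C * η) * (s * W (F x)) := by ring
    have h8 : (C * η) * (s * W (F x)) ≤ 1 / 2 * (s * W (F x)) := by gcongr
    linarith
  have h6 : κ * (s * W u) ≤ s * (1 / 4 * W (F x)) := by
    have h7 : κ * (s * W u) ≤ κ * (s * (C * W (F x))) := by gcongr
    have h8 : κ * (s * (C * W (F x))) = (κ * C) * (s * W (F x)) := by ring
    have h9 : (κ * C) * (s * W (F x)) ≤ 1 / 4 * (s * W (F x)) := by gcongr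
    linarith
  have h7 : κ * W (x + s • u) ≤ κ * W x + κ * (s * W u) := by
    have := mul_le_mul_of_nonneg_left hxs hκ0.le
    linarith
  have h8 : 0 < s * W (F x) := by positivity
  nlinarith

end Semi

section Cyc

variable {E : Type u} [NormedAddCommGroup E] [NormedSpace ℝ E]
  {ι : Type*} [Fintype ι] (σ : ι ≃ ι)

/-- a cyclic hyperbolic system, with a small error `η₁` -/
structure Hyps (A P : ι → E →L[ℝ] E) (ns nu nb : ι → Seminorm ℝ E) (lam q η₁ : ℝ) : Prop where
  s : ∀ i w, ns (σ i) (A i w) ≤ lam * ns i w + η₁ * (ns i ⊔ nu i ⊔ nb i) w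
  u : ∀ i w, nu i w ≤ lam * nu (σ i) (A i w) + η₁ * (ns i ⊔ nu i ⊔ nb i) w
  b : ∀ i w, nb i w ≤ q * nb (σ i) (A i w) + η₁ * (ns i ⊔ nu i ⊔ nb i) w
  Ps : ∀ i w, ns i (P i w) = ns i w
  Pu : ∀ i w, nu i (P i w) = nu i w
  Pb : ∀ i w, nb i (P i w) = 0

/-- the norm on slot `i` -/
def nm (ns nu nb : ι → Seminorm ℝ E) (i : ι) : Seminorm ℝ E := ns i ⊔ nu i ⊔ nb i

/-- the norm on sequences -/
def WW (ns nu nb : ι → Seminorm ℝ E) : Seminorm ℝ (ι → E) :=
  Finset.univ.sup (fun i => (nm ns nu nb i).comp (LinearMap.proj i))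

lemma le_WW (ns nu nb : ι → Seminorm ℝ E) (w : ι → E) (i : ι) :
    nm ns nu nb i (w i) ≤ WW ns nu nb w :=
  Seminorm.le_finset_sup_apply (p := fun i => (nm ns nu nb i).comp (LinearMap.proj i))
    (x := w) (Finset.mem_univ i)

lemma WW_le {ns nu nb : ι → Seminorm ℝ E} {w : ι → E} {c : ℝ} (hc : 0 ≤ c)
    (h : ∀ i, nm ns nu nb i (w i) ≤ c) : WW ns nu nb w ≤ c :=
  Seminorm.finset_sup_apply_le (p := fun i => (nm ns nu nb i).comp (LinearMap.proj i))
    (x := w) hc fun i _ => h i

omit [Fintype ι] in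
lemma nm_apply (ns nu nb : ι → Seminorm ℝ E) (i : ι) (w : E) :
    nm ns nu nb i w = max (max (ns i w) (nu i w)) (nb i w) := rfl

lemma WW_eq_zero {ns nu nb : ι → Seminorm ℝ E} (hn : ∀ i w, nm ns nu nb i w = 0 → w = 0)
    {w : ι → E} (h : WW ns nu nb w = 0) : w = 0 := by
  funext i
  apply hn i
  refine le_antisymm ?_ (apply_nonneg _ _)
  rw [← h]
  exact le_WW ns nu nb w i

variable {σ}

/-- **the linear estimate** -/
theorem lin_est {A P : ι → E →L[ℝ] E} {ns nu nb : ι → Seminorm ℝ E} {lam q η₁ : ℝ}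
    (h : Hyps σ A P ns nu nb lam q η₁) (hl0 : 0 ≤ lam) (hl1 : lam < 1) (hq : 1 ≤ q)
    (hη : 0 ≤ η₁) (hη2 : (q + 1 / (1 - lam)) * η₁ ≤ 1 / 2)
    {w f : ι → E} (hf : ∀ i, f (σ i) = A i (w i) - P (σ i) (w (σ i))) :
    WW ns nu nb w ≤ 2 * (q + 1 / (1 - lam)) * WW ns nu nb f := by
  have hl : 0 < 1 - lam := by linarith
  rcases isEmpty_or_nonempty ι with hemp | hne
  · have : WW ns nu nb w ≤ 0 := WW_le le_rfl fun i => hemp.elim i
    have h2 : 0 ≤ 2 * (q + 1 / (1 - lam)) * WW ns nu nb f := by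
      have := apply_nonneg (WW ns nu nb) f
      positivity
    linarith
  obtain ⟨W, hW⟩ : ∃ W, W = WW ns nu nb w := ⟨_, rfl⟩
  obtain ⟨G, hG⟩ : ∃ G, G = WW ns nu nb f := ⟨_, rfl⟩
  rw [← hW, ← hG]
  have hW0 : 0 ≤ W := by rw [hW]; exact apply_nonneg _ _
  have hG0 : 0 ≤ G := by rw [hG]; exact apply_nonneg _ _
  have hnW : ∀ i, (ns i ⊔ nu i ⊔ nb i) (w i) ≤ W := fun i => by
    rw [hW]; exact le_WW ns nu nb w i
  have hnG : ∀ i, nm ns nu nb i (f i) ≤ G := fun i => by rw [hG]; exact le_WW ns nu nb f i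
  have hsG : ∀ i, ns i (f i) ≤ G := fun i =>
    ((le_max_left _ _).trans (le_max_left _ _)).trans (hnG i)
  have huG : ∀ i, nu i (f i) ≤ G := fun i =>
    ((le_max_right _ _).trans (le_max_left _ _)).trans (hnG i)
  have hbG : ∀ i, nb i (f i) ≤ G := fun i => (le_max_right _ _).trans (hnG i)
  -- stable component
  have hs : ∀ i, ns i (w i) ≤ (G + η₁ * W) / (1 - lam) := by
    obtain ⟨i₀, -, hi₀⟩ := Finset.exists_max_image Finset.univ (fun i => ns i (w i))
      Finset.univ_nonempty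
    have h1 : ns i₀ (w i₀) ≤ lam * ns i₀ (w i₀) + η₁ * W + G := by
      obtain ⟨i, rfl⟩ : ∃ i, i₀ = σ i := ⟨σ.symm i₀, by simp⟩
      have h2 : P (σ i) (w (σ i)) = A i (w i) - f (σ i) := by rw [hf]; abel
      have h3 : ns (σ i) (w (σ i)) ≤ ns (σ i) (A i (w i)) + ns (σ i) (f (σ i)) := by
        rw [← h.Ps (σ i) (w (σ i)), h2]
        exact map_sub_le_add _ _ _
      have h4 := h.s i (w i)
      have h5 : lam * ns i (w i) ≤ lam * ns (σ i) (w (σ i)) :=
        mul_le_mul_of_nonneg_left (hi₀ i (Finset.mem_univ _)) hl0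
      have h6 := mul_le_mul_of_nonneg_left (hnW i) hη
      have h7 := hsG (σ i)
      linarith
    intro i
    refine (hi₀ i (Finset.mem_univ _)).trans ?_
    rw [le_div_iff₀ hl]
    linarith
  -- unstable component
  have hu : ∀ i, nu i (w i) ≤ (G + η₁ * W) / (1 - lam) := by
    obtain ⟨i, -, hi₀⟩ := Finset.exists_max_image Finset.univ (fun i => nu i (w i))
      Finset.univ_nonempty
    have h1 : nu i (w i) ≤ lam * nu i (w i) + η₁ * W + G := by
      have h2 : A i (w i) = P (σ i) (w (σ i)) + f (σ i) := by rw [hf]; abel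
      have h3 : nu (σ i) (A i (w i)) ≤ nu (σ i) (w (σ i)) + nu (σ i) (f (σ i)) := by
        rw [h2]
        refine (map_add_le_add _ _ _).trans ?_
        rw [h.Pu]
      have h4 := h.u i (w i)
      have h5 : nu (σ i) (w (σ i)) ≤ nu i (w i) := hi₀ (σ i) (Finset.mem_univ _)
      have h6 := mul_le_mul_of_nonneg_left (hnW i) hη
      have h7 := huG (σ i)
      have h8 : lam * nu (σ i) (A i (w i)) ≤ lam * (nu i (w i) + G) := by
        apply mul_le_mul_of_nonneg_left _ hl0
        linarith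
      nlinarith
    intro j
    refine (hi₀ j (Finset.mem_univ _)).trans ?_
    rw [le_div_iff₀ hl]
    linarith
  -- the third component
  have hb : ∀ i, nb i (w i) ≤ q * G + η₁ * W := by
    intro i
    have h2 : A i (w i) = P (σ i) (w (σ i)) + f (σ i) := by rw [hf]; abel
    have h3 : nb (σ i) (A i (w i)) ≤ nb (σ i) (f (σ i)) := by
      rw [h2]
      refine (map_add_le_add _ _ _).trans ?_
      rw [h.Pb, zero_add]
    have h4 := h.b i (w i)
    have h6 := mul_le_mul_of_nonneg_left (hnW i) hη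
    have h7 := hbG (σ i)
    have h8 : q * nb (σ i) (A i (w i)) ≤ q * G := by
      apply mul_le_mul_of_nonneg_left _ (by linarith)
      linarith
    linarith
  have hl2 : 0 < 1 / (1 - lam) := by positivity
  have hfin : W ≤ (q + 1 / (1 - lam)) * (G + η₁ * W) := by
    have hGW : 0 ≤ G + η₁ * W := by positivity
    conv_lhs => rw [hW]
    apply WW_le (by positivity)
    intro i
    rw [nm_apply]
    have e1 : (G + η₁ * W) / (1 - lam) = 1 / (1 - lam) * (G + η₁ * W) := by ring
    refine max_le (max_le ((hs i).trans ?_) ((hu i).trans ?_)) ((hb i).trans ?_)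
    · rw [e1]; nlinarith
    · rw [e1]; nlinarith
    · have : 0 ≤ 1 / (1 - lam) * (G + η₁ * W) := by positivity
      have h9 : η₁ * W ≤ q * (η₁ * W) := by
        have : 0 ≤ η₁ * W := by positivity
        nlinarith
      nlinarith
  have h9 : (q + 1 / (1 - lam)) * (η₁ * W) ≤ 1 / 2 * W := by
    rw [← mul_assoc]
    exact mul_le_mul_of_nonneg_right hη2 hW0
  linarith

/-- **the nonlinear system** -/
theorem cyc_solve [FiniteDimensional ℝ E] {A P : ι → E →L[ℝ] E} {ns nu nb : ι → Seminorm ℝ E}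
    {lam q η₁ : ℝ}
    (h : Hyps σ A P ns nu nb lam q η₁) (hl0 : 0 ≤ lam) (hl1 : lam < 1) (hq : 1 ≤ q)
    (hη : 0 ≤ η₁) (hη2 : (q + 1 / (1 - lam)) * η₁ ≤ 1 / 2)
    (hn : ∀ i w, nm ns nu nb i w = 0 → w = 0)
    {Γ : ι → E → E} {η r δ : ℝ} (hr : 0 < r) (hη0 : 0 ≤ η)
    (hΓ : ∀ i w w', nm ns nu nb i w ≤ r → nm ns nu nb i w' ≤ r →
      nm ns nu nb (σ i) (Γ i w - Γ i w' - A i (w - w')) ≤ η * nm ns nu nb i (w - w'))
    (h0 : ∀ i, nm ns nu nb (σ i) (Γ i 0) ≤ δ) (hδ2 : 0 ≤ δ)
    (hCη : 2 * (q + 1 / (1 - lam)) * η ≤ 1 / 2) (hδ : 4 * (2 * (q + 1 / (1 - lam))) * δ < r) :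
    ∃ w : ι → E, (∀ i, nm ns nu nb i (w i) ≤ r) ∧ ∀ i, Γ i (w i) = P (σ i) (w (σ i)) := by
  classical
  have hl : 0 < 1 - lam := by linarith
  let L : (ι → E) →ₗ[ℝ] (ι → E) :=
    { toFun := fun w j => A (σ.symm j) (w (σ.symm j)) - P j (w j)
      map_add' := fun w w' => by
        funext j
        simp only [Pi.add_apply, map_add]
        abel
      map_smul' := fun a w => by
        funext j
        simp only [Pi.smul_apply, map_smul, RingHom.id_apply, smul_sub] }
  have hLj : ∀ w j, L w j = A (σ.symm j) (w (σ.symm j)) - P j (w j) := fun _ _ => rfl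
  obtain ⟨F, hF⟩ : ∃ F : (ι → E) → (ι → E), ∀ w j, F w j =
    Γ (σ.symm j) (w (σ.symm j)) - P j (w j) := ⟨fun w j => _, fun _ _ => rfl⟩
  obtain ⟨w, hw, hFw⟩ := solve2 (WW ns nu nb) (fun x hx => WW_eq_zero hn hx) L
    (C := 2 * (q + 1 / (1 - lam))) (by positivity) (by
      intro w
      refine lin_est h hl0 hl1 hq hη hη2 fun i => ?_
      rw [hLj, Equiv.symm_apply_apply]) (F := F) (η := η) (r := r) (δ := δ) hr hη0 (by
      intro x y hx hy
      refine WW_le (by have := apply_nonneg (WW ns nu nb) (x - y); positivity) fun j => ?_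
      obtain ⟨i, rfl⟩ : ∃ i, j = σ i := ⟨σ.symm j, by simp⟩
      have e1 : (F x - F y - L (x - y)) (σ i) = Γ i (x i) - Γ i (y i) - A i (x i - y i) := by
        simp only [Pi.sub_apply, hF, hLj, Equiv.symm_apply_apply, map_sub]
        abel
      rw [e1]
      refine (hΓ i _ _ ((le_WW ns nu nb x i).trans hx) ((le_WW ns nu nb y i).trans hy)).trans ?_
      exact mul_le_mul_of_nonneg_left (le_WW ns nu nb (x - y) i) hη0) (by
      refine WW_le hδ2 fun j => ?_
      obtain ⟨i, rfl⟩ : ∃ i, j = σ i := ⟨σ.symm j, by simp⟩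
      have e1 : F 0 (σ i) = Γ i 0 := by
        rw [hF, Equiv.symm_apply_apply]
        simp
      rw [e1]
      exact h0 i) hCη hδ hδ2
  refine ⟨w, fun i => (le_WW ns nu nb w i).trans hw, fun i => ?_⟩
  have e1 := congrFun hFw (σ i)
  rw [hF, Equiv.symm_apply_apply, Pi.zero_apply, sub_eq_zero] at e1
  exact e1

/-- **uniqueness for the linear system with small perturbation** -/
theorem cyc_unique {A P : ι → E →L[ℝ] E} {ns nu nb : ι → Seminorm ℝ E} {lam q η₁ : ℝ}
    (h : Hyps σ A P ns nu nb lam q η₁) (hl0 : 0 ≤ lam) (hl1 : lam < 1) (hq : 1 ≤ q)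
    (hη : 0 ≤ η₁) (hη2 : (q + 1 / (1 - lam)) * η₁ ≤ 1 / 2)
    (hn : ∀ i w, nm ns nu nb i w = 0 → w = 0) {η : ℝ}
    {w : ι → E} (hf : ∀ i, nm ns nu nb (σ i) (A i (w i) - P (σ i) (w (σ i))) ≤
      η * nm ns nu nb i (w i) + η * nm ns nu nb (σ i) (w (σ i))) (hη3 : 0 ≤ η)
    (hCη : 2 * (q + 1 / (1 - lam)) * (2 * η) ≤ 1 / 2) : w = 0 := by
  have hl : 0 < 1 - lam := by linarith
  apply WW_eq_zero hn
  refine le_antisymm ?_ (apply_nonneg _ _)
  have h1 := lin_est h hl0 hl1 hq hη hη2 (w := w)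
    (f := fun j => A (σ.symm j) (w (σ.symm j)) - P j (w j)) (fun i => by
      simp only [Equiv.symm_apply_apply])
  have hW0 := apply_nonneg (WW ns nu nb) w
  have h2 : WW ns nu nb (fun j => A (σ.symm j) (w (σ.symm j)) - P j (w j)) ≤
      2 * η * WW ns nu nb w := by
    refine WW_le (by positivity) fun j => ?_
    obtain ⟨i, rfl⟩ : ∃ i, j = σ i := ⟨σ.symm j, by simp⟩
    simp only [Equiv.symm_apply_apply]
    refine (hf i).trans ?_
    have h3 := mul_le_mul_of_nonneg_left (le_WW ns nu nb w i) hη3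
    have h4 := mul_le_mul_of_nonneg_left (le_WW ns nu nb w (σ i)) hη3
    linarith
  have h3 : 0 ≤ 2 * (q + 1 / (1 - lam)) := by positivity
  have h4 := mul_le_mul_of_nonneg_left h2 h3
  have h5 : 2 * (q + 1 / (1 - lam)) * (2 * η * WW ns nu nb w) ≤ 1 / 2 * WW ns nu nb w := by
    rw [← mul_assoc]
    exact mul_le_mul_of_nonneg_right hCη hW0
  linarith

end Cyc

end Pool.Agent.K4H64.Kt
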