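import Mathlib
import Pool.Agent.K4H64.We.Vol
import Pool.Agent.K4H64.We.Loc

/-! Uniform second order estimates in charts for a strict contact map of a closed contact manifold. -/

open scoped Topology ContDiff Manifold
open Set Metric Bundle Filter Pool.Agent.Helper186 Pool.Agent.H826R2.Wein Pool.Agent.W671.WU
open Pool.Agent.R774.Root Pool.Agent.R774.Hyp Pool.Agent.K4H64.We

noncomputable section

namespace Pool.Agent.K4H64.Kt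

set_option linter.unusedSectionVars false

universe u

variable {E : Type u} [NormedAddCommGroup E] [NormedSpace ℝ E] [FiniteDimensional ℝ E]
  {P : Type*} [TopologicalSpace P] [ChartedSpace E P] [IsManifold 𝓘(ℝ, E) ∞ P]
  {F : Type*} [NormedAddCommGroup F] [NormedSpace ℝ F]
  {β : (x : P) → TangentSpace 𝓘(ℝ, E) x →L[ℝ] ℝ}
  {R : (x : P) → TangentSpace 𝓘(ℝ, E) x} {Fl : P → ℝ → P}

/-- a locally uniform lower bound for injective operators -/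
lemma ev_below {X : Type*} [TopologicalSpace X] {G : Type*} [NormedAddCommGroup G]
    [NormedSpace ℝ G] {T : X → E →L[ℝ] G} {x : X}
    (hT : ContinuousAt T x) (hinj : ∀ z, T x z = 0 → z = 0) :
    ∃ N : ℕ, ∀ᶠ x' in 𝓝 x, ∀ z, ‖z‖ ≤ N * ‖T x' z‖ := by
  have hker : LinearMap.ker (T x : E →ₗ[ℝ] G) = ⊥ := by
    rw [LinearMap.ker_eq_bot']
    exact fun z hz => hinj z hz
  obtain ⟨K, hK0, hK⟩ := (T x : E →ₗ[ℝ] G).exists_antilipschitzWith hker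
  have hK' : ∀ z, ‖z‖ ≤ K * ‖T x z‖ := by
    intro z
    have h1 := hK.le_mul_dist z 0
    simpa using h1
  have hK0' : (0:ℝ) < K := hK0
  obtain ⟨N, hN⟩ := exists_nat_gt (2 * (K:ℝ))
  refine ⟨N, ?_⟩
  have h1 : ∀ᶠ x' in 𝓝 x, ‖T x' - T x‖ < 1 / (2 * K) := by
    have h2 : ContinuousAt (fun x' => ‖T x' - T x‖) x := (hT.sub continuousAt_const).norm
    exact h2.eventually (gt_mem_nhds (by simp only [sub_self, norm_zero]; positivity))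
  filter_upwards [h1] with x' hx' z
  have h2 : ‖T x z‖ ≤ ‖T x' z‖ + ‖T x' - T x‖ * ‖z‖ := by
    have h3 : T x z = T x' z - (T x' - T x) z := by rw [_root_.sub_apply]; abel
    rw [h3]
    exact (norm_sub_le _ _).trans (by gcongr; exact (T x' - T x).le_opNorm z)
  have h3 : ‖T x' - T x‖ * ‖z‖ ≤ 1 / (2 * K) * ‖z‖ := by gcongr
  have h4 : ‖z‖ ≤ K * (‖T x' z‖ + 1 / (2 * K) * ‖z‖) :=
    (hK' z).trans (mul_le_mul_of_nonneg_left (h2.trans (by linarith)) hK0'.le)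
  have h5 : (K:ℝ) * (1 / (2 * K) * ‖z‖) = 1 / 2 * ‖z‖ := by field_simp
  have h6 : ‖z‖ ≤ 2 * K * ‖T x' z‖ := by linarith
  refine h6.trans ?_
  gcongr

/-- locally Lipschitz, on a ball -/
lemma lip_ball {G H : Type*} [NormedAddCommGroup G] [NormedSpace ℝ G] [NormedAddCommGroup H]
    [NormedSpace ℝ H] {f : G → H} {x : G} (hf : ContDiffAt ℝ 1 f x) :
    ∃ L > 0, ∃ ρ > 0, ∀ y ∈ ball x ρ, ∀ z ∈ ball x ρ, ‖f y - f z‖ ≤ L * ‖y - z‖ := by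
  obtain ⟨K, t, ht, hL⟩ := hf.exists_lipschitzOnWith
  obtain ⟨ρ, hρ, hball⟩ := Metric.mem_nhds_iff.1 ht
  refine ⟨K + 1, by positivity, ρ, hρ, fun y hy z hz => ?_⟩
  have h1 := hL.norm_sub_le (hball hy) (hball hz)
  have := norm_nonneg (y - z)
  nlinarith

lemma JJ_smooth2 (h : RF β R Fl) {g : P → P} (hg : ContMDiff 𝓘(ℝ, E) 𝓘(ℝ, E) ∞ g) (a b : P)
    {p : E} (hp : p ∈ (extChartAt 𝓘(ℝ, E) a).target)
    (hgp : g ((extChartAt 𝓘(ℝ, E) a).symm p) ∈ (extChartAt 𝓘(ℝ, E) b).source) :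
    ContDiffAt ℝ ∞ (JJ Fl g a b) (p, 0) := by
  have hct : ch2 a b g p ∈ (extChartAt 𝓘(ℝ, E) b).target := (extChartAt 𝓘(ℝ, E) b).map_source hgp
  have hcs : (extChartAt 𝓘(ℝ, E) b).symm (ch2 a b g p) = g ((extChartAt 𝓘(ℝ, E) a).symm p) :=
    (extChartAt 𝓘(ℝ, E) b).left_inv hgp
  have h1 : ContDiffAt ℝ ∞ (RF.H Fl b) (ch2 a b g p, 0) := by
    refine h.smooth_H b (q := (ch2 a b g p, 0)) hct ?_
    simp only
    rw [h.zero, hcs]
    exact hgp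
  have h3 : ContDiffAt ℝ ∞ (ch2 a b g) p := ch2_smooth a b hg hp hgp
  have h4 : ContDiffAt ℝ ∞ (fun q : E × ℝ => (ch2 a b g q.1, q.2)) (p, 0) :=
    (ContDiffAt.comp (p, (0:ℝ)) (g := ch2 a b g) (f := Prod.fst) h3 contDiffAt_fst).prodMk
      contDiffAt_snd
  have h5 := ContDiffAt.comp (p, (0:ℝ)) (g := RF.H Fl b)
    (f := fun q : E × ℝ => (ch2 a b g q.1, q.2)) h1 h4
  have h6 : JJ Fl g a b =ᶠ[𝓝 (p, 0)] (RF.H Fl b ∘ fun q : E × ℝ => (ch2 a b g q.1, q.2)) := by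
    have hFc : ContinuousAt (fun q : E × ℝ => g ((extChartAt 𝓘(ℝ, E) a).symm q.1)) (p, 0) := by
      have h7 : ContinuousAt (fun p : E => g ((extChartAt 𝓘(ℝ, E) a).symm p)) p :=
        hg.continuous.continuousAt.comp ((continuousOn_extChartAt_symm a).continuousAt
          ((isOpen_extChartAt_target a).mem_nhds hp))
      exact ContinuousAt.comp (x := ((p, 0) : E × ℝ)) (f := Prod.fst)
        (g := fun p : E => g ((extChartAt 𝓘(ℝ, E) a).symm p)) h7 continuousAt_fst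
    filter_upwards [hFc.eventually ((isOpen_extChartAt_source b).mem_nhds hgp)] with q hq
    symm
    show extChartAt 𝓘(ℝ, E) b (Fl ((extChartAt 𝓘(ℝ, E) b).symm
      (extChartAt 𝓘(ℝ, E) b (g ((extChartAt 𝓘(ℝ, E) a).symm q.1)))) q.2) = _
    rw [(extChartAt 𝓘(ℝ, E) b).left_inv hq]
    rfl
  exact h5.congr_of_eventuallyEq h6

/-- the uniform bounds at `x`, in the charts at `a` and `b` -/
structure UB (β : (x : P) → TangentSpace 𝓘(ℝ, E) x →L[ℝ] ℝ) (Fl : P → ℝ → P) (g : P → P)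
    (e : P → F) (a b x : P) (N : ℕ) : Prop where
  dg : ‖fderiv ℝ (ch2 a b g) (extChartAt 𝓘(ℝ, E) a x)‖ ≤ N
  dgi : ∀ z, ‖z‖ ≤ N * ‖fderiv ℝ (ch2 a b g) (extChartAt 𝓘(ℝ, E) a x) z‖
  pe : ‖PE β Fl a (extChartAt 𝓘(ℝ, E) a x)‖ ≤ N
  bb : ‖chartForm 𝓘(ℝ, E) β a (extChartAt 𝓘(ℝ, E) a x)‖ ≤ N
  rr : ‖RF.Rc Fl a (extChartAt 𝓘(ℝ, E) a x)‖ ≤ N
  de : ‖fderiv ℝ (cf a e) (extChartAt 𝓘(ℝ, E) a x)‖ ≤ N
  dei : ∀ z, ‖z‖ ≤ N * ‖fderiv ℝ (cf a e) (extChartAt 𝓘(ℝ, E) a x) z‖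
  ge : ∀ w w', ‖w‖ ≤ 1 / ((N:ℝ) + 1) → ‖w'‖ ≤ 1 / ((N:ℝ) + 1) →
    ‖GE β Fl g a b (extChartAt 𝓘(ℝ, E) a x) w - GE β Fl g a b (extChartAt 𝓘(ℝ, E) a x) w' -
      AE β Fl g a b (extChartAt 𝓘(ℝ, E) a x) (w - w')‖ ≤ N * (‖w‖ + ‖w'‖) * ‖w - w'‖
  tgt : ∀ w, ‖w‖ ≤ 1 / ((N:ℝ) + 1) → extChartAt 𝓘(ℝ, E) a x +
    PE β Fl a (extChartAt 𝓘(ℝ, E) a x) w ∈ (extChartAt 𝓘(ℝ, E) a).target
  src : ∀ w, ‖w‖ ≤ 1 / ((N:ℝ) + 1) → Fl (g ((extChartAt 𝓘(ℝ, E) a).symm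
    (extChartAt 𝓘(ℝ, E) a x + PE β Fl a (extChartAt 𝓘(ℝ, E) a x) w)))
      (chartForm 𝓘(ℝ, E) β a (extChartAt 𝓘(ℝ, E) a x) w) ∈ (extChartAt 𝓘(ℝ, E) b).source
  dgl : ∀ w, ‖w‖ ≤ 1 / ((N:ℝ) + 1) → ∀ z,
    ‖fderiv ℝ (ch2 a b (fun y => Fl (g y) (chartForm 𝓘(ℝ, E) β a (extChartAt 𝓘(ℝ, E) a x) w)))
      (extChartAt 𝓘(ℝ, E) a x + PE β Fl a (extChartAt 𝓘(ℝ, E) a x) w) z -
      fderiv ℝ (ch2 a b g) (extChartAt 𝓘(ℝ, E) a x) z‖ ≤ N * ‖w‖ * ‖z‖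
  bl : ∀ w, ‖w‖ ≤ 1 / ((N:ℝ) + 1) → ∀ z,
    |chartForm 𝓘(ℝ, E) β a (extChartAt 𝓘(ℝ, E) a x +
      PE β Fl a (extChartAt 𝓘(ℝ, E) a x) w) z -
      chartForm 𝓘(ℝ, E) β a (extChartAt 𝓘(ℝ, E) a x) z| ≤ N * ‖w‖ * ‖z‖
  el : ∀ w, ‖w‖ ≤ 1 / ((N:ℝ) + 1) → ‖e ((extChartAt 𝓘(ℝ, E) a).symm
    (extChartAt 𝓘(ℝ, E) a x + PE β Fl a (extChartAt 𝓘(ℝ, E) a x) w)) - e x‖ ≤ N * ‖w‖

lemma UB.mono {g : P → P} {e : P → F} {a b x : P} {N N' : ℕ} (hN : N ≤ N')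
    (h : UB β Fl g e a b x N) : UB β Fl g e a b x N' := by
  have h1 : (N:ℝ) ≤ N' := by exact_mod_cast hN
  have h2 : 1 / ((N':ℝ) + 1) ≤ 1 / ((N:ℝ) + 1) := by gcongr
  refine ⟨h.dg.trans h1, fun z => (h.dgi z).trans (by gcongr), h.pe.trans h1, h.bb.trans h1,
    h.rr.trans h1, h.de.trans h1, fun z => (h.dei z).trans (by gcongr),
    fun w w' hw hw' => (h.ge w w' (hw.trans h2) (hw'.trans h2)).trans (by gcongr),
    fun w hw => h.tgt w (hw.trans h2), fun w hw => h.src w (hw.trans h2),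
    fun w hw z => (h.dgl w (hw.trans h2) z).trans (by gcongr),
    fun w hw z => (h.bl w (hw.trans h2) z).trans (by gcongr),
    fun w hw => (h.el w (hw.trans h2)).trans (by gcongr)⟩

/-- the derivative in charts is injective -/
lemma dch2_inj (c : CD β R) {g : P → P} (hg : St β g) (a b : P) {p : E}
    (hp : p ∈ (extChartAt 𝓘(ℝ, E) a).target)
    (hgp : g ((extChartAt 𝓘(ℝ, E) a).symm p) ∈ (extChartAt 𝓘(ℝ, E) b).source) {z : E}
    (hz : fderiv ℝ (ch2 a b g) p z = 0) : z = 0 := by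
  apply hbc_nondeg c a hp
  intro v
  rw [← hbc_ch2 c hg a b hp hgp, hz, map_zero]
  rfl

lemma nhds_bound {X : Type*} [TopologicalSpace X] {G : Type*} [SeminormedAddCommGroup G]
    {f : X → G} {x : X} (hf : ContinuousAt f x) : ∃ K : ℝ, 0 < K ∧ ∀ᶠ x' in 𝓝 x, ‖f x'‖ ≤ K := by
  refine ⟨‖f x‖ + 1, by positivity, ?_⟩
  exact (hf.norm.eventually (gt_mem_nhds (lt_add_one _))).mono fun _ h => le_of_lt h

theorem loc_UB (c : CD β R) (h : RF β R Fl) {g : P → P} (hg : St β g) {e : P → F}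
    (he : ContMDiff 𝓘(ℝ, E) 𝓘(ℝ, F) ∞ e) (himm : ∀ x, Function.Injective (dv E e x))
    {a b x : P} (hx : x ∈ (extChartAt 𝓘(ℝ, E) a).source)
    (hgx : g x ∈ (extChartAt 𝓘(ℝ, E) b).source) :
    ∃ N : ℕ, ∀ᶠ x' in 𝓝 x, UB β Fl g e a b x' N := by
  obtain ⟨p₀, hp₀⟩ : ∃ p₀, p₀ = extChartAt 𝓘(ℝ, E) a x := ⟨_, rfl⟩
  have hp : p₀ ∈ (extChartAt 𝓘(ℝ, E) a).target := by
    rw [hp₀]; exact (extChartAt 𝓘(ℝ, E) a).map_source hx
  have hgp : g ((extChartAt 𝓘(ℝ, E) a).symm p₀) ∈ (extChartAt 𝓘(ℝ, E) b).source := by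
    rw [hp₀, (extChartAt 𝓘(ℝ, E) a).left_inv hx]; exact hgx
  -- simple bounds
  obtain ⟨K₁, hK₁, e₁⟩ := nhds_bound (contAt_dch2 hg.smooth a b hp hgp)
  obtain ⟨K₂, e₂⟩ := ev_below (contAt_dch2 hg.smooth a b hp hgp)
    (fun z hz => dch2_inj c hg a b hp hgp hz)
  obtain ⟨K₃, hK₃, e₃⟩ := nhds_bound (contAt_PE c h a hp)
  obtain ⟨K₄, hK₄, e₄⟩ := nhds_bound (contAt_b c a hp)
  obtain ⟨K₅, hK₅, e₅⟩ := nhds_bound (h.continuousAt_Rc a hp)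
  obtain ⟨K₆, hK₆, e₆⟩ := nhds_bound (contAt_dcf he a hp)
  obtain ⟨K₇, e₇⟩ := ev_below (contAt_dcf he a hp) (fun z hz => by
    rw [fderiv_cf a he hp] at hz
    have h0 : dv E e ((extChartAt 𝓘(ℝ, E) a).symm p₀) (ds a p₀ z) =
        dv E e ((extChartAt 𝓘(ℝ, E) a).symm p₀) 0 := by
      have h1 : dv E e ((extChartAt 𝓘(ℝ, E) a).symm p₀) 0 = 0 :=
        map_zero (mfderiv 𝓘(ℝ, E) 𝓘(ℝ, F) e ((extChartAt 𝓘(ℝ, E) a).symm p₀))
      rw [h1]; exact hz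
    exact ds_inj hp (himm _ h0))
  -- the map `JJ`
  have hJs := JJ_smooth2 h hg.smooth a b hp hgp
  obtain ⟨L₁, hL₁, ρ₁, hρ₁, lip₁⟩ := lip_ball (hJs.fderiv_right (m := 1) (WithTop.coe_le_coe.mpr le_top))
  have hJd : ∀ᶠ q in 𝓝 ((p₀, 0) : E × ℝ), DifferentiableAt ℝ (JJ Fl g a b) q :=
    ((hJs.of_le (m := 1) (by simp)).eventually (by simp)).mono fun q hq =>
      hq.differentiableAt (by simp)
  have hJt : ∀ᶠ q in 𝓝 ((p₀, 0) : E × ℝ), q.1 ∈ (extChartAt 𝓘(ℝ, E) a).target :=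
    (continuous_fst.tendsto ((p₀, 0) : E × ℝ)).eventually
      ((isOpen_extChartAt_target a).mem_nhds hp)
  have hsymmc : ContinuousAt (fun q : E × ℝ => (extChartAt 𝓘(ℝ, E) a).symm q.1) (p₀, 0) :=
    ContinuousAt.comp (x := ((p₀, 0) : E × ℝ)) (f := Prod.fst)
      (g := (extChartAt 𝓘(ℝ, E) a).symm) ((continuousOn_extChartAt_symm a).continuousAt
        ((isOpen_extChartAt_target a).mem_nhds hp)) continuousAt_fst
  have hJF : ContinuousAt (fun q : E × ℝ => Fl (g ((extChartAt 𝓘(ℝ, E) a).symm q.1)) q.2)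
      (p₀, 0) := by
    have h1 : ContinuousAt (fun q : E × ℝ => (g ((extChartAt 𝓘(ℝ, E) a).symm q.1), q.2))
        (p₀, 0) := (hg.smooth.continuous.continuousAt.comp hsymmc).prodMk continuousAt_snd
    exact h.smooth.continuous.continuousAt.comp h1
  have hJsrc : ∀ᶠ q in 𝓝 ((p₀, 0) : E × ℝ), Fl (g ((extChartAt 𝓘(ℝ, E) a).symm q.1)) q.2 ∈
      (extChartAt 𝓘(ℝ, E) b).source :=
    hJF.eventually ((isOpen_extChartAt_source b).mem_nhds (by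
      show Fl (g ((extChartAt 𝓘(ℝ, E) a).symm p₀)) 0 ∈ _
      rw [h.zero]; exact hgp))
  obtain ⟨ρ₂, hρ₂, hball⟩ := Metric.eventually_nhds_iff.1 (hJd.and (hJt.and hJsrc))
  -- the forms and `e`
  have hbs : ContDiffAt ℝ 1 (chartForm 𝓘(ℝ, E) β a) p₀ :=
    ((contDiffOn_chartForm c.contact.smooth a).contDiffAt
      ((isOpen_extChartAt_target a).mem_nhds hp)).of_le (by simp)
  obtain ⟨L₃, hL₃, ρ₃, hρ₃, lip₃⟩ := lip_ball hbs
  have hes : ContDiffAt ℝ 1 (cf a e) p₀ := (cf_smooth a he hp).of_le (by simp)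
  obtain ⟨L₄, hL₄, ρ₄, hρ₄, lip₄⟩ := lip_ball hes
  obtain ⟨ρ, hρ⟩ : ∃ ρ, ρ = min (min ρ₁ ρ₂) (min ρ₃ ρ₄) := ⟨_, rfl⟩
  have hρ0 : 0 < ρ := by rw [hρ]; exact lt_min (lt_min hρ₁ hρ₂) (lt_min hρ₃ hρ₄)
  have r₁ : ρ ≤ ρ₁ := by rw [hρ]; exact (min_le_left _ _).trans (min_le_left _ _)
  have r₂ : ρ ≤ ρ₂ := by rw [hρ]; exact (min_le_left _ _).trans (min_le_right _ _)
  have r₃ : ρ ≤ ρ₃ := by rw [hρ]; exact (min_le_right _ _).trans (min_le_left _ _)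
  have r₄ : ρ ≤ ρ₄ := by rw [hρ]; exact (min_le_right _ _).trans (min_le_right _ _)
  -- the constant
  obtain ⟨C₀, hC₀⟩ : ∃ C₀, C₀ = K₃ + K₄ + 1 := ⟨_, rfl⟩
  have hC₀0 : 0 < C₀ := by rw [hC₀]; positivity
  obtain ⟨N, hN⟩ := exists_nat_gt (K₁ + K₂ + K₃ + K₄ + K₅ + K₆ + K₇ + L₁ * C₀ * C₀ + L₁ * C₀ +
    L₃ * C₀ + L₄ * C₀ + 4 * C₀ / ρ)
  have p1 : 0 ≤ L₁ * C₀ * C₀ := by positivity
  have p2 : 0 ≤ L₁ * C₀ := by positivity
  have p3 : 0 ≤ L₃ * C₀ := by positivity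
  have p4 : 0 ≤ L₄ * C₀ := by positivity
  have p5 : 0 ≤ 4 * C₀ / ρ := by positivity
  have p6 : (0:ℝ) ≤ K₂ := Nat.cast_nonneg _
  have p7 : (0:ℝ) ≤ K₇ := Nat.cast_nonneg _
  have hNr : C₀ * (1 / ((N:ℝ) + 1)) < ρ / 4 := by
    rw [mul_one_div, div_lt_iff₀ (by positivity)]
    have h1 : 4 * C₀ / ρ < (N:ℝ) + 1 := by linarith
    rw [div_lt_iff₀ hρ0] at h1
    linarith
  refine ⟨N, ?_⟩
  have hev : ∀ᶠ p in 𝓝 p₀, p ∈ ball p₀ (ρ / 4) := ball_mem_nhds _ (by positivity)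
  have hgev : ∀ᶠ p in 𝓝 p₀, g ((extChartAt 𝓘(ℝ, E) a).symm p) ∈
      (extChartAt 𝓘(ℝ, E) b).source := by
    have h1 : ContinuousAt (fun p => g ((extChartAt 𝓘(ℝ, E) a).symm p)) p₀ :=
      hg.smooth.continuous.continuousAt.comp ((continuousOn_extChartAt_symm a).continuousAt
        ((isOpen_extChartAt_target a).mem_nhds hp))
    exact h1.eventually ((isOpen_extChartAt_source b).mem_nhds hgp)
  have hcx : ContinuousAt (extChartAt 𝓘(ℝ, E) a) x := continuousAt_extChartAt' hx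
  have hpull : ∀ {Q : E → Prop}, (∀ᶠ p in 𝓝 p₀, Q p) →
      ∀ᶠ x' in 𝓝 x, Q (extChartAt 𝓘(ℝ, E) a x') := fun hQ => by
    rw [hp₀] at hQ
    exact hcx.eventually hQ
  filter_upwards [hpull e₁, hpull e₂, hpull e₃, hpull e₄, hpull e₅, hpull e₆, hpull e₇,
    hpull hev, hpull hgev, (isOpen_extChartAt_source a).mem_nhds hx] with
    x' f₁ f₂ f₃ f₄ f₅ f₆ f₇ fb fg fs
  obtain ⟨p, hpx⟩ : ∃ p, p = extChartAt 𝓘(ℝ, E) a x' := ⟨_, rfl⟩
  have hps : (extChartAt 𝓘(ℝ, E) a).symm p = x' := by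
    rw [hpx]; exact (extChartAt 𝓘(ℝ, E) a).left_inv fs
  have hpt : p ∈ (extChartAt 𝓘(ℝ, E) a).target := by
    rw [hpx]; exact (extChartAt 𝓘(ℝ, E) a).map_source fs
  rw [← hpx] at f₁ f₂ f₃ f₄ f₅ f₆ f₇ fb fg
  rw [mem_ball, dist_eq_norm] at fb
  -- small vectors
  have hPw : ∀ w, ‖PE β Fl a p w‖ ≤ C₀ * ‖w‖ := fun w => by
    refine ((PE β Fl a p).le_opNorm w).trans ?_
    have : ‖PE β Fl a p‖ ≤ C₀ := by linarith
    gcongr
  have hbw : ∀ w, |chartForm 𝓘(ℝ, E) β a p w| ≤ C₀ * ‖w‖ := fun w => by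
    refine ((chartForm 𝓘(ℝ, E) β a p).le_opNorm w).trans ?_
    have : ‖chartForm 𝓘(ℝ, E) β a p‖ ≤ C₀ := by linarith
    gcongr
  have hpair : ∀ w, ‖((PE β Fl a p w, chartForm 𝓘(ℝ, E) β a p w) : E × ℝ)‖ ≤ C₀ * ‖w‖ := by
    intro w
    rw [Prod.norm_def]
    exact max_le (hPw w) (hbw w)
  have hp0b : ((p, 0) : E × ℝ) ∈ ball ((p₀, 0) : E × ℝ) ρ := by
    rw [mem_ball, Prod.dist_eq, dist_self, dist_eq_norm]
    exact max_lt (by simp only; linarith) hρ0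
  have hqb : ∀ q : E × ℝ, ‖q - (p, 0)‖ < ρ / 2 → q ∈ ball ((p₀, 0) : E × ℝ) ρ := by
    intro q hq
    rw [mem_ball]
    have h1 : dist ((p, 0) : E × ℝ) (p₀, 0) < ρ / 4 := by
      rw [Prod.dist_eq, dist_self, dist_eq_norm]
      exact max_lt (by simp only; linarith) (by positivity)
    have h2 := dist_triangle q (p, 0) (p₀, 0)
    have h3 : dist q (p, 0) = ‖q - (p, 0)‖ := dist_eq_norm _ _
    linarith
  have hadd : ∀ w, ((p + PE β Fl a p w, chartForm 𝓘(ℝ, E) β a p w) : E × ℝ) - (p, 0) =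
      (PE β Fl a p w, chartForm 𝓘(ℝ, E) β a p w) := by
    intro w
    ext <;> simp
  have hwb : ∀ w, ‖w‖ ≤ 1 / ((N:ℝ) + 1) →
      ((p + PE β Fl a p w, chartForm 𝓘(ℝ, E) β a p w) : E × ℝ) ∈ ball ((p₀, 0) : E × ℝ) ρ := by
    intro w hw
    apply hqb
    rw [hadd]
    have h1 := hpair w
    have h2 : C₀ * ‖w‖ ≤ C₀ * (1 / ((N:ℝ) + 1)) := by gcongr
    linarith
  have hwb1 : ∀ w, ‖w‖ ≤ 1 / ((N:ℝ) + 1) → p + PE β Fl a p w ∈ ball p₀ ρ := by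
    intro w hw
    have h1 := hwb w hw
    rw [mem_ball, Prod.dist_eq] at h1
    exact (le_max_left _ _).trans_lt h1
  have hp1 : p ∈ ball p₀ ρ := by rw [mem_ball, dist_eq_norm]; linarith
  have hJ0 : fderiv ℝ (JJ Fl g a b) (p, 0) = (fderiv ℝ (ch2 a b g) p).comp
      (ContinuousLinearMap.fst ℝ E ℝ) +
      (ContinuousLinearMap.snd ℝ E ℝ).smulRight (RF.Rc Fl b (ch2 a b g p)) :=
    (JJ_strict h hg.smooth a b hpt fg).hasFDerivAt.fderiv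
  refine ⟨?_, ?_, ?_, ?_, ?_, ?_, ?_, ?_, ?_, ?_, ?_, ?_, ?_⟩
  · rw [← hpx]; linarith
  · intro z
    rw [← hpx]
    refine (f₂ z).trans ?_
    have : (K₂:ℝ) ≤ N := by linarith
    gcongr
  · rw [← hpx]; linarith
  · rw [← hpx]; linarith
  · rw [← hpx]; linarith
  · rw [← hpx]; linarith
  · intro z
    rw [← hpx]
    refine (f₇ z).trans ?_
    have : (K₇:ℝ) ≤ N := by linarith
    gcongr
  · intro w w' hw hw'
    rw [← hpx]
    obtain ⟨s, hs⟩ : ∃ s, s = C₀ * (‖w‖ + ‖w'‖) := ⟨_, rfl⟩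
    have hs2 : s < ρ / 2 := by
      have h2 : C₀ * ‖w‖ ≤ C₀ * (1 / ((N:ℝ) + 1)) := by gcongr
      have h3 : C₀ * ‖w'‖ ≤ C₀ * (1 / ((N:ℝ) + 1)) := by gcongr
      rw [hs]
      linarith
    have hsb : ∀ y ∈ closedBall ((p, 0) : E × ℝ) s, y ∈ ball ((p₀, 0) : E × ℝ) ρ := by
      intro y hy
      rw [mem_closedBall, dist_eq_norm] at hy
      exact hqb y (by linarith)
    have hws : ((p + PE β Fl a p w, chartForm 𝓘(ℝ, E) β a p w) : E × ℝ) ∈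
        closedBall ((p, 0) : E × ℝ) s := by
      rw [mem_closedBall, dist_eq_norm, hadd, hs]
      have h1 := hpair w
      have h2 : 0 ≤ C₀ * ‖w'‖ := by positivity
      linarith
    have hws' : ((p + PE β Fl a p w', chartForm 𝓘(ℝ, E) β a p w') : E × ℝ) ∈
        closedBall ((p, 0) : E × ℝ) s := by
      rw [mem_closedBall, dist_eq_norm, hadd, hs]
      have h1 := hpair w'
      have h2 : 0 ≤ C₀ * ‖w‖ := by positivity
      linarith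
    have hmv := Convex.norm_image_sub_le_of_norm_fderiv_le' (𝕜 := ℝ) (f := JJ Fl g a b)
      (s := closedBall ((p, 0) : E × ℝ) s) (φ := fderiv ℝ (JJ Fl g a b) (p, 0)) (C := L₁ * s)
      (x := (p + PE β Fl a p w', chartForm 𝓘(ℝ, E) β a p w'))
      (y := (p + PE β Fl a p w, chartForm 𝓘(ℝ, E) β a p w))
      (fun y hy => (hball (lt_of_lt_of_le (mem_ball.1 (hsb y hy)) r₂)).1)
      (fun y hy => by
        refine (lip₁ y (ball_subset_ball r₁ (hsb y hy)) _ (ball_subset_ball r₁ hp0b)).trans ?_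
        rw [mem_closedBall, dist_eq_norm] at hy
        gcongr)
      (convex_closedBall _ _) hws' hws
    have hdiff : ((p + PE β Fl a p w, chartForm 𝓘(ℝ, E) β a p w) : E × ℝ) -
        (p + PE β Fl a p w', chartForm 𝓘(ℝ, E) β a p w') =
        (PE β Fl a p (w - w'), chartForm 𝓘(ℝ, E) β a p (w - w')) := by
      rw [map_sub, map_sub]
      ext <;> simp
    rw [hdiff] at hmv
    have hA : fderiv ℝ (JJ Fl g a b) (p, 0)
        (PE β Fl a p (w - w'), chartForm 𝓘(ℝ, E) β a p (w - w')) = AE β Fl g a b p (w - w') := by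
      rw [hJ0]; rfl
    rw [hA] at hmv
    have h1 := hpair (w - w')
    refine (hmv.trans (mul_le_mul_of_nonneg_left h1 (by rw [hs]; positivity))).trans ?_
    rw [hs]
    have h2 : L₁ * C₀ * C₀ ≤ N := by linarith
    calc L₁ * (C₀ * (‖w‖ + ‖w'‖)) * (C₀ * ‖w - w'‖) =
        (L₁ * C₀ * C₀) * ((‖w‖ + ‖w'‖) * ‖w - w'‖) := by ring
      _ ≤ N * ((‖w‖ + ‖w'‖) * ‖w - w'‖) := by gcongr
      _ = _ := by ring
  · intro w hw
    rw [← hpx]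
    exact (hball (lt_of_lt_of_le (mem_ball.1 (hwb w hw)) r₂)).2.1
  · intro w hw
    rw [← hpx]
    exact (hball (lt_of_lt_of_le (mem_ball.1 (hwb w hw)) r₂)).2.2
  · intro w hw z
    rw [← hpx, fderiv_JJ a b (hball (lt_of_lt_of_le (mem_ball.1 (hwb w hw)) r₂)).1]
    have h1 : fderiv ℝ (ch2 a b g) p z = fderiv ℝ (JJ Fl g a b) (p, 0) (z, 0) := by
      rw [hJ0]; simp
    rw [h1, ← _root_.sub_apply]
    refine (ContinuousLinearMap.le_opNorm _ _).trans ?_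
    have h2 : ‖((z, 0) : E × ℝ)‖ = ‖z‖ := by simp [Prod.norm_def]
    rw [h2]
    have h3 := lip₁ _ (ball_subset_ball r₁ (hwb w hw)) _ (ball_subset_ball r₁ hp0b)
    rw [hadd] at h3
    have h4 := hpair w
    have h5 : L₁ * ‖((PE β Fl a p w, chartForm 𝓘(ℝ, E) β a p w) : E × ℝ)‖ ≤ N * ‖w‖ := by
      calc _ ≤ L₁ * (C₀ * ‖w‖) := by gcongr
        _ = (L₁ * C₀) * ‖w‖ := by ring
        _ ≤ N * ‖w‖ := by
          have : L₁ * C₀ ≤ N := by linarith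
          gcongr
    exact mul_le_mul_of_nonneg_right (h3.trans h5) (norm_nonneg _)
  · intro w hw z
    rw [← hpx, ← _root_.sub_apply, ← Real.norm_eq_abs]
    refine (ContinuousLinearMap.le_opNorm _ _).trans ?_
    have h3 := lip₃ _ (ball_subset_ball r₃ (hwb1 w hw)) _ (ball_subset_ball r₃ hp1)
    rw [add_sub_cancel_left] at h3
    have h4 := hPw w
    have h5 : L₃ * ‖PE β Fl a p w‖ ≤ N * ‖w‖ := by
      calc _ ≤ L₃ * (C₀ * ‖w‖) := by gcongr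
        _ = (L₃ * C₀) * ‖w‖ := by ring
        _ ≤ N * ‖w‖ := by
          have : L₃ * C₀ ≤ N := by linarith
          gcongr
    exact mul_le_mul_of_nonneg_right (h3.trans h5) (norm_nonneg _)
  · intro w hw
    rw [← hpx]
    have h3 := lip₄ _ (ball_subset_ball r₄ (hwb1 w hw)) _ (ball_subset_ball r₄ hp1)
    rw [add_sub_cancel_left] at h3
    have h4 := hPw w
    have h6 : cf a e p = e x' := by
      show e ((extChartAt 𝓘(ℝ, E) a).symm p) = e x'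
      rw [hps]
    rw [h6] at h3
    have h5 : L₄ * ‖PE β Fl a p w‖ ≤ N * ‖w‖ := by
      calc _ ≤ L₄ * (C₀ * ‖w‖) := by gcongr
        _ = (L₄ * C₀) * ‖w‖ := by ring
        _ ≤ N * ‖w‖ := by
          have : L₄ * C₀ ≤ N := by linarith
          gcongr
    exact h3.trans h5

/-- **uniform bounds** -/
theorem exists_UB [CompactSpace P] [T2Space P] (c : CD β R) (h : RF β R Fl) {g : P → P}
    (hg : St β g) {e : P → F} (he : ContMDiff 𝓘(ℝ, E) 𝓘(ℝ, F) ∞ e)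
    (hinj : Function.Injective e) (himm : ∀ x, Function.Injective (dv E e x))
    {t : Finset P} {V : P → Set P} (hV : ∀ a, IsClosed (V a))
    (hVs : ∀ a, V a ⊆ (extChartAt 𝓘(ℝ, E) a).source) :
    ∃ N : ℕ, ∀ a ∈ t, ∀ b ∈ t, ∀ x, x ∈ V a → g x ∈ V b → UB β Fl g e a b x N := by
  obtain ⟨N, δ, hδ, hN⟩ := unif he.continuous hinj hg.smooth.continuous isClosed_univ (t := t) hV
    (Q := fun N a b x _ => UB β Fl g e a b x N)
    (fun m n a b x y hmn hm => UB.mono hmn hm)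
    (fun a _ b _ x _ hxa hgb => by
      obtain ⟨N, hN⟩ := loc_UB (R := R) c h hg he himm (hVs a hxa) (hVs b hgb)
      exact ⟨N, (continuous_fst.tendsto (x, g x)).eventually hN⟩)
  refine ⟨N, fun a ha b hb x hxa hgb => ?_⟩
  exact hN a ha b hb x (mem_univ x) (g x) hxa hgb (by rw [sub_self, norm_zero]; exact hδ)

end Pool.Agent.K4H64.Kt
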