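import Mathlib

/-! Good times of an orbit. -/

open scoped Topology ENNReal
open Set MeasureTheory Filter

noncomputable section

namespace Pool.Agent.K4H64.Kt

section Cov

variable {n₀ : ℕ}

/-- `i` is a bad starting time -/
def Qf (n₀ N : ℕ) (z : ℕ → ℕ) (i : ℕ) : Prop :=
  ∃ k, 1 ≤ k ∧ i + k ≤ N ∧ k < n₀ * ∑ j ∈ Finset.range k, z (i + j)

lemma Qf_shift {N k : ℕ} {z : ℕ → ℕ} {i : ℕ} (hk : k ≤ i) (h : Qf n₀ N z i) :
    Qf n₀ (N - k) (fun j => z (k + j)) (i - k) := by
  obtain ⟨l, h1, h2, h3⟩ := h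
  refine ⟨l, h1, by omega, ?_⟩
  have h4 : ∀ j, k + (i - k + j) = i + j := fun j => by omega
  simp only [h4]
  exact h3

open Classical in
theorem cov (n₀ : ℕ) : ∀ (N : ℕ) (z : ℕ → ℕ),
    ((Finset.range N).filter (Qf n₀ N z)).card ≤ n₀ * ∑ j ∈ Finset.range N, z j := by
  intro N
  induction N using Nat.strong_induction_on with
  | _ N ih =>
    intro z
    rcases Nat.eq_zero_or_pos N with rfl | hN
    · simp
    by_cases h0 : Qf n₀ N z 0
    · obtain ⟨k, h1, h2, h3⟩ := h0
      simp only [zero_add] at h2 h3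
      have hsub : (Finset.range N).filter (Qf n₀ N z) ⊆ Finset.range k ∪
          ((Finset.range (N - k)).filter (Qf n₀ (N - k) (fun j => z (k + j)))).image
            (fun i => k + i) := by
        intro i hi
        rw [Finset.mem_filter, Finset.mem_range] at hi
        rw [Finset.mem_union, Finset.mem_range, Finset.mem_image]
        rcases lt_or_ge i k with h4 | h4
        · exact Or.inl h4
        · refine Or.inr ⟨i - k, ?_, by omega⟩
          rw [Finset.mem_filter, Finset.mem_range]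
          exact ⟨by omega, Qf_shift h4 hi.2⟩
      have h5 := ih (N - k) (by omega) (fun j => z (k + j))
      have h6 : ∑ j ∈ Finset.range N, z j =
          ∑ j ∈ Finset.range k, z j + ∑ j ∈ Finset.range (N - k), z (k + j) := by
        have h7 : N = k + (N - k) := by omega
        conv_lhs => rw [h7]
        rw [Finset.sum_range_add]
      have h8 := (Finset.card_le_card hsub).trans (Finset.card_union_le _ _)
      have h9 : (((Finset.range (N - k)).filter (Qf n₀ (N - k) (fun j => z (k + j)))).image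
            (fun i => k + i)).card ≤ _ := Finset.card_image_le
      rw [Finset.card_range] at h8
      rw [h6, mul_add]
      omega
    · have hsub : (Finset.range N).filter (Qf n₀ N z) ⊆
          ((Finset.range (N - 1)).filter (Qf n₀ (N - 1) (fun j => z (1 + j)))).image
            (fun i => 1 + i) := by
        intro i hi
        rw [Finset.mem_filter, Finset.mem_range] at hi
        rw [Finset.mem_image]
        have h4 : 1 ≤ i := by
          rcases Nat.eq_zero_or_pos i with rfl | h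
          · exact absurd hi.2 h0
          · exact h
        refine ⟨i - 1, ?_, by omega⟩
        rw [Finset.mem_filter, Finset.mem_range]
        exact ⟨by omega, Qf_shift h4 hi.2⟩
      have h5 := ih (N - 1) (by omega) (fun j => z (1 + j))
      have h6 : ∑ j ∈ Finset.range N, z j =
          ∑ j ∈ Finset.range 1, z j + ∑ j ∈ Finset.range (N - 1), z (1 + j) := by
        have h7 : N = 1 + (N - 1) := by omega
        conv_lhs => rw [h7]
        rw [Finset.sum_range_add]
      have h8 := (Finset.card_le_card hsub).trans Finset.card_image_le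
      rw [h6, mul_add]
      omega

/-- `i` is a bad final time -/
def Qb (n₀ : ℕ) (z : ℕ → ℕ) (i : ℕ) : Prop :=
  ∃ k, 1 ≤ k ∧ k ≤ i + 1 ∧ k < n₀ * ∑ j ∈ Finset.range k, z (i - j)

open Classical in
theorem covb (n₀ N : ℕ) (z : ℕ → ℕ) :
    ((Finset.range N).filter (Qb n₀ z)).card ≤ n₀ * ∑ j ∈ Finset.range N, z j := by
  rcases Nat.eq_zero_or_pos N with rfl | hN
  · simp
  have h1 := cov n₀ N (fun j => z (N - 1 - j))
  have h2 : ∑ j ∈ Finset.range N, z (N - 1 - j) = ∑ j ∈ Finset.range N, z j :=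
    Finset.sum_range_reflect z N
  rw [h2] at h1
  refine le_trans ?_ h1
  have hsub : (Finset.range N).filter (Qb n₀ z) ⊆
      ((Finset.range N).filter (Qf n₀ N (fun j => z (N - 1 - j)))).image (fun i => N - 1 - i) := by
    intro i hi
    rw [Finset.mem_filter, Finset.mem_range] at hi
    rw [Finset.mem_image]
    refine ⟨N - 1 - i, ?_, by omega⟩
    rw [Finset.mem_filter, Finset.mem_range]
    refine ⟨by omega, ?_⟩
    obtain ⟨k, h3, h4, h5⟩ := hi.2
    refine ⟨k, h3, by omega, ?_⟩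
    have h6 : ∑ j ∈ Finset.range k, z (N - 1 - (N - 1 - i + j)) =
        ∑ j ∈ Finset.range k, z (i - j) := by
      refine Finset.sum_congr rfl fun j hj => ?_
      rw [Finset.mem_range] at hj
      congr 1
      omega
    simp only [h6]
    exact h5
  exact (Finset.card_le_card hsub).trans Finset.card_image_le

lemma near_zero (h2 : 2 ≤ n₀) {w : ℕ → ℕ} {l' : ℕ}
    (hw : ∀ k, 1 ≤ k → k ≤ l' + 1 → n₀ * ∑ j ∈ Finset.range k, w j ≤ k) :
    ∃ t ≤ l', w t = 0 ∧ n₀ * (l' - t) ≤ l' + 1 := by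
  have h0 : w 0 = 0 := by
    have h1 := hw 1 le_rfl (by omega)
    rw [Finset.sum_range_one] at h1
    by_contra h3
    have h4 : 1 ≤ w 0 := Nat.one_le_iff_ne_zero.2 h3
    have h5 : 2 * 1 ≤ n₀ * w 0 := Nat.mul_le_mul h2 h4
    omega
  obtain ⟨t, ht⟩ : ∃ t, t = Nat.findGreatest (fun t => w t = 0) l' := ⟨_, rfl⟩
  have ht1 : t ≤ l' := by rw [ht]; exact Nat.findGreatest_le _
  have ht2 : w t = 0 := by
    rw [ht]
    exact Nat.findGreatest_spec (P := fun t => w t = 0) (m := 0) (Nat.zero_le _) h0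
  refine ⟨t, ht1, ht2, ?_⟩
  have h3 : ∀ s, t < s → s ≤ l' → 1 ≤ w s := fun s hs hsl => by
    rw [ht] at hs
    exact Nat.one_le_iff_ne_zero.2
      (Nat.findGreatest_is_greatest (P := fun t => w t = 0) hs hsl)
  have h4 : l' - t ≤ ∑ j ∈ Finset.range (l' + 1), w j := by
    calc l' - t = ∑ j ∈ Finset.Ioc t l', 1 := by simp
      _ ≤ ∑ j ∈ Finset.Ioc t l', w j := Finset.sum_le_sum fun j hj => by
          rw [Finset.mem_Ioc] at hj
          exact h3 j hj.1 hj.2
      _ ≤ ∑ j ∈ Finset.range (l' + 1), w j := by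
          apply Finset.sum_le_sum_of_subset
          intro j hj
          rw [Finset.mem_Ioc] at hj
          rw [Finset.mem_range]
          omega
  calc n₀ * (l' - t) ≤ n₀ * ∑ j ∈ Finset.range (l' + 1), w j := Nat.mul_le_mul_left _ h4
    _ ≤ l' + 1 := hw (l' + 1) (by omega) le_rfl

open Classical in
/-- **good times** -/
theorem segs {N n : ℕ} (h2 : 2 ≤ n₀) {z : ℕ → ℕ} {W : ℕ → Prop}
    (h : 2 * n₀ * ∑ j ∈ Finset.range N, z j + n < ((Finset.range N).filter W).card) :
    ∃ T : Finset ℕ, n < T.card ∧ (∀ i ∈ T, i < N ∧ W i ∧ z i = 0) ∧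
      ∀ i₀ ∈ T, ∀ m, i₀ + (m + 1) ∈ T → ∀ i ≤ m + 1, ∃ j l, j ≤ i₀ + (m + 1) ∧ z j = 0 ∧
        i₀ + i ≤ j + l ∧ j ≤ i₀ + i + l ∧ n₀ * l ≤ min i (m + 1 - i) + 1 := by
  obtain ⟨T, hT⟩ : ∃ T, T = ((Finset.range N).filter W).filter
    (fun i => ¬ Qf n₀ N z i ∧ ¬ Qb n₀ z i) := ⟨_, rfl⟩
  have hmem : ∀ i, i ∈ T ↔ (i < N ∧ W i) ∧ ¬ Qf n₀ N z i ∧ ¬ Qb n₀ z i := fun i => by
    rw [hT, Finset.mem_filter, Finset.mem_filter, Finset.mem_range]
  have hc1 := cov n₀ N z
  have hc2 := covb n₀ N z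
  have hcard : ((Finset.range N).filter W).card ≤ T.card +
      (((Finset.range N).filter (Qf n₀ N z)).card + ((Finset.range N).filter (Qb n₀ z)).card) := by
    have hsub : (Finset.range N).filter W ⊆ T ∪ ((Finset.range N).filter (Qf n₀ N z) ∪
        (Finset.range N).filter (Qb n₀ z)) := by
      intro i hi
      rw [Finset.mem_filter, Finset.mem_range] at hi
      simp only [Finset.mem_union, hmem, Finset.mem_filter, Finset.mem_range]
      tauto
    refine (Finset.card_le_card hsub).trans ((Finset.card_union_le _ _).trans ?_)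
    exact Nat.add_le_add_left (Finset.card_union_le _ _) _
  have hfw : ∀ i₀ ∈ T, ∀ l', i₀ + l' < N → ∃ t ≤ l', z (i₀ + t) = 0 ∧
      n₀ * (l' - t) ≤ l' + 1 := fun i₀ hi l' hl => by
    have h3 := ((hmem i₀).1 hi).2.1
    refine near_zero h2 (w := fun t => z (i₀ + t)) fun k hk hkl => ?_
    by_contra h4
    exact h3 ⟨k, hk, by omega, by omega⟩
  have hbw : ∀ j₀ ∈ T, ∀ l', l' ≤ j₀ → ∃ t ≤ l', z (j₀ - t) = 0 ∧
      n₀ * (l' - t) ≤ l' + 1 := fun j₀ hj l' hl => by
    have h3 := ((hmem j₀).1 hj).2.2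
    refine near_zero h2 (w := fun t => z (j₀ - t)) fun k hk hkl => ?_
    by_contra h4
    exact h3 ⟨k, hk, by omega, by omega⟩
  refine ⟨T, ?_, fun i hi => ?_, fun i₀ hi₀ m hm i hi => ?_⟩
  · have : 2 * n₀ * ∑ j ∈ Finset.range N, z j = n₀ * ∑ j ∈ Finset.range N, z j +
        n₀ * ∑ j ∈ Finset.range N, z j := by ring
    omega
  · have h3 := (hmem i).1 hi
    refine ⟨h3.1.1, h3.1.2, ?_⟩
    obtain ⟨t, ht, ht2, -⟩ := hfw i hi 0 (by omega)
    have : t = 0 := by omega
    rw [this] at ht2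
    exact ht2
  · have h3 := ((hmem _).1 hm).1.1
    rcases le_total i (m + 1 - i) with h4 | h4
    · obtain ⟨t, ht, ht1, ht2⟩ := hfw i₀ hi₀ i (by omega)
      refine ⟨i₀ + t, i - t, by omega, ht1, by omega, by omega, ?_⟩
      rw [min_eq_left h4]
      exact ht2
    · obtain ⟨t, ht, ht1, ht2⟩ := hbw _ hm (m + 1 - i) (by omega)
      refine ⟨i₀ + (m + 1) - t, m + 1 - i - t, by omega, ht1, by omega, by omega, ?_⟩
      rw [min_eq_right h4]
      exact ht2

end Cov

section Meas

variable {P : Type*} [MeasurableSpace P]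

lemma lint_orbit {μ : Measure P} {g : P → P} (hg : MeasurePreserving g μ μ) {V : Set P}
    (hV : MeasurableSet V) (N : ℕ) :
    ∫⁻ x, ∑ i ∈ Finset.range N, V.indicator (fun _ => (1:ℝ≥0∞)) (g^[i] x) ∂μ = N * μ V := by
  rw [lintegral_finsetSum]
  · have h1 : ∀ i ∈ Finset.range N, ∫⁻ x, V.indicator (fun _ => (1:ℝ≥0∞)) (g^[i] x) ∂μ = μ V := by
      intro i _
      have h2 : MeasurePreserving (g^[i]) μ μ := hg.iterate i
      rw [h2.lintegral_comp (f := V.indicator (fun _ => (1:ℝ≥0∞)))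
        (measurable_const.indicator hV), lintegral_indicator_const hV, one_mul]
    rw [Finset.sum_congr rfl h1, Finset.sum_const, Finset.card_range, nsmul_eq_mul]
  · intro i _
    exact (measurable_const.indicator hV).comp (hg.iterate i).measurable

open Classical in
theorem exists_orbit {μ : Measure P} [IsFiniteMeasure μ] {g : P → P}
    (hg : MeasurePreserving g μ μ) {Λ : Set P} (hΛ : μ Λᶜ = 0) {V B : Set P}
    (hV : MeasurableSet V) (hB : MeasurableSet B) (a : ℕ) (h : (a:ℝ≥0∞) * μ Bᶜ < μ V) (n : ℕ) :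
    ∃ N, ∃ x ∈ Λ, a * ∑ i ∈ Finset.range N, (if g^[i] x ∈ B then 0 else 1) + n <
      ((Finset.range N).filter (fun i => g^[i] x ∈ V)).card := by
  by_contra hcon
  push Not at hcon
  -- integrate
  have key : ∀ N : ℕ, (N:ℝ≥0∞) * μ V ≤ a * (N * μ Bᶜ) + n * μ univ := by
    intro N
    have h1 : ∀ᵐ x ∂μ, ∑ i ∈ Finset.range N, V.indicator (fun _ => (1:ℝ≥0∞)) (g^[i] x) ≤
        a * (∑ i ∈ Finset.range N, (Bᶜ).indicator (fun _ => (1:ℝ≥0∞)) (g^[i] x)) + n := by
      have h2 : ∀ᵐ x ∂μ, x ∈ Λ := by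
        rw [ae_iff]
        exact hΛ
      filter_upwards [h2] with x hx
      have h3 := hcon N x hx
      have h4 : ∑ i ∈ Finset.range N, V.indicator (fun _ => (1:ℝ≥0∞)) (g^[i] x) =
          (((Finset.range N).filter (fun i => g^[i] x ∈ V)).card : ℝ≥0∞) := by
        rw [Finset.card_filter, Nat.cast_sum]
        refine Finset.sum_congr rfl fun i _ => ?_
        by_cases h5 : g^[i] x ∈ V <;> simp [h5]
      have h5 : ∑ i ∈ Finset.range N, (Bᶜ).indicator (fun _ => (1:ℝ≥0∞)) (g^[i] x) =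
          ((∑ i ∈ Finset.range N, (if g^[i] x ∈ B then 0 else 1) : ℕ) : ℝ≥0∞) := by
        rw [Nat.cast_sum]
        refine Finset.sum_congr rfl fun i _ => ?_
        by_cases h6 : g^[i] x ∈ B <;> simp [h6]
      rw [h4, h5]
      exact_mod_cast h3
    have h2 := lintegral_mono_ae h1
    rw [lint_orbit hg hV, lintegral_add_right _ measurable_const, lintegral_const_mul,
      lint_orbit hg hB.compl, lintegral_const] at h2
    · exact h2
    · exact Finset.measurable_sum _ fun i _ =>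
        (measurable_const.indicator hB.compl).comp (hg.iterate i).measurable
  -- real numbers
  have hfV : μ V ≠ ∞ := measure_ne_top μ V
  have hfB : μ Bᶜ ≠ ∞ := measure_ne_top μ _
  have hfu : μ univ ≠ ∞ := measure_ne_top μ _
  obtain ⟨v, hv⟩ : ∃ v, v = (μ V).toReal := ⟨_, rfl⟩
  obtain ⟨b, hb⟩ : ∃ b, b = (μ Bᶜ).toReal := ⟨_, rfl⟩
  obtain ⟨u, hu⟩ : ∃ u, u = (μ univ).toReal := ⟨_, rfl⟩
  have hkr : ∀ N : ℕ, (N:ℝ) * v ≤ a * (N * b) + n * u := by
    intro N
    have h1 := ENNReal.toReal_mono (by finiteness) (key N)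
    rw [ENNReal.toReal_add (by finiteness) (by finiteness)] at h1
    simp only [ENNReal.toReal_mul, ENNReal.toReal_natCast] at h1
    rw [← hv, ← hb, ← hu] at h1
    exact h1
  have hlt : a * b < v := by
    have h1 := (ENNReal.toReal_lt_toReal (by finiteness) hfV).2 h
    simp only [ENNReal.toReal_mul, ENNReal.toReal_natCast] at h1
    rw [← hv, ← hb] at h1
    exact h1
  obtain ⟨N, hN⟩ := exists_nat_gt (n * u / (v - a * b))
  have h1 := hkr N
  rw [div_lt_iff₀ (by linarith)] at hN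
  nlinarith

end Meas

end Pool.Agent.K4H64.Kt
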