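import Mathlib
import Pool.Agent.K4H64.Kt.Chart
import Pool.Agent.K4H64.Kt.Abs
import Pool.Agent.K4H64.We.Rec
import Pool.Agent.K4H64.We.Close2

/-! Chart coordinates at the points of an orbit, trivialised at its initial point. -/

open scoped Topology ContDiff Manifold
open Set Metric Bundle Filter Pool.Agent.Helper186 Pool.Agent.H826R2.Wein Pool.Agent.W671.WU
open Pool.Agent.R774.Root Pool.Agent.R774.Hyp Pool.Agent.K4H64.We

noncomputable section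

namespace Pool.Agent.K4H64.Kt

set_option linter.unusedSectionVars false

universe u

variable {E : Type u} [NormedAddCommGroup E] [NormedSpace ℝ E] [FiniteDimensional ℝ E]
  {P : Type*} [TopologicalSpace P] [ChartedSpace E P] [IsManifold 𝓘(ℝ, E) ∞ P]
  {F : Type*} [NormedAddCommGroup F] [NormedSpace ℝ F]
  {β : (x : P) → TangentSpace 𝓘(ℝ, E) x →L[ℝ] ℝ}
  {R : (x : P) → TangentSpace 𝓘(ℝ, E) x} {Fl : P → ℝ → P}

/-- the derivative of a map as a linear map of `E` -/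
def dmL (φ : P → P) (x : P) : E →L[ℝ] E := mfderiv 𝓘(ℝ, E) 𝓘(ℝ, E) φ x

lemma dmL_apply (φ : P → P) (x : P) (v : E) : dmL φ x v = dm E φ x v := rfl

/-- the derivative of `e` as a linear map -/
def dvL (e : P → F) (x : P) : E →L[ℝ] F := mfderiv 𝓘(ℝ, E) 𝓘(ℝ, F) e x

lemma dvL_apply (e : P → F) (x : P) (v : E) : dvL e x v = dv E e x v := rfl

/-- `β x` as a functional on `E` -/
def bL (β : (x : P) → TangentSpace 𝓘(ℝ, E) x →L[ℝ] ℝ) (x : P) : E →L[ℝ] ℝ := β x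

/-- `ds` as a linear map -/
def dsL (a : P) (p : E) : E →L[ℝ] E := mfderiv 𝓘(ℝ, E) 𝓘(ℝ, E) (extChartAt 𝓘(ℝ, E) a).symm p

lemma dsL_apply (a : P) (p v : E) : dsL a p v = (ds a p v : E) := rfl

lemma dmL_inj (c : CD β R) {φ : P → P} (hφ : St β φ) (y : P) :
    Function.Injective (dmL φ y : E → E) := by
  intro u v huv
  have h1 : dm E φ y (u - v) = 0 := by
    rw [← dmL_apply, map_sub, huv, sub_self]
  exact sub_eq_zero.1 (dm_inj c hφ h1)

lemma dmL_comp {φ₁ φ₂ : P → P} (h1 : ContMDiff 𝓘(ℝ, E) 𝓘(ℝ, E) ∞ φ₁)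
    (h2 : ContMDiff 𝓘(ℝ, E) 𝓘(ℝ, E) ∞ φ₂) (y : P) (v : E) :
    dmL (fun x => φ₂ (φ₁ x)) y v = dmL φ₂ (φ₁ y) (dmL φ₁ y v) := dm_comp h1 h2 y v

lemma dmL_succ {g : P → P} (hg : St β g) (n : ℕ) (x : P) (v : E) :
    dmL (g^[n + 1]) x v = dmL g (g^[n] x) (dmL (g^[n]) x v) := by
  have h3 : (fun x => g (g^[n] x)) = g^[n + 1] := by
    funext x; rw [Function.iterate_succ_apply']
  rw [← h3]
  exact dmL_comp (St.iterate hg n).smooth hg.smooth x v

lemma dmL_add {g : P → P} (hg : St β g) (m n : ℕ) (x : P) (v : E) :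
    dmL (g^[m + n]) x v = dmL (g^[m]) (g^[n] x) (dmL (g^[n]) x v) := by
  have h3 : (fun x => g^[m] (g^[n] x)) = g^[m + n] := by
    funext x; rw [Function.iterate_add_apply]
  rw [← h3]
  exact dmL_comp (St.iterate hg n).smooth (St.iterate hg m).smooth x v

lemma dmL_zero (g : P → P) (x : P) (v : E) : dmL (g^[0]) x v = v := by
  have h2 : mfderiv 𝓘(ℝ, E) 𝓘(ℝ, E) (fun x : P => x) x =
    ContinuousLinearMap.id ℝ (TangentSpace 𝓘(ℝ, E) x) := mfderiv_id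
  exact DFunLike.congr_fun h2 v

lemma bL_strict {φ : P → P} (hφ : St β φ) (x : P) (v : E) :
    bL β (φ x) (dmL φ x v) = bL β x v := hφ.strict x v

/-- the derivative along the orbit, inverted: the vector at `x` given by a chart vector at `φ x` -/
lemma exists_theta (c : CD β R) {φ : P → P} (hφ : St β φ) (x a : P) (p : E) :
    ∃ θ : E →ₗ[ℝ] E, ∀ w, dmL φ x (θ w) = dsL a p w := by
  have hinj : Function.Injective ((dmL φ x : E →L[ℝ] E) : E →ₗ[ℝ] E) := dmL_inj c hφ x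
  let L : E ≃ₗ[ℝ] E := LinearEquiv.ofInjectiveEndo ((dmL φ x : E →L[ℝ] E) : E →ₗ[ℝ] E) hinj
  refine ⟨L.symm.toLinearMap.comp (dsL a p : E →ₗ[ℝ] E), fun w => ?_⟩
  have h1 : L (L.symm (dsL a p w)) = dsL a p w := L.apply_symm_apply _
  exact h1

lemma theta_R (c : CD β R) (h : RF β R Fl) {φ : P → P} (hφ : St β φ) {x a : P}
    (hx : φ x ∈ (extChartAt 𝓘(ℝ, E) a).source) {v : E}
    (hv : dmL φ x v = dsL a (extChartAt 𝓘(ℝ, E) a (φ x)) (RF.Rc Fl a
      (extChartAt 𝓘(ℝ, E) a (φ x)))) : v = R x := by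
  apply dmL_inj c hφ x
  have h1 := hφ.push_R c x
  have h2 := h.tangent_Rc a ((extChartAt 𝓘(ℝ, E) a).map_source hx)
  rw [hv]
  refine Eq.trans h2 (Eq.trans ?_ h1.symm)
  have h3 : ∀ y z : P, y = z → (R y : E) = R z := by rintro _ _ rfl; rfl
  exact h3 _ _ ((extChartAt 𝓘(ℝ, E) a).left_inv hx)

lemma theta_b {φ : P → P} (hφ : St β φ) {x a : P}
    (hx : φ x ∈ (extChartAt 𝓘(ℝ, E) a).source) {v w : E}
    (hv : dmL φ x v = dsL a (extChartAt 𝓘(ℝ, E) a (φ x)) w) :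
    bL β x v = chartForm 𝓘(ℝ, E) β a (extChartAt 𝓘(ℝ, E) a (φ x)) w := by
  rw [← bL_strict hφ x v, hv]
  have h3 : ∀ y z : P, y = z → ∀ u : E, bL β y u = bL β z u := by rintro _ _ rfl u; rfl
  exact h3 _ _ ((extChartAt 𝓘(ℝ, E) a).left_inv hx).symm _

/-- the derivative of `e` on a chart vector -/
lemma dvL_ds {e : P → F} (he : ContMDiff 𝓘(ℝ, E) 𝓘(ℝ, F) ∞ e) {y a : P}
    (hy : y ∈ (extChartAt 𝓘(ℝ, E) a).source) (w : E) :
    dvL e y (dsL a (extChartAt 𝓘(ℝ, E) a y) w) =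
      fderiv ℝ (cf a e) (extChartAt 𝓘(ℝ, E) a y) w := by
  rw [fderiv_cf a he ((extChartAt 𝓘(ℝ, E) a).map_source hy)]
  have h3 : ∀ y z : P, y = z → ∀ u : E, dvL e y u = dvL e z u := by rintro _ _ rfl u; rfl
  exact h3 _ _ ((extChartAt 𝓘(ℝ, E) a).left_inv hy).symm _

/-- the derivative of a map on a chart vector -/
lemma dmL_ds {φ : P → P} (hφ : ContMDiff 𝓘(ℝ, E) 𝓘(ℝ, E) ∞ φ) {y a b : P}
    (hy : y ∈ (extChartAt 𝓘(ℝ, E) a).source) (hφy : φ y ∈ (extChartAt 𝓘(ℝ, E) b).source)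
    (w : E) :
    dmL φ y (dsL a (extChartAt 𝓘(ℝ, E) a y) w) =
      dsL b (extChartAt 𝓘(ℝ, E) b (φ y)) (fderiv ℝ (ch2 a b φ) (extChartAt 𝓘(ℝ, E) a y) w) := by
  have hs := (extChartAt 𝓘(ℝ, E) a).left_inv hy
  have h1 := tangent_ch2 a b hφ ((extChartAt 𝓘(ℝ, E) a).map_source hy)
    (by rw [hs]; exact hφy) w
  have hE : ∀ {v w : TangentBundle 𝓘(ℝ, E) P} (_ : v = w), (v.2 : E) = (w.2 : E) := by
    rintro _ _ rfl; rfl
  have h2 := hE h1
  rw [ch2_chart hy] at h2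
  have h3 : ∀ y z : P, y = z → ∀ u : E, dmL φ y u = dmL φ z u := by rintro _ _ rfl u; rfl
  exact (h3 _ _ hs.symm _).trans h2.symm

lemma AE_eq (c : CD β R) (h : RF β R Fl) [T2Space P] {g : P → P} (hg : St β g) (a b : P) {p : E}
    (hp : p ∈ (extChartAt 𝓘(ℝ, E) a).target)
    (hgp : g ((extChartAt 𝓘(ℝ, E) a).symm p) ∈ (extChartAt 𝓘(ℝ, E) b).source) (w : E) :
    AE β Fl g a b p w = fderiv ℝ (ch2 a b g) p w := by
  rw [AE_apply, PE_apply, map_sub, map_smul,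
    Rc_ch2 h hg.smooth (fun x s => hg.comm c h x s) a b hp hgp, sub_add_cancel]

/-- **the step** -/
lemma theta_step [T2Space P] (c : CD β R) (h : RF β R Fl) {g : P → P} (hg : St β g) {x₀ : P}
    {n : ℕ} {a b : P} (hx : g^[n] x₀ ∈ (extChartAt 𝓘(ℝ, E) a).source)
    (hgx : g^[n + 1] x₀ ∈ (extChartAt 𝓘(ℝ, E) b).source) {v w : E}
    (hv : dmL (g^[n]) x₀ v = dsL a (extChartAt 𝓘(ℝ, E) a (g^[n] x₀)) w) :
    dmL (g^[n + 1]) x₀ v = dsL b (extChartAt 𝓘(ℝ, E) b (g^[n + 1] x₀))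
      (AE β Fl g a b (extChartAt 𝓘(ℝ, E) a (g^[n] x₀)) w) := by
  have hgx' : g (g^[n] x₀) ∈ (extChartAt 𝓘(ℝ, E) b).source := by
    have h0 : g (g^[n] x₀) = g^[n + 1] x₀ := (Function.iterate_succ_apply' g n x₀).symm
    rw [h0]; exact hgx
  have hs := (extChartAt 𝓘(ℝ, E) a).left_inv hx
  rw [AE_eq c h hg a b ((extChartAt 𝓘(ℝ, E) a).map_source hx) (by rw [hs]; exact hgx'),
    dmL_succ hg, hv, dmL_ds hg.smooth hx hgx', Function.iterate_succ_apply']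

/-- iterated derivative along a pseudo-orbit -/
def vit (g : P → P) (Fl : P → ℝ → P) (y : ℕ → P) (s : ℕ → ℝ) (v : E) : ℕ → E
  | 0 => v
  | k + 1 => dmL (fun x => Fl (g x) (s k)) (y k) (vit g Fl y s v k)

lemma chain2 (h : RF β R Fl) {g : P → P} (hg : St β g)
    {y : ℕ → P} {s : ℕ → ℝ} (hy : ∀ k, Fl (g (y k)) (s k) = y (k + 1)) (k : ℕ) :
    ∃ φ : P → P, St β φ ∧ φ (y 0) = y k ∧ ∀ v : E, dmL φ (y 0) v = vit g Fl y s v k := by
  induction k with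
  | zero => exact ⟨fun x => x, st_id, rfl, fun v => dmL_zero g (y 0) v⟩
  | succ k ih =>
    obtain ⟨φ, h1, h2, h3⟩ := ih
    have hst : St β (fun x => Fl (g x) (s k)) := hg.comp (St.flow h (s k))
    refine ⟨fun x => Fl (g (φ x)) (s k), h1.comp hst, ?_, fun v => ?_⟩
    · simp only
      rw [h2, hy]
    · have h4 := dmL_comp (φ₁ := φ) (φ₂ := fun x => Fl (g x) (s k)) h1.smooth hst.smooth (y 0) v
      rw [h3] at h4
      refine h4.trans ?_
      have h5 : ∀ y z : P, y = z → ∀ u : E, dmL (fun x => Fl (g x) (s k)) y u =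
        dmL (fun x => Fl (g x) (s k)) z u := by rintro _ _ rfl u; rfl
      exact h5 _ _ h2 _

lemma vit_ker (h : RF β R Fl) {g : P → P} (hg : St β g)
    {y : ℕ → P} {s : ℕ → ℝ} (hy : ∀ k, Fl (g (y k)) (s k) = y (k + 1)) {v : E}
    (hv : bL β (y 0) v = 0) (k : ℕ) : bL β (y k) (vit g Fl y s v k) = 0 := by
  induction k with
  | zero => exact hv
  | succ k ih =>
    have hst : St β (fun x => Fl (g x) (s k)) := hg.comp (St.flow h (s k))
    have h1 := bL_strict hst (y k) (vit g Fl y s v k)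
    rw [ih] at h1
    have h5 : ∀ y z : P, y = z → ∀ u : E, bL β y u = bL β z u := by rintro _ _ rfl u; rfl
    exact (h5 _ _ (hy k).symm _).trans h1

end Pool.Agent.K4H64.Kt
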