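import Mathlib
import Pool.Agent.K4H64.Kt.Theta

/-! Closing an orbit segment with adapted seminorms. -/

open scoped Topology ContDiff Manifold NNReal
open Set Metric Bundle Filter Pool.Agent.Helper186 Pool.Agent.H826R2.Wein Pool.Agent.W671.WU
open Pool.Agent.R774.Root Pool.Agent.R774.Hyp Pool.Agent.K4H64.We

noncomputable section

namespace Pool.Agent.K4H64.Kt

set_option linter.unusedSectionVars false

universe u

variable {E : Type u} [NormedAddCommGroup E] [NormedSpace ℝ E] [FiniteDimensional ℝ E]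
  {P : Type*} [TopologicalSpace P] [ChartedSpace E P] [IsManifold 𝓘(ℝ, E) ∞ P]
  {F : Type*} [NormedAddCommGroup F] [NormedSpace ℝ F]
  {β : (x : P) → TangentSpace 𝓘(ℝ, E) x →L[ℝ] ℝ}
  {R : (x : P) → TangentSpace 𝓘(ℝ, E) x} {Fl : P → ℝ → P}

/-- adapted seminorms on the tangent space at `x₀` -/
structure SegData (β : (x : P) → TangentSpace 𝓘(ℝ, E) x →L[ℝ] ℝ)
    (R : (x : P) → TangentSpace 𝓘(ℝ, E) x) (g : P → P) (e : P → F) (lam q c₁ : ℝ) (x₀ : P) (m : ℕ)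
    (K : ℕ → ℝ≥0) (S U : ℕ → Seminorm ℝ E) : Prop where
  K1 : ∀ i ≤ m + 1, 1 ≤ (K i : ℝ)
  Kup : ∀ i ≤ m, (K (i + 1) : ℝ) ≤ q * K i
  Kdn : ∀ i ≤ m, (K i : ℝ) ≤ q * K (i + 1)
  Kend : K (m + 1) = K 0
  S1 : ∀ i ≤ m, ∀ v, S (i + 1) v ≤ lam * S i v
  U1 : ∀ i ≤ m, ∀ v, U i v ≤ lam * U (i + 1) v
  SR : ∀ i ≤ m + 1, S i (R x₀ : E) = 0
  UR : ∀ i ≤ m + 1, U i (R x₀ : E) = 0
  low : ∀ i ≤ m, ∀ v, ‖dvL e (g^[i] x₀) (dmL (g^[i]) x₀ v)‖ ≤
    c₁ * max (max (S i v) (U i v)) |bL β x₀ v|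
  upS : ∀ i ≤ m + 1, ∀ v, S i v ≤ K i * ‖dvL e (g^[i] x₀) (dmL (g^[i]) x₀ v)‖
  upU : ∀ i ≤ m + 1, ∀ v, U i v ≤ K i * ‖dvL e (g^[i] x₀) (dmL (g^[i]) x₀ v)‖

/-- the end of the segment is close to its start, in the chart at `a` -/
structure SegClose (β : (x : P) → TangentSpace 𝓘(ℝ, E) x →L[ℝ] ℝ)
    (g : P → P) (x₀ : P) (m : ℕ) (S U : ℕ → Seminorm ℝ E) (a : P) (η : ℝ) : Prop where
  pt : ‖extChartAt 𝓘(ℝ, E) a (g^[m + 1] x₀) - extChartAt 𝓘(ℝ, E) a x₀‖ ≤ η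
  S : ∀ w v', dmL (g^[m + 1]) x₀ v' = dsL a (extChartAt 𝓘(ℝ, E) a (g^[m + 1] x₀)) w →
    |S 0 (dsL a (extChartAt 𝓘(ℝ, E) a x₀) w) - S (m + 1) v'| ≤ η * ‖w‖
  U : ∀ w v', dmL (g^[m + 1]) x₀ v' = dsL a (extChartAt 𝓘(ℝ, E) a (g^[m + 1] x₀)) w →
    |U 0 (dsL a (extChartAt 𝓘(ℝ, E) a x₀) w) - U (m + 1) v'| ≤ η * ‖w‖
  b : ∀ w, |chartForm 𝓘(ℝ, E) β a (extChartAt 𝓘(ℝ, E) a x₀) w -
    chartForm 𝓘(ℝ, E) β a (extChartAt 𝓘(ℝ, E) a (g^[m + 1] x₀)) w| ≤ η * ‖w‖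

lemma semi_sub_smul (p : Seminorm ℝ E) {r : E} (hr : p r = 0) (v : E) (t : ℝ) :
    p (v - t • r) = p v := by
  have h1 : p (t • r) = 0 := by rw [map_smul_eq_mul, hr, mul_zero]
  apply le_antisymm
  · have := map_sub_le_add p v (t • r)
    linarith
  · have h2 : v = (v - t • r) + t • r := by abel
    have h3 := map_add_le_add p (v - t • r) (t • r)
    rw [← h2] at h3
    linarith

/-- the absolute value of a functional as a seminorm -/
def absS (l : E →L[ℝ] ℝ) : Seminorm ℝ E := (normSeminorm ℝ ℝ).comp (l : E →ₗ[ℝ] ℝ)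

lemma absS_apply (l : E →L[ℝ] ℝ) (v : E) : absS l v = |l v| := rfl

lemma bL_apply (x : P) (v : E) : bL β x v = β x v := rfl

lemma dsL_inj {a : P} {p z : E} (hp : p ∈ (extChartAt 𝓘(ℝ, E) a).target)
    (hz : dsL a p z = 0) : z = 0 := ds_inj hp hz

lemma dsL_surj {a : P} {p : E} (hp : p ∈ (extChartAt 𝓘(ℝ, E) a).target) (v : E) :
    ∃ z : E, dsL a p z = v := ds_surj hp v

lemma nn_smul_apply (k : ℝ≥0) (p : Seminorm ℝ E) (v : E) : (k • p) v = k * p v := rfl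

attribute [local irreducible] PE AE GE dmL dvL dsL bL

set_option maxHeartbeats 8000000 in
theorem seg_close [T2Space P] [CompactSpace P] (c : CD β R) (h : RF β R Fl) {g : P → P}
    (hg : St β g) {e : P → F} (he : ContMDiff 𝓘(ℝ, E) 𝓘(ℝ, F) ∞ e)
    {t : Finset P} {V : P → Set P}
    (hVs : ∀ a, V a ⊆ (extChartAt 𝓘(ℝ, E) a).source) (hVt : ∀ x, ∃ a ∈ t, x ∈ V a)
    {N : ℕ} (hUB : ∀ a ∈ t, ∀ b ∈ t, ∀ x, x ∈ V a → g x ∈ V b → UB β Fl g e a b x N)
    {lam q c₁ : ℝ} (hl0 : 0 ≤ lam) (hq1 : 1 ≤ q) (hlq : lam * q < 1) (hc₁ : 0 < c₁)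
    {η Kb : ℝ} (hη : 0 < η) (hKb : 1 ≤ Kb) :
    ∃ η' > 0, ∀ (x₀ : P) (m : ℕ) (K : ℕ → ℝ≥0) (S U : ℕ → Seminorm ℝ E),
      (K 0 : ℝ) = Kb → SegData β R g e lam q c₁ x₀ m K S U → ∀ a ∈ t, x₀ ∈ V a →
      g^[m + 1] x₀ ∈ V a → SegClose β g x₀ m S U a η' →
      ∃ y T, 0 < T ∧ Fl y T = y ∧ ‖e y - e x₀‖ < η := by
  choose ctr hctr hctrV using hVt
  -- the constants
  obtain ⟨N', hN'⟩ : ∃ N' : ℝ, N' = (N:ℝ) + 1 := ⟨_, rfl⟩
  have hN1 : 1 ≤ N' := by rw [hN']; linarith [Nat.cast_nonneg (α := ℝ) N]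
  have hNN : (N:ℝ) ≤ N' := by rw [hN']; linarith
  have hN0 : (0:ℝ) ≤ N := Nat.cast_nonneg _
  have hN'0 : 0 < N' := by linarith
  obtain ⟨c₃, hc₃⟩ : ∃ c₃, c₃ = N' * c₁ := ⟨_, rfl⟩
  have hc₃0 : 0 < c₃ := by rw [hc₃]; positivity
  obtain ⟨lq, hlqd⟩ : ∃ lq, lq = lam * q := ⟨_, rfl⟩
  have hq0 : 0 < q := by linarith
  have hlq0 : 0 ≤ lq := by rw [hlqd]; positivity
  have hlq1 : lq < 1 := by rw [hlqd]; exact hlq
  obtain ⟨D, hD⟩ : ∃ D, D = q + 1 / (1 - lq) := ⟨_, rfl⟩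
  have h1l : 0 < 1 / (1 - lq) := by
    have : 0 < 1 - lq := by linarith
    positivity
  have hD0 : 0 < D := by rw [hD]; positivity
  obtain ⟨Y, hY⟩ : ∃ Y, Y = 2 * q ^ 2 * N' ^ 2 * c₃ ^ 2 + N' ^ 3 * c₃ ^ 2 := ⟨_, rfl⟩
  have hY0 : 0 < Y := by rw [hY]; positivity
  -- the radius
  obtain ⟨r, hr0, hr1, hr2, hr3⟩ : ∃ r : ℝ, 0 < r ∧ c₃ * r ≤ 1 / N' ∧ 4 * D * (Y * r) ≤ 1 / 2 ∧
      N' * (c₃ * r) < η := by
    refine ⟨min (1 / (N' * c₃)) (min (1 / (8 * D * Y)) (η / (2 * N' * c₃))), ?_, ?_, ?_, ?_⟩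
    · exact lt_min (by positivity) (lt_min (by positivity) (by positivity))
    · have h1 : c₃ * min (1 / (N' * c₃)) (min (1 / (8 * D * Y)) (η / (2 * N' * c₃))) ≤
          c₃ * (1 / (N' * c₃)) := by gcongr; exact min_le_left _ _
      have h2 : c₃ * (1 / (N' * c₃)) = 1 / N' := by field_simp
      linarith
    · have h1 : 4 * D * (Y * min (1 / (N' * c₃)) (min (1 / (8 * D * Y)) (η / (2 * N' * c₃)))) ≤
          4 * D * (Y * (1 / (8 * D * Y))) := by
        gcongr; exact (min_le_right _ _).trans (min_le_left _ _)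
      have h2 : 4 * D * (Y * (1 / (8 * D * Y))) = 1 / 2 := by field_simp; norm_num
      linarith
    · have h1 : N' * (c₃ * min (1 / (N' * c₃)) (min (1 / (8 * D * Y)) (η / (2 * N' * c₃)))) ≤
          N' * (c₃ * (η / (2 * N' * c₃))) := by
        gcongr; exact (min_le_right _ _).trans (min_le_right _ _)
      have h2 : N' * (c₃ * (η / (2 * N' * c₃))) = η / 2 := by field_simp
      linarith
  -- the closeness
  obtain ⟨η', hη'0, hη'1, hη'2⟩ : ∃ η' : ℝ, 0 < η' ∧ D * (q * Kb * η' * N' * c₃) ≤ 1 / 2 ∧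
      8 * D * (Kb ^ 2 * N' * η') < r := by
    refine ⟨min (1 / (2 * D * (q * Kb * N' * c₃))) (r / (16 * D * (Kb ^ 2 * N'))), ?_, ?_, ?_⟩
    · exact lt_min (by positivity) (by positivity)
    · have h1 : D * (q * Kb * min (1 / (2 * D * (q * Kb * N' * c₃)))
          (r / (16 * D * (Kb ^ 2 * N'))) * N' * c₃) ≤
          D * (q * Kb * (1 / (2 * D * (q * Kb * N' * c₃))) * N' * c₃) := by
        gcongr; exact min_le_left _ _
      have h2 : D * (q * Kb * (1 / (2 * D * (q * Kb * N' * c₃))) * N' * c₃) = 1 / 2 := by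
        field_simp
      linarith
    · have h1 : 8 * D * (Kb ^ 2 * N' * min (1 / (2 * D * (q * Kb * N' * c₃)))
          (r / (16 * D * (Kb ^ 2 * N')))) ≤
          8 * D * (Kb ^ 2 * N' * (r / (16 * D * (Kb ^ 2 * N')))) := by
        gcongr; exact min_le_right _ _
      have h2 : 8 * D * (Kb ^ 2 * N' * (r / (16 * D * (Kb ^ 2 * N')))) = r / 2 := by
        field_simp; norm_num
      linarith
  refine ⟨η', hη'0, fun x₀ m K S U hK0 hseg a₀ ha₀ hx₀a hxma hcl => ?_⟩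
  -- the slots
  obtain ⟨σ, hσ⟩ : ∃ σ : Fin (m + 1) ≃ Fin (m + 1), σ = finRotate (m + 1) := ⟨_, rfl⟩
  obtain ⟨x, hx⟩ : ∃ x : Fin (m + 1) → P, ∀ i, x i = g^[(i : ℕ)] x₀ := ⟨_, fun _ => rfl⟩
  obtain ⟨a, ha⟩ : ∃ a : Fin (m + 1) → P, ∀ i, a i = if (i : ℕ) = 0 then a₀ else ctr (x i) :=
    ⟨_, fun _ => rfl⟩
  have hat : ∀ i, a i ∈ t := fun i => by
    rw [ha]; split_ifs
    · exact ha₀
    · exact hctr _
  have haV : ∀ i, x i ∈ V (a i) := fun i => by
    rw [ha]; split_ifs with h0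
    · rw [hx, h0]; exact hx₀a
    · exact hctrV _
  have hσn : ∀ i : Fin (m + 1), (i : ℕ) ≠ m → ((σ i : Fin (m + 1)) : ℕ) = (i : ℕ) + 1 := by
    intro i hi
    rw [hσ]
    apply coe_finRotate_of_ne_last
    intro h0
    apply hi
    rw [h0, Fin.val_last]
  have hσm : ∀ i : Fin (m + 1), (i : ℕ) = m → ((σ i : Fin (m + 1)) : ℕ) = 0 := by
    intro i hi
    have : i = Fin.last m := Fin.ext (by rw [hi, Fin.val_last])
    rw [hσ, this, finRotate_last]
    rfl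
  have hgV : ∀ i, g (x i) ∈ V (a (σ i)) := by
    intro i
    by_cases hi : (i : ℕ) = m
    · have h1 := hσm i hi
      have h2 : a (σ i) = a₀ := by rw [ha, if_pos h1]
      rw [h2, hx, hi, ← Function.iterate_succ_apply' g m x₀]
      exact hxma
    · have h1 := hσn i hi
      have h2 : g (x i) = x (σ i) := by
        rw [hx, hx, h1, Function.iterate_succ_apply' g (i : ℕ) x₀]
      rw [h2]
      exact haV _
  have hub : ∀ i, UB β Fl g e (a i) (a (σ i)) (x i) N := fun i =>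
    hUB _ (hat i) _ (hat _) _ (haV i) (hgV i)
  obtain ⟨p, hp⟩ : ∃ p : Fin (m + 1) → E, ∀ i, p i = extChartAt 𝓘(ℝ, E) (a i) (x i) :=
    ⟨_, fun _ => rfl⟩
  have hxs : ∀ i, x i ∈ (extChartAt 𝓘(ℝ, E) (a i)).source := fun i => hVs _ (haV i)
  have hpt : ∀ i, p i ∈ (extChartAt 𝓘(ℝ, E) (a i)).target := fun i => by
    rw [hp]; exact (extChartAt 𝓘(ℝ, E) (a i)).map_source (hxs i)
  have hit : ∀ n, St β (g^[n]) := St.iterate hg
  choose θ hθ using fun i : Fin (m + 1) => exists_theta c (hit i) x₀ (a i) (p i)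
  -- facts on `θ`
  have hiv : ∀ i : Fin (m + 1), (i : ℕ) ≤ m := fun i => Nat.lt_succ_iff.1 i.2
  have hiv1 : ∀ i : Fin (m + 1), (i : ℕ) ≤ m + 1 := fun i => (hiv i).trans (Nat.le_succ m)
  have hθs : ∀ i : Fin (m + 1), g^[(i : ℕ)] x₀ ∈ (extChartAt 𝓘(ℝ, E) (a i)).source := fun i => by
    rw [← hx]; exact hxs i
  have hθ' : ∀ (i : Fin (m + 1)) w, dmL (g^[(i : ℕ)]) x₀ (θ i w) =
      dsL (a i) (extChartAt 𝓘(ℝ, E) (a i) (g^[(i : ℕ)] x₀)) w := fun i w => by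
    rw [hθ, hp, hx]
  have hθR : ∀ i : Fin (m + 1), θ i (RF.Rc Fl (a i) (p i)) = R x₀ := fun i => by
    refine theta_R c h (hit i) (hθs i) ?_
    rw [hθ', hp, hx]
  have hθb : ∀ (i : Fin (m + 1)) w, bL β x₀ (θ i w) = chartForm 𝓘(ℝ, E) β (a i) (p i) w :=
    fun i w => by
      rw [theta_b (hit i) (hθs i) (hθ' i w), hp, hx]
  have hθe : ∀ (i : Fin (m + 1)) w, dvL e (g^[(i : ℕ)] x₀) (dmL (g^[(i : ℕ)]) x₀ (θ i w)) =
      fderiv ℝ (cf (a i) e) (p i) w := fun i w => by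
    rw [hθ', dvL_ds he (hθs i), hp, hx]
  -- the operators
  obtain ⟨A, hA⟩ : ∃ A : Fin (m + 1) → E →L[ℝ] E, ∀ i, A i = AE β Fl g (a i) (a (σ i)) (p i) :=
    ⟨_, fun _ => rfl⟩
  obtain ⟨Pr, hPr⟩ : ∃ Pr : Fin (m + 1) → E →L[ℝ] E, ∀ i, Pr i = PE β Fl (a i) (p i) :=
    ⟨_, fun _ => rfl⟩
  have hgp : ∀ i, g ((extChartAt 𝓘(ℝ, E) (a i)).symm (p i)) ∈
      (extChartAt 𝓘(ℝ, E) (a (σ i))).source := fun i => by
    rw [hp, (extChartAt 𝓘(ℝ, E) (a i)).left_inv (hxs i)]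
    exact hVs _ (hgV i)
  have hAd : ∀ i w, A i w = fderiv ℝ (ch2 (a i) (a (σ i)) g) (p i) w := fun i w => by
    rw [hA, AE_eq c h hg _ _ (hpt i) (hgp i)]
  have hAn : ∀ i w, ‖A i w‖ ≤ N' * ‖w‖ := fun i w => by
    rw [hAd]
    refine (ContinuousLinearMap.le_opNorm _ _).trans ?_
    have := (hub i).dg
    rw [← hp] at this
    have h2 := this.trans hNN
    gcongr
  -- seminorms
  obtain ⟨ns, hns⟩ : ∃ ns : Fin (m + 1) → Seminorm ℝ E, ∀ i, ns i = K i • (S i).comp (θ i) :=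
    ⟨_, fun _ => rfl⟩
  obtain ⟨nu, hnu⟩ : ∃ nu : Fin (m + 1) → Seminorm ℝ E, ∀ i, nu i = K i • (U i).comp (θ i) :=
    ⟨_, fun _ => rfl⟩
  obtain ⟨nb, hnb⟩ : ∃ nb : Fin (m + 1) → Seminorm ℝ E,
      ∀ i, nb i = K i • (absS (bL β x₀)).comp (θ i) := ⟨_, fun _ => rfl⟩
  have hnsa : ∀ i w, ns i w = K i * S i (θ i w) := fun i w => by rw [hns]; rfl
  have hnua : ∀ i w, nu i w = K i * U i (θ i w) := fun i w => by rw [hnu]; rfl
  have hnba : ∀ i w, nb i w = K i * |chartForm 𝓘(ℝ, E) β (a i) (p i) w| := fun i w => by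
    rw [hnb, ← hθb]; rfl
  have hKi1 : ∀ i : Fin (m + 1), 1 ≤ (K i : ℝ) := fun i => hseg.K1 i (hiv1 i)
  have hKi0 : ∀ i : Fin (m + 1), 0 < (K i : ℝ) := fun i => by linarith [hKi1 i]
  have hnma : ∀ i w, nm ns nu nb i w = K i * max (max (S i (θ i w)) (U i (θ i w)))
      |bL β x₀ (θ i w)| := fun i w => by
    rw [nm_apply, hnsa, hnua, hnba, hθb, mul_max_of_nonneg _ _ (hKi0 i).le,
      mul_max_of_nonneg _ _ (hKi0 i).le]
  -- lower bound
  have hlow : ∀ (i : Fin (m + 1)) w, K i * ‖w‖ ≤ c₃ * nm ns nu nb i w := fun i w => by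
    have h1 := hseg.low i (hiv i) (θ i w)
    rw [hθe] at h1
    have h2 := (hub i).dei w
    rw [← hp] at h2
    rw [hnma, hc₃]
    have h3 : ‖w‖ ≤ N' * (c₁ * max (max (S i (θ i w)) (U i (θ i w))) |bL β x₀ (θ i w)|) :=
      h2.trans (mul_le_mul hNN h1 (norm_nonneg _) hN'0.le)
    have h4 := mul_le_mul_of_nonneg_left h3 (hKi0 i).le
    linarith
  have hlow1 : ∀ i w, ‖w‖ ≤ c₃ * nm ns nu nb i w := fun i w => by
    have h1 := hlow i w
    have h2 := hKi1 i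
    have h3 := norm_nonneg w
    nlinarith
  have hn0 : ∀ i w, 0 ≤ nm ns nu nb i w := fun i w => apply_nonneg _ _
  have hdef : ∀ i w, nm ns nu nb i w = 0 → w = 0 := fun i w h0 => by
    have h1 := hlow1 i w
    rw [h0, mul_zero] at h1
    exact norm_le_zero_iff.1 h1
  -- upper bound
  have hup : ∀ i w, nm ns nu nb i w ≤ (K i : ℝ) ^ 2 * N' * ‖w‖ := fun i w => by
    have h1 := (hub i).de
    rw [← hp] at h1
    have h2 : ‖fderiv ℝ (cf (a i) e) (p i) w‖ ≤ N' * ‖w‖ :=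
      (ContinuousLinearMap.le_opNorm _ _).trans (by
        have := h1.trans hNN
        gcongr)
    have h3 := hseg.upS i (hiv1 i) (θ i w)
    have h4 := hseg.upU i (hiv1 i) (θ i w)
    rw [hθe] at h3 h4
    have h5 := (hub i).bb
    rw [← hp] at h5
    have h6 : |bL β x₀ (θ i w)| ≤ N' * ‖w‖ := by
      rw [hθb, ← Real.norm_eq_abs]
      exact (ContinuousLinearMap.le_opNorm _ _).trans (by
        have := h5.trans hNN
        gcongr)
    rw [hnma]
    have h7 : (K i : ℝ) * ‖fderiv ℝ (cf (a i) e) (p i) w‖ ≤ K i * (N' * ‖w‖) := by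
      gcongr
    have h8 : max (max (S i (θ i w)) (U i (θ i w))) |bL β x₀ (θ i w)| ≤
        K i * (N' * ‖w‖) := by
      refine max_le (max_le (h3.trans h7) (h4.trans h7)) (h6.trans ?_)
      have h9 := hKi1 i
      have h10 : 0 ≤ N' * ‖w‖ := by positivity
      nlinarith
    have h9 := mul_le_mul_of_nonneg_left h8 (hKi0 i).le
    calc (K i : ℝ) * max (max (S i (θ i w)) (U i (θ i w))) |bL β x₀ (θ i w)| ≤
        K i * (K i * (N' * ‖w‖)) := h9
      _ = _ := by ring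
  -- the scale changes slowly
  have hKs : ∀ i : Fin (m + 1), (K ((σ i : Fin (m + 1)) : ℕ) : ℝ) = K ((i : ℕ) + 1) := fun i => by
    by_cases hi : (i : ℕ) = m
    · rw [hσm i hi, ← hseg.Kend, hi]
    · rw [hσn i hi]
  have hKσ : ∀ i : Fin (m + 1), (K ((i : ℕ) + 1) : ℝ) ≤ q * K i := fun i => hseg.Kup i (hiv i)
  have hKσ' : ∀ i : Fin (m + 1), (K i : ℝ) ≤ q * K ((i : ℕ) + 1) := fun i => hseg.Kdn i (hiv i)
  -- the slot `0`
  have hθ0 : ∀ i : Fin (m + 1), (i : ℕ) = 0 → ∀ w, θ i w =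
      dsL a₀ (extChartAt 𝓘(ℝ, E) a₀ x₀) w := fun i hi w => by
    have h1 := hθ' i w
    have h2 : a i = a₀ := by rw [ha, if_pos hi]
    rw [h2] at h1
    have h3 : ∀ n : ℕ, n = 0 → dmL (g^[n]) x₀ (θ i w) =
        dsL a₀ (extChartAt 𝓘(ℝ, E) a₀ (g^[n] x₀)) w →
        θ i w = dsL a₀ (extChartAt 𝓘(ℝ, E) a₀ x₀) w := by
      rintro n rfl h4
      rw [dmL_zero] at h4
      exact h4
    exact h3 _ hi h1
  -- one step
  have hθn : ∀ i : Fin (m + 1), (i : ℕ) ≠ m → ∀ w, θ (σ i) (A i w) = θ i w := fun i hi w => by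
    apply dmL_inj c (hit ((i : ℕ) + 1)) x₀
    have h1 := hσn i hi
    have h2 : g^[(i : ℕ) + 1] x₀ ∈ (extChartAt 𝓘(ℝ, E) (a (σ i))).source := by
      rw [← h1]; exact hθs _
    have h3 := theta_step c h hg (hθs i) h2 (hθ' i w)
    rw [h3, ← h1, hθ', hA, hp, hx]
  have hθm : ∀ i : Fin (m + 1), (i : ℕ) = m → ∀ w, dmL (g^[m + 1]) x₀ (θ i w) =
      dsL a₀ (extChartAt 𝓘(ℝ, E) a₀ (g^[m + 1] x₀)) (A i w) := fun i hi w => by
    have h1 := hσm i hi
    have h2 : a (σ i) = a₀ := by rw [ha, if_pos h1]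
    have h3 := theta_step c h hg (b := a₀) (hθs i) (by rw [hi]; exact hVs _ hxma) (hθ' i w)
    rw [hA, h2, hp, hx, hi]
    rw [hi] at h3
    exact h3
  have hstS : ∀ (i : Fin (m + 1)) w, K ((i : ℕ) + 1) *
      |S ((σ i : Fin (m + 1)) : ℕ) (θ (σ i) (A i w)) - S ((i : ℕ) + 1) (θ i w)| ≤
        Kb * η' * N' * ‖w‖ := fun i w => by
    by_cases hi : (i : ℕ) = m
    · rw [hσm i hi, hθ0 _ (hσm i hi), hi, hseg.Kend, hK0]
      have h1 := hcl.S (A i w) (θ i w) (hθm i hi w)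
      have h2 : η' * ‖A i w‖ ≤ η' * (N' * ‖w‖) := by gcongr; exact hAn i w
      have h3 := mul_le_mul_of_nonneg_left (h1.trans h2) (by linarith : (0:ℝ) ≤ Kb)
      linarith
    · rw [hσn i hi, hθn i hi, sub_self, abs_zero, mul_zero]
      positivity
  have hstU : ∀ (i : Fin (m + 1)) w, K ((i : ℕ) + 1) *
      |U ((σ i : Fin (m + 1)) : ℕ) (θ (σ i) (A i w)) - U ((i : ℕ) + 1) (θ i w)| ≤
        Kb * η' * N' * ‖w‖ := fun i w => by
    by_cases hi : (i : ℕ) = m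
    · rw [hσm i hi, hθ0 _ (hσm i hi), hi, hseg.Kend, hK0]
      have h1 := hcl.U (A i w) (θ i w) (hθm i hi w)
      have h2 : η' * ‖A i w‖ ≤ η' * (N' * ‖w‖) := by gcongr; exact hAn i w
      have h3 := mul_le_mul_of_nonneg_left (h1.trans h2) (by linarith : (0:ℝ) ≤ Kb)
      linarith
    · rw [hσn i hi, hθn i hi, sub_self, abs_zero, mul_zero]
      positivity
  have hstb : ∀ (i : Fin (m + 1)) w, K ((i : ℕ) + 1) *
      |bL β x₀ (θ (σ i) (A i w)) - bL β x₀ (θ i w)| ≤ Kb * η' * N' * ‖w‖ := fun i w => by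
    by_cases hi : (i : ℕ) = m
    · have h0 : bL β x₀ (θ (σ i) (A i w)) = chartForm 𝓘(ℝ, E) β a₀
          (extChartAt 𝓘(ℝ, E) a₀ x₀) (A i w) := by
        rw [hθb, hp, ha, if_pos (hσm i hi)]
        have h4 : x (σ i) = x₀ := by rw [hx, hσm i hi]; rfl
        rw [h4]
      have h0' : bL β x₀ (θ i w) = chartForm 𝓘(ℝ, E) β a₀
          (extChartAt 𝓘(ℝ, E) a₀ (g^[m + 1] x₀)) (A i w) :=
        theta_b (hit (m + 1)) (hVs _ hxma) (hθm i hi w)
      rw [h0, h0', hi, hseg.Kend, hK0]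
      have h1 := hcl.b (A i w)
      have h2 : η' * ‖A i w‖ ≤ η' * (N' * ‖w‖) := by gcongr; exact hAn i w
      have h3 := mul_le_mul_of_nonneg_left (h1.trans h2) (by linarith : (0:ℝ) ≤ Kb)
      linarith
    · rw [hθn i hi, sub_self, abs_zero, mul_zero]
      positivity
  -- the hyperbolic system
  obtain ⟨η₁, hη₁⟩ : ∃ η₁, η₁ = q * Kb * η' * N' * c₃ := ⟨_, rfl⟩
  have hη₁0 : 0 ≤ η₁ := by rw [hη₁]; positivity
  have herr : ∀ (i : Fin (m + 1)) w, Kb * η' * N' * ‖w‖ ≤ Kb * η' * N' * c₃ *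
      nm ns nu nb i w := fun i w => by
    have h1 := hlow1 i w
    have h2 : Kb * η' * N' * ‖w‖ ≤ Kb * η' * N' * (c₃ * nm ns nu nb i w) := by gcongr
    linarith
  have hyps : Hyps σ A Pr ns nu nb lq q η₁ := by
    refine ⟨fun i w => ?_, fun i w => ?_, fun i w => ?_, fun i w => ?_, fun i w => ?_,
      fun i w => ?_⟩
    · show ns (σ i) (A i w) ≤ lq * ns i w + η₁ * nm ns nu nb i w
      have h1 := hstS i w
      have h2 := herr i w
      have h3 := hseg.S1 i (hiv i) (θ i w)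
      have h4 := le_abs_self (S ((σ i : Fin (m + 1)) : ℕ) (θ (σ i) (A i w)) -
        S ((i : ℕ) + 1) (θ i w))
      have hKp : (0:ℝ) ≤ K ((i : ℕ) + 1) := NNReal.coe_nonneg _
      have h5 := mul_le_mul_of_nonneg_left h4 hKp
      rw [hnsa, hnsa, hKs]
      have h6 : (K ((i : ℕ) + 1) : ℝ) * S ((i : ℕ) + 1) (θ i w) ≤
          (q * K i) * (lam * S i (θ i w)) :=
        mul_le_mul (hKσ i) h3 (apply_nonneg _ _) (by have := (hKi0 i).le; positivity)
      have h7 : Kb * η' * N' * c₃ * nm ns nu nb i w ≤ η₁ * nm ns nu nb i w := by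
        rw [hη₁]
        have : 0 ≤ Kb * η' * N' * c₃ * nm ns nu nb i w := by
          have := hn0 i w
          positivity
        nlinarith
      have h8 : (q * (K i : ℝ)) * (lam * S i (θ i w)) = lq * (K i * S i (θ i w)) := by
        rw [hlqd]; ring
      have h9 : (K ((i : ℕ) + 1) : ℝ) * (S ((σ i : Fin (m + 1)) : ℕ) (θ (σ i) (A i w)) -
        S ((i : ℕ) + 1) (θ i w)) = K ((i : ℕ) + 1) * S ((σ i : Fin (m + 1)) : ℕ)
          (θ (σ i) (A i w)) - K ((i : ℕ) + 1) * S ((i : ℕ) + 1) (θ i w) := by ring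
      linarith
    · show nu i w ≤ lq * nu (σ i) (A i w) + η₁ * nm ns nu nb i w
      have h1 := hstU i w
      have h2 := herr i w
      have h3 := hseg.U1 i (hiv i) (θ i w)
      have h4 := neg_abs_le (U ((σ i : Fin (m + 1)) : ℕ) (θ (σ i) (A i w)) -
        U ((i : ℕ) + 1) (θ i w))
      have hKp : (0:ℝ) ≤ K ((i : ℕ) + 1) := NNReal.coe_nonneg _
      have h5 := mul_le_mul_of_nonneg_left h4 hKp
      rw [hnua, hnua, hKs]
      have h6 : (K i : ℝ) * U i (θ i w) ≤ (q * K ((i : ℕ) + 1)) * (lam * U ((i : ℕ) + 1)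
          (θ i w)) :=
        mul_le_mul (hKσ' i) h3 (apply_nonneg _ _) (by positivity)
      have h9 : (K ((i : ℕ) + 1) : ℝ) * (U ((σ i : Fin (m + 1)) : ℕ) (θ (σ i) (A i w)) -
        U ((i : ℕ) + 1) (θ i w)) = K ((i : ℕ) + 1) * U ((σ i : Fin (m + 1)) : ℕ)
          (θ (σ i) (A i w)) - K ((i : ℕ) + 1) * U ((i : ℕ) + 1) (θ i w) := by ring
      have h10 : (K ((i : ℕ) + 1) : ℝ) * U ((i : ℕ) + 1) (θ i w) ≤
          K ((i : ℕ) + 1) * U ((σ i : Fin (m + 1)) : ℕ) (θ (σ i) (A i w)) +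
            Kb * η' * N' * c₃ * nm ns nu nb i w := by linarith
      have h11 := mul_le_mul_of_nonneg_left h10 hlq0
      have h12 : lq * (Kb * η' * N' * c₃ * nm ns nu nb i w) ≤ η₁ * nm ns nu nb i w := by
        rw [hη₁]
        have : 0 ≤ Kb * η' * N' * c₃ * nm ns nu nb i w := by
          have := hn0 i w
          positivity
        nlinarith
      have h8 : (q * (K ((i : ℕ) + 1) : ℝ)) * (lam * U ((i : ℕ) + 1) (θ i w)) =
          lq * (K ((i : ℕ) + 1) * U ((i : ℕ) + 1) (θ i w)) := by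
        rw [hlqd]; ring
      linarith
    · show nb i w ≤ q * nb (σ i) (A i w) + η₁ * nm ns nu nb i w
      have h1 := hstb i w
      have h2 := herr i w
      have h4 : |bL β x₀ (θ i w)| ≤ |bL β x₀ (θ (σ i) (A i w))| +
          |bL β x₀ (θ (σ i) (A i w)) - bL β x₀ (θ i w)| := by
        have := abs_sub_abs_le_abs_sub (bL β x₀ (θ i w)) (bL β x₀ (θ (σ i) (A i w)))
        rw [abs_sub_comm] at this
        linarith
      have hKp : (0:ℝ) ≤ K ((i : ℕ) + 1) := NNReal.coe_nonneg _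
      have h5 := mul_le_mul_of_nonneg_left h4 hKp
      rw [hnba, hnba, ← hθb, ← hθb, hKs]
      have h6 : (K i : ℝ) * |bL β x₀ (θ i w)| ≤ (q * K ((i : ℕ) + 1)) * |bL β x₀ (θ i w)| :=
        mul_le_mul_of_nonneg_right (hKσ' i) (abs_nonneg _)
      have h10 : (K ((i : ℕ) + 1) : ℝ) * |bL β x₀ (θ i w)| ≤
          K ((i : ℕ) + 1) * |bL β x₀ (θ (σ i) (A i w))| +
            Kb * η' * N' * c₃ * nm ns nu nb i w := by
        rw [mul_add] at h5
        linarith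
      have h11 := mul_le_mul_of_nonneg_left h10 hq0.le
      have h12 : q * (Kb * η' * N' * c₃ * nm ns nu nb i w) = η₁ * nm ns nu nb i w := by
        rw [hη₁]; ring
      linarith
    · rw [hnsa, hnsa, hPr, PE_apply, map_sub, map_smul, hθR,
        semi_sub_smul _ (hseg.SR i (hiv1 i))]
    · rw [hnua, hnua, hPr, PE_apply, map_sub, map_smul, hθR,
        semi_sub_smul _ (hseg.UR i (hiv1 i))]
    · rw [hnba, hPr, b_PE c h (a i) (hpt i), abs_zero, mul_zero]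
  have hD1 : D * η₁ ≤ 1 / 2 := by rw [hη₁]; exact hη'1
  -- norms of small vectors
  have hw1 : ∀ (i : Fin (m + 1)) w, nm ns nu nb i w ≤ r → K i * ‖w‖ ≤ c₃ * r := fun i w hw =>
    (hlow i w).trans (by gcongr)
  have hw2 : ∀ (i : Fin (m + 1)) w, nm ns nu nb i w ≤ r → ‖w‖ ≤ c₃ * r := fun i w hw =>
    (hlow1 i w).trans (by gcongr)
  have hw3 : ∀ (i : Fin (m + 1)) w, nm ns nu nb i w ≤ r → ‖w‖ ≤ 1 / ((N:ℝ) + 1) := fun i w hw => by
    rw [← hN']
    exact (hw2 i w hw).trans hr1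
  have hupσ : ∀ (i : Fin (m + 1)) w, nm ns nu nb (σ i) w ≤ (q * K i) ^ 2 * N' * ‖w‖ :=
    fun i w => by
      refine (hup (σ i) w).trans ?_
      have h1 := hKσ i
      rw [hKs]
      gcongr
  -- the solution
  obtain ⟨w, hwr, hw⟩ := cyc_solve (σ := σ) hyps hlq0 hlq1 hq1 hη₁0 (by rw [← hD]; exact hD1) hdef
    (Γ := fun i w => GE β Fl g (a i) (a (σ i)) (p i) w - p (σ i)) (η := Y * r) (r := r)
    (δ := Kb ^ 2 * N' * η') hr0 (by positivity)
    (by
      intro i w w' hw hw'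
      have h1 := (hub i).ge w w' (hw3 i w hw) (hw3 i w' hw')
      rw [← hp, ← hA] at h1
      have h8 : GE β Fl g (a i) (a (σ i)) (p i) w - p (σ i) -
          (GE β Fl g (a i) (a (σ i)) (p i) w' - p (σ i)) - A i (w - w') =
          GE β Fl g (a i) (a (σ i)) (p i) w - GE β Fl g (a i) (a (σ i)) (p i) w' -
            A i (w - w') := by abel
      rw [h8]
      refine (hupσ i _).trans ?_
      have h2 := hw1 i w hw
      have h3 := hw1 i w' hw'
      have h4 := hlow i (w - w')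
      have hKi := (hKi0 i).le
      calc (q * (K i : ℝ)) ^ 2 * N' * ‖GE β Fl g (a i) (a (σ i)) (p i) w -
              GE β Fl g (a i) (a (σ i)) (p i) w' - A i (w - w')‖
          ≤ (q * (K i : ℝ)) ^ 2 * N' * (N * (‖w‖ + ‖w'‖) * ‖w - w'‖) := by gcongr
        _ = (q ^ 2 * N' * N) * (K i * ‖w‖ + K i * ‖w'‖) * (K i * ‖w - w'‖) := by ring
        _ ≤ (q ^ 2 * N' * N') * (c₃ * r + c₃ * r) * (c₃ * nm ns nu nb i (w - w')) := by
            have := hn0 i (w - w')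
            gcongr
        _ = (2 * q ^ 2 * N' ^ 2 * c₃ ^ 2) * r * nm ns nu nb i (w - w') := by ring
        _ ≤ Y * r * nm ns nu nb i (w - w') := by
            have h5 : 2 * q ^ 2 * N' ^ 2 * c₃ ^ 2 ≤ Y := by
              rw [hY]
              have : 0 ≤ N' ^ 3 * c₃ ^ 2 := by positivity
              linarith
            have := hn0 i (w - w')
            gcongr)
    (by
      intro i
      have h8 : GE β Fl g (a i) (a (σ i)) (p i) 0 =
          extChartAt 𝓘(ℝ, E) (a (σ i)) (g (x i)) := by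
        unfold GE
        rw [map_zero, map_zero, add_zero, h.zero, hp,
          (extChartAt 𝓘(ℝ, E) (a i)).left_inv (hxs i)]
      rw [h8]
      by_cases hi : (i : ℕ) = m
      · have e1 : a (σ i) = a₀ := by rw [ha, if_pos (hσm i hi)]
        have e2 : x (σ i) = x₀ := by rw [hx, hσm i hi]; rfl
        have e3 : g (x i) = g^[m + 1] x₀ := by
          rw [hx, hi, ← Function.iterate_succ_apply' g m x₀]
        rw [hp, e1, e2, e3]
        refine (hup (σ i) _).trans ?_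
        rw [hσm i hi, hK0]
        have h9 := hcl.pt
        gcongr
      · have e3 : g (x i) = x (σ i) := by
          rw [hx, hx, hσn i hi, Function.iterate_succ_apply' g (i : ℕ) x₀]
        rw [e3, hp, sub_self, map_zero]
        positivity)
    (by positivity)
    (by
      rw [← hD]
      linarith)
    (by
      rw [← hD]
      linarith)
  -- the closed pseudo-orbit
  obtain ⟨y, hy⟩ : ∃ y : Fin (m + 1) → P, ∀ i, y i =
      (extChartAt 𝓘(ℝ, E) (a i)).symm (p i + Pr i (w i)) := ⟨_, fun _ => rfl⟩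
  obtain ⟨s, hs⟩ : ∃ s : Fin (m + 1) → ℝ, ∀ i, s i = chartForm 𝓘(ℝ, E) β (a i) (p i) (w i) :=
    ⟨_, fun _ => rfl⟩
  obtain ⟨p', hp'⟩ : ∃ p' : Fin (m + 1) → E, ∀ i, p' i = p i + Pr i (w i) := ⟨_, fun _ => rfl⟩
  have hw3' : ∀ i, ‖w i‖ ≤ 1 / ((N:ℝ) + 1) := fun i => hw3 i _ (hwr i)
  have hp't : ∀ i, p' i ∈ (extChartAt 𝓘(ℝ, E) (a i)).target := fun i => by
    have h1 := (hub i).tgt (w i) (hw3' i)
    rw [← hp, ← hPr, ← hp'] at h1
    exact h1
  have hyp' : ∀ i, extChartAt 𝓘(ℝ, E) (a i) (y i) = p' i := fun i => by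
    rw [hy, ← hp']
    exact (extChartAt 𝓘(ℝ, E) (a i)).right_inv (hp't i)
  have hys : ∀ i, y i ∈ (extChartAt 𝓘(ℝ, E) (a i)).source := fun i => by
    rw [hy, ← hp']
    exact (extChartAt 𝓘(ℝ, E) (a i)).map_target (hp't i)
  have hsrc : ∀ i, Fl (g (y i)) (s i) ∈ (extChartAt 𝓘(ℝ, E) (a (σ i))).source := fun i => by
    have h1 := (hub i).src (w i) (hw3' i)
    rw [← hp, ← hPr, ← hy, ← hs] at h1
    exact h1
  have hstep2 : ∀ i, Fl (g (y i)) (s i) = y (σ i) := by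
    intro i
    have h7 := hw i
    rw [sub_eq_iff_eq_add', ← hp'] at h7
    have h8 : GE β Fl g (a i) (a (σ i)) (p i) (w i) =
        extChartAt 𝓘(ℝ, E) (a (σ i)) (Fl (g (y i)) (s i)) := by
      rw [hy, hs, hPr]
      unfold GE
      rfl
    rw [h8] at h7
    rw [hy (σ i), ← hp', ← h7, (extChartAt 𝓘(ℝ, E) (a (σ i))).left_inv (hsrc i)]
  -- unroll
  obtain ⟨idx, hidx⟩ : ∃ idx : ℕ → Fin (m + 1), ∀ k, (idx k : ℕ) = k % (m + 1) :=
    ⟨fun k => ⟨k % (m + 1), Nat.mod_lt _ (Nat.succ_pos m)⟩, fun _ => rfl⟩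
  have hidxs : ∀ k, σ (idx k) = idx (k + 1) := by
    intro k
    rw [hσ, finRotate_apply]
    apply Fin.ext
    rw [Fin.val_add, hidx, hidx, Fin.val_one', ← Nat.add_mod]
  have hidx0 : idx 0 = 0 := Fin.ext (by rw [hidx]; simp)
  have hidxm : idx (m + 1) = 0 := Fin.ext (by rw [hidx]; simp)
  have hidxi : ∀ i : Fin (m + 1), idx (i : ℕ) = i := fun i =>
    Fin.ext (by rw [hidx]; exact Nat.mod_eq_of_lt i.2)
  have hyk : ∀ k, Fl (g (y (idx k))) (s (idx k)) = y (idx (k + 1)) := fun k => by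
    rw [hstep2, hidxs]
  obtain ⟨φ, hφ, hφ0, hφi⟩ := chain2 h hg (y := fun k => y (idx k)) (s := fun k => s (idx k))
    hyk (m + 1)
  simp only [hidx0, hidxm] at hφ0 hφi
  obtain ⟨T, hT, hyT⟩ := closed_of_fixed c h hφ hφ0 (by
    intro v hv hfix
    -- the orbit of the vector
    obtain ⟨W, hW⟩ : ∃ W : ℕ → E, ∀ k, W k = vit g Fl (fun k => y (idx k))
      (fun k => s (idx k)) v k := ⟨_, fun _ => rfl⟩
    have hWs : ∀ k, W (k + 1) = dmL (fun x => Fl (g x) (s (idx k))) (y (idx k)) (W k) :=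
      fun k => by rw [hW, hW]; rfl
    have hW0 : W 0 = v := by rw [hW]; rfl
    have hWm : W (m + 1) = v := by
      rw [hW, ← hφi v]
      exact (dmL_apply φ (y 0) v).trans hfix
    have hWb : ∀ k, bL β (y (idx k)) (W k) = 0 := fun k => by
      rw [hW]
      refine vit_ker h hg hyk ?_ k
      simp only [hidx0]
      exact (bL_apply (y 0) v).trans hv
    have hcW : ∀ i : Fin (m + 1), W ((σ i : Fin (m + 1)) : ℕ) = W ((i : ℕ) + 1) := fun i => by
      by_cases hi : (i : ℕ) = m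
      · rw [hσm i hi, hi, hWm, hW0]
      · rw [hσn i hi]
    -- chart vectors
    choose uu huu using fun i : Fin (m + 1) => dsL_surj (hp't i) (W (i : ℕ))
    have huu' : ∀ i : Fin (m + 1), dsL (a i) (extChartAt 𝓘(ℝ, E) (a i) (y i)) (uu i) =
        W (i : ℕ) := fun i => by
      rw [hyp']; exact huu i
    have hstg : ∀ i : Fin (m + 1), St β (fun x => Fl (g x) (s i)) := fun i =>
      hg.comp (St.flow h (s i))
    -- the transition of chart vectors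
    have htr : ∀ i : Fin (m + 1), fderiv ℝ (ch2 (a i) (a (σ i)) (fun x => Fl (g x) (s i)))
        (p' i) (uu i) = uu (σ i) := fun i => by
      have h1 := dmL_ds (φ := fun x => Fl (g x) (s i)) (hstg i).smooth (hys i) (hsrc i) (uu i)
      rw [huu', hyp', hstep2, hyp'] at h1
      have h2 : W ((σ i : Fin (m + 1)) : ℕ) = dmL (fun x => Fl (g x) (s i)) (y i) (W (i : ℕ)) := by
        rw [hcW, hWs, hidxi]
      have h3 : dsL (a (σ i)) (p' (σ i)) (uu (σ i)) = W ((σ i : Fin (m + 1)) : ℕ) := huu (σ i)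
      rw [h2, h1] at h3
      have h4 : dsL (a (σ i)) (p' (σ i)) (uu (σ i) - fderiv ℝ (ch2 (a i) (a (σ i))
          (fun x => Fl (g x) (s i))) (p' i) (uu i)) = 0 := by
        rw [map_sub, h3, sub_self]
      have h5 := dsL_inj (hp't (σ i)) h4
      exact (sub_eq_zero.1 h5).symm
    have hbu : ∀ i : Fin (m + 1), chartForm 𝓘(ℝ, E) β (a i) (p' i) (uu i) = 0 := fun i => by
      have h1 := hWb (i : ℕ)
      rw [hidxi] at h1
      have h2 := theta_b (β := β) (x := y i) (a := a i) (v := W (i : ℕ)) (w := uu i) (φ := fun x => x)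
        st_id (hys i) (by
          rw [huu']
          exact dmL_zero g (y i) (W (i : ℕ)))
      rw [h1, hyp'] at h2
      exact h2.symm
    have hu0 : uu = 0 := by
      refine cyc_unique (σ := σ) hyps hlq0 hlq1 hq1 hη₁0 (by rw [← hD]; exact hD1) hdef
        (η := Y * r) (w := uu) (fun i => ?_) (by positivity) (by rw [← hD]; linarith)
      -- the two errors
      have e1 : ‖A i (uu i) - uu (σ i)‖ ≤ N * ‖w i‖ * ‖uu i‖ := by
        have h1 := (hub i).dgl (w i) (hw3' i) (uu i)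
        rw [← hp, ← hPr, ← hp', ← hs, htr, ← hAd, norm_sub_rev] at h1
        exact h1
      have e2 : ‖uu (σ i) - Pr (σ i) (uu (σ i))‖ ≤ N' * (N * ‖w (σ i)‖ * ‖uu (σ i)‖) := by
        have h1 := (hub (σ i)).bl (w (σ i)) (hw3' (σ i)) (uu (σ i))
        rw [← hp, ← hPr, ← hp', hbu, zero_sub, abs_neg] at h1
        have h2 := (hub (σ i)).rr
        rw [← hp] at h2
        have h3 : uu (σ i) - Pr (σ i) (uu (σ i)) =
            chartForm 𝓘(ℝ, E) β (a (σ i)) (p (σ i)) (uu (σ i)) • RF.Rc Fl (a (σ i)) (p (σ i)) := by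
          rw [hPr, PE_apply]; abel
        rw [h3, norm_smul, Real.norm_eq_abs, mul_comm]
        exact mul_le_mul (h2.trans hNN) h1 (abs_nonneg _) hN'0.le
      have e3 : A i (uu i) - Pr (σ i) (uu (σ i)) =
          (A i (uu i) - uu (σ i)) + (uu (σ i) - Pr (σ i) (uu (σ i))) := by abel
      rw [e3]
      refine (map_add_le_add _ _ _).trans ?_
      have hKi := (hKi0 i).le
      have hKs0 := (hKi0 (σ i)).le
      have f1 : nm ns nu nb (σ i) (A i (uu i) - uu (σ i)) ≤ Y * r * nm ns nu nb i (uu i) := by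
        refine (hupσ i _).trans ?_
        have h2 := hw1 i (w i) (hwr i)
        have h4 := hlow i (uu i)
        calc (q * (K i : ℝ)) ^ 2 * N' * ‖A i (uu i) - uu (σ i)‖
            ≤ (q * (K i : ℝ)) ^ 2 * N' * (N * ‖w i‖ * ‖uu i‖) := by gcongr
          _ = (q ^ 2 * N' * N) * (K i * ‖w i‖) * (K i * ‖uu i‖) := by ring
          _ ≤ (q ^ 2 * N' * N') * (c₃ * r) * (c₃ * nm ns nu nb i (uu i)) := by
              have := hn0 i (uu i)
              gcongr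
          _ = (q ^ 2 * N' ^ 2 * c₃ ^ 2) * r * nm ns nu nb i (uu i) := by ring
          _ ≤ Y * r * nm ns nu nb i (uu i) := by
              have h5 : q ^ 2 * N' ^ 2 * c₃ ^ 2 ≤ Y := by
                rw [hY]
                have : 0 ≤ N' ^ 3 * c₃ ^ 2 := by positivity
                have : 0 ≤ q ^ 2 * N' ^ 2 * c₃ ^ 2 := by positivity
                linarith
              have := hn0 i (uu i)
              gcongr
      have f2 : nm ns nu nb (σ i) (uu (σ i) - Pr (σ i) (uu (σ i))) ≤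
          Y * r * nm ns nu nb (σ i) (uu (σ i)) := by
        refine (hup (σ i) _).trans ?_
        have h2 := hw1 (σ i) (w (σ i)) (hwr (σ i))
        have h4 := hlow (σ i) (uu (σ i))
        calc (K ((σ i : Fin (m + 1)) : ℕ) : ℝ) ^ 2 * N' * ‖uu (σ i) - Pr (σ i) (uu (σ i))‖
            ≤ (K ((σ i : Fin (m + 1)) : ℕ) : ℝ) ^ 2 * N' *
              (N' * (N * ‖w (σ i)‖ * ‖uu (σ i)‖)) := by gcongr
          _ = (N' * N' * N) * (K ((σ i : Fin (m + 1)) : ℕ) * ‖w (σ i)‖) *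
              (K ((σ i : Fin (m + 1)) : ℕ) * ‖uu (σ i)‖) := by ring
          _ ≤ (N' * N' * N') * (c₃ * r) * (c₃ * nm ns nu nb (σ i) (uu (σ i))) := by
              have := hn0 (σ i) (uu (σ i))
              gcongr
          _ = (N' ^ 3 * c₃ ^ 2) * r * nm ns nu nb (σ i) (uu (σ i)) := by ring
          _ ≤ Y * r * nm ns nu nb (σ i) (uu (σ i)) := by
              have h5 : N' ^ 3 * c₃ ^ 2 ≤ Y := by
                rw [hY]
                have : 0 ≤ 2 * q ^ 2 * N' ^ 2 * c₃ ^ 2 := by positivity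
                linarith
              have := hn0 (σ i) (uu (σ i))
              gcongr
      linarith
    have h6 : dsL (a 0) (p' 0) (uu 0) = W ((0 : Fin (m + 1)) : ℕ) := huu 0
    rw [hu0, Pi.zero_apply, map_zero] at h6
    rw [← hW0]
    exact h6.symm)
  refine ⟨y 0, T, hT, hyT, ?_⟩
  have h7 := (hub 0).el (w 0) (hw3' 0)
  rw [← hp, ← hPr, ← hy] at h7
  have h8 : x 0 = x₀ := by rw [hx]; rfl
  rw [h8] at h7
  have h9 := hw2 0 (w 0) (hwr 0)
  calc ‖e (y 0) - e x₀‖ ≤ N * ‖w 0‖ := h7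
    _ ≤ N' * (c₃ * r) := by gcongr
    _ < η := hr3

end Pool.Agent.K4H64.Kt
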