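import Mathlib
import Pool.Agent.K4H64.Kt.Seg

/-! Adapted seminorms along an orbit with a nonuniform exponential dichotomy. -/

open scoped Topology ContDiff Manifold NNReal
open Set Metric Bundle Filter Pool.Agent.Helper186 Pool.Agent.H826R2.Wein Pool.Agent.W671.WU
open Pool.Agent.R774.Root Pool.Agent.R774.Hyp Pool.Agent.K4H64.We

noncomputable section

namespace Pool.Agent.K4H64.Kt

set_option linter.unusedSectionVars false

universe u

variable {E : Type u} [NormedAddCommGroup E] [NormedSpace ℝ E] [FiniteDimensional ℝ E]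
  {P : Type*} [TopologicalSpace P] [ChartedSpace E P] [IsManifold 𝓘(ℝ, E) ∞ P]
  {F : Type*} [NormedAddCommGroup F] [NormedSpace ℝ F]
  {β : (x : P) → TangentSpace 𝓘(ℝ, E) x →L[ℝ] ℝ}
  {R : (x : P) → TangentSpace 𝓘(ℝ, E) x} {Fl : P → ℝ → P}

/-- the derivative of `e ∘ g^k` -/
def ob (g : P → P) (e : P → F) (x : P) (k : ℕ) : E →L[ℝ] F :=
  (dvL e (g^[k] x)).comp (dmL (g^[k]) x)

lemma ob_apply (g : P → P) (e : P → F) (x : P) (k : ℕ) (v : E) :
    ob g e x k v = dvL e (g^[k] x) (dmL (g^[k]) x v) := rfl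

lemma ob_zero (g : P → P) (e : P → F) (x : P) (v : E) : ob g e x 0 v = dvL e x v := by
  rw [ob_apply, dmL_zero]
  rfl

lemma ob_add {g : P → P} (hg : St β g) (e : P → F) (x : P) (k i : ℕ) (v : E) :
    ob g e x (k + i) v = ob g e (g^[i] x) k (dmL (g^[i]) x v) := by
  rw [ob_apply, ob_apply, dmL_add hg, Function.iterate_add_apply]

/-- the vector field `R` as an element of `E` -/
def rL (R : (x : P) → TangentSpace 𝓘(ℝ, E) x) (x : P) : E := R x

/-- the projection to the kernel of `β` along `R` -/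
def pi0 (β : (x : P) → TangentSpace 𝓘(ℝ, E) x →L[ℝ] ℝ)
    (R : (x : P) → TangentSpace 𝓘(ℝ, E) x) (x : P) : E →L[ℝ] E :=
  ContinuousLinearMap.id ℝ E - (bL β x).smulRight (rL R x)

lemma pi0_apply (x : P) (v : E) : pi0 β R x v = v - bL β x v • rL R x := rfl

lemma bL_R (c : CD β R) (x : P) : bL β x (rL R x) = 1 := c.reeb.unit x

lemma bL_pi0 (c : CD β R) (x : P) (v : E) : bL β x (pi0 β R x v) = 0 := by
  rw [pi0_apply, map_sub, map_smul, bL_R c, smul_eq_mul, mul_one, sub_self]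

lemma pi0_R (c : CD β R) (x : P) : pi0 β R x (rL R x) = 0 := by
  rw [pi0_apply, bL_R c, one_smul, sub_self]

/-- nonuniform exponential dichotomy on the kernel of `β` over `Λ` -/
structure Dich (β : (x : P) → TangentSpace 𝓘(ℝ, E) x →L[ℝ] ℝ) (g : P → P) (e : P → F)
    (Λ : Set P) (Pj : P → E →L[ℝ] E) (C : P → ℝ) (lam : ℝ≥0) : Prop where
  inv : ∀ x ∈ Λ, g x ∈ Λ
  b : ∀ x ∈ Λ, ∀ v, bL β x v = 0 → bL β x (Pj x v) = 0
  comm : ∀ x ∈ Λ, ∀ v, bL β x v = 0 → Pj (g x) (dmL g x v) = dmL g x (Pj x v)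
  s : ∀ x ∈ Λ, ∀ v, bL β x v = 0 → ∀ k, ‖ob g e x k (Pj x v)‖ ≤ C x * lam ^ k * ‖dvL e x v‖
  u : ∀ x ∈ Λ, ∀ v, bL β x v = 0 → ∀ k,
    ‖dvL e x (v - Pj x v)‖ ≤ C (g^[k] x) * lam ^ k * ‖ob g e x k v‖

/-- uniform constants -/
structure Cst (β : (x : P) → TangentSpace 𝓘(ℝ, E) x →L[ℝ] ℝ)
    (R : (x : P) → TangentSpace 𝓘(ℝ, E) x) (g : P → P) (e : P → F) (A N' : ℝ) : Prop where
  r : ∀ x, ‖dvL e x (rL R x)‖ ≤ N'
  b : ∀ (x : P) (v : E), |bL β x v| ≤ N' * ‖dvL e x v‖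
  up : ∀ (x : P) (v : E), ‖dvL e (g x) (dmL g x v)‖ ≤ A * ‖dvL e x v‖
  dn : ∀ (x : P) (v : E), ‖dvL e x v‖ ≤ A * ‖dvL e (g x) (dmL g x v)‖

section

variable {g : P → P} {e : P → F} {Λ : Set P} {Pj : P → E →L[ℝ] E} {C : P → ℝ} {lam : ℝ≥0}

lemma Dich.inv_iter (d : Dich β g e Λ Pj C lam) {x : P} (hx : x ∈ Λ) (k : ℕ) : g^[k] x ∈ Λ := by
  induction k with
  | zero => exact hx
  | succ k ih => rw [Function.iterate_succ_apply']; exact d.inv _ ih

lemma Dich.comm_iter (d : Dich β g e Λ Pj C lam) (hg : St β g) {x : P} (hx : x ∈ Λ) {v : E}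
    (hv : bL β x v = 0) (k : ℕ) :
    Pj (g^[k] x) (dmL (g^[k]) x v) = dmL (g^[k]) x (Pj x v) := by
  induction k with
  | zero => rw [dmL_zero, dmL_zero]; rfl
  | succ k ih =>
    rw [dmL_succ hg, dmL_succ hg, Function.iterate_succ_apply', ← ih]
    refine d.comm _ (d.inv_iter hx k) _ ?_
    rw [bL_strict (St.iterate hg k), hv]

/-- decay of the first component -/
lemma Dich.dec_s (d : Dich β g e Λ Pj C lam) (hg : St β g) {x : P} (hx : x ∈ Λ) {v : E}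
    (hv : bL β x v = 0) (k i : ℕ) :
    ‖ob g e x (k + i) (Pj x v)‖ ≤ C (g^[i] x) * lam ^ k * ‖ob g e x i v‖ := by
  have hb : bL β (g^[i] x) (dmL (g^[i]) x v) = 0 := by
    rw [bL_strict (St.iterate hg i), hv]
  have h1 := d.s _ (d.inv_iter hx i) _ hb k
  rw [d.comm_iter hg hx hv, ← ob_add hg] at h1
  exact h1

/-- decay of the second component -/
lemma Dich.dec_u (d : Dich β g e Λ Pj C lam) (hg : St β g) {x : P} (hx : x ∈ Λ) {v : E}
    (hv : bL β x v = 0) (k i : ℕ) :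
    ‖ob g e x i (v - Pj x v)‖ ≤ C (g^[k + i] x) * lam ^ k * ‖ob g e x (k + i) v‖ := by
  have hb : bL β (g^[i] x) (dmL (g^[i]) x v) = 0 := by
    rw [bL_strict (St.iterate hg i), hv]
  have h1 := d.u _ (d.inv_iter hx i) _ hb k
  rw [d.comm_iter hg hx hv, ← map_sub, ← ob_add hg, ← Function.iterate_add_apply] at h1
  rw [ob_apply]
  exact h1

/-- the seminorm of the first component -/
def aS (β : (x : P) → TangentSpace 𝓘(ℝ, E) x →L[ℝ] ℝ)
    (R : (x : P) → TangentSpace 𝓘(ℝ, E) x) (g : P → P) (e : P → F) (Pj : P → E →L[ℝ] E) (x : P)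
    (j : ℕ) : Seminorm ℝ E :=
  (normSeminorm ℝ F).comp (((ob g e x j).comp ((Pj x).comp (pi0 β R x)) : E →L[ℝ] F) : E →ₗ[ℝ] F)

/-- the seminorm of the second component -/
def bS (β : (x : P) → TangentSpace 𝓘(ℝ, E) x →L[ℝ] ℝ)
    (R : (x : P) → TangentSpace 𝓘(ℝ, E) x) (g : P → P) (e : P → F) (Pj : P → E →L[ℝ] E) (x : P)
    (j : ℕ) : Seminorm ℝ E :=
  (normSeminorm ℝ F).comp (((ob g e x j).comp (pi0 β R x - (Pj x).comp (pi0 β R x)) :
    E →L[ℝ] F) : E →ₗ[ℝ] F)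

lemma aS_apply (x : P) (j : ℕ) (v : E) :
    aS β R g e Pj x j v = ‖ob g e x j (Pj x (pi0 β R x v))‖ := rfl

lemma bS_apply (x : P) (j : ℕ) (v : E) :
    bS β R g e Pj x j v = ‖ob g e x j (pi0 β R x v - Pj x (pi0 β R x v))‖ := rfl

/-- the adapted seminorm of the first component -/
def So (β : (x : P) → TangentSpace 𝓘(ℝ, E) x →L[ℝ] ℝ)
    (R : (x : P) → TangentSpace 𝓘(ℝ, E) x) (g : P → P) (e : P → F) (Pj : P → E →L[ℝ] E)
    (lam : ℝ≥0) (x : P) (n i : ℕ) : Seminorm ℝ E :=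
  (Finset.Icc i n).sup (fun j => (lam⁻¹) ^ (j - i) • aS β R g e Pj x j)

/-- the adapted seminorm of the second component -/
def Uo (β : (x : P) → TangentSpace 𝓘(ℝ, E) x →L[ℝ] ℝ)
    (R : (x : P) → TangentSpace 𝓘(ℝ, E) x) (g : P → P) (e : P → F) (Pj : P → E →L[ℝ] E)
    (lam : ℝ≥0) (x : P) (i : ℕ) : Seminorm ℝ E :=
  (Finset.Icc 0 i).sup (fun j => (lam⁻¹) ^ (i - j) • bS β R g e Pj x j)

lemma le_So {x : P} {n i j : ℕ} (hij : i ≤ j) (hj : j ≤ n) (v : E) :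
    ((lam:ℝ)⁻¹) ^ (j - i) * aS β R g e Pj x j v ≤ So β R g e Pj lam x n i v := by
  have h1 := Seminorm.le_finset_sup_apply (p := fun j => (lam⁻¹) ^ (j - i) • aS β R g e Pj x j)
    (x := v) (Finset.mem_Icc.2 ⟨hij, hj⟩ : j ∈ Finset.Icc i n)
  rw [nn_smul_apply] at h1
  push_cast at h1
  exact h1

lemma So_le {x : P} {n i : ℕ} {v : E} {c : ℝ} (hc : 0 ≤ c)
    (h : ∀ j, i ≤ j → j ≤ n → ((lam:ℝ)⁻¹) ^ (j - i) * aS β R g e Pj x j v ≤ c) :
    So β R g e Pj lam x n i v ≤ c := by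
  refine Seminorm.finset_sup_apply_le (p := fun j => (lam⁻¹) ^ (j - i) • aS β R g e Pj x j)
    (x := v) hc fun j hj => ?_
  rw [Finset.mem_Icc] at hj
  rw [nn_smul_apply]
  push_cast
  exact h j hj.1 hj.2

lemma le_Uo {x : P} {i j : ℕ} (hij : j ≤ i) (v : E) :
    ((lam:ℝ)⁻¹) ^ (i - j) * bS β R g e Pj x j v ≤ Uo β R g e Pj lam x i v := by
  have h1 := Seminorm.le_finset_sup_apply (p := fun j => (lam⁻¹) ^ (i - j) • bS β R g e Pj x j)
    (x := v) (Finset.mem_Icc.2 ⟨Nat.zero_le _, hij⟩ : j ∈ Finset.Icc 0 i)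
  rw [nn_smul_apply] at h1
  push_cast at h1
  exact h1

lemma Uo_le {x : P} {i : ℕ} {v : E} {c : ℝ} (hc : 0 ≤ c)
    (h : ∀ j, j ≤ i → ((lam:ℝ)⁻¹) ^ (i - j) * bS β R g e Pj x j v ≤ c) :
    Uo β R g e Pj lam x i v ≤ c := by
  refine Seminorm.finset_sup_apply_le (p := fun j => (lam⁻¹) ^ (i - j) • bS β R g e Pj x j)
    (x := v) hc fun j hj => ?_
  rw [Finset.mem_Icc] at hj
  rw [nn_smul_apply]
  push_cast
  exact h j hj.2

variable {A N' : ℝ}

/-- everything about the orbit seminorms -/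
lemma So_step (hl : 0 < lam) {x : P} {n i : ℕ} (v : E) :
    So β R g e Pj lam x n (i + 1) v ≤ lam * So β R g e Pj lam x n i v := by
  have hl' : (0:ℝ) < lam := hl
  refine So_le (mul_nonneg hl'.le (apply_nonneg _ _)) fun j hij hj => ?_
  have h1 := le_So (β := β) (R := R) (g := g) (e := e) (Pj := Pj) (lam := lam) (x := x)
    (i := i) (j := j) (by omega) hj v
  have h2 : j - i = (j - (i + 1)) + 1 := by omega
  rw [h2, pow_succ] at h1
  have h3 := mul_le_mul_of_nonneg_left h1 hl'.le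
  refine le_trans (le_of_eq ?_) h3
  field_simp

lemma Uo_step (hl : 0 < lam) {x : P} {i : ℕ} (v : E) :
    Uo β R g e Pj lam x i v ≤ lam * Uo β R g e Pj lam x (i + 1) v := by
  have hl' : (0:ℝ) < lam := hl
  refine Uo_le (mul_nonneg hl'.le (apply_nonneg _ _)) fun j hj => ?_
  have h1 := le_Uo (β := β) (R := R) (g := g) (e := e) (Pj := Pj) (lam := lam) (x := x)
    (i := i + 1) (j := j) (by omega) v
  have h2 : i + 1 - j = (i - j) + 1 := by omega
  rw [h2, pow_succ] at h1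
  have h3 := mul_le_mul_of_nonneg_left h1 hl'.le
  refine le_trans (le_of_eq ?_) h3
  field_simp

lemma ob_up (cs : Cst β R g e A N') (hg : St β g) (x : P) (i : ℕ) (v : E) :
    ‖ob g e x (i + 1) v‖ ≤ A * ‖ob g e x i v‖ := by
  have h1 := cs.up (g^[i] x) (dmL (g^[i]) x v)
  have h2 : dvL e (g (g^[i] x)) (dmL g (g^[i] x) (dmL (g^[i]) x v)) = ob g e x (i + 1) v := by
    rw [← dmL_succ hg, ob_apply, Function.iterate_succ_apply']
  rw [h2] at h1
  exact h1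

lemma ob_dn (cs : Cst β R g e A N') (hg : St β g) (x : P) (i : ℕ) (v : E) :
    ‖ob g e x i v‖ ≤ A * ‖ob g e x (i + 1) v‖ := by
  have h1 := cs.dn (g^[i] x) (dmL (g^[i]) x v)
  have h2 : dvL e (g (g^[i] x)) (dmL g (g^[i] x) (dmL (g^[i]) x v)) = ob g e x (i + 1) v := by
    rw [← dmL_succ hg, ob_apply, Function.iterate_succ_apply']
  rw [h2] at h1
  exact h1

lemma So_ratio (cs : Cst β R g e A N') (hg : St β g) (hl : 0 < lam) (hA : (lam:ℝ)⁻¹ ≤ A)
    {x : P} {n i : ℕ} (hi : i + 1 ≤ n) (v : E) :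
    So β R g e Pj lam x n i v ≤ A * So β R g e Pj lam x n (i + 1) v := by
  have hl' : (0:ℝ) < lam := hl
  have hA0 : 0 < A := lt_of_lt_of_le (by positivity) hA
  refine So_le (mul_nonneg hA0.le (apply_nonneg _ _)) fun j hij hj => ?_
  rcases hij.eq_or_lt with h | h
  · subst h
    rw [Nat.sub_self, pow_zero, one_mul, aS_apply]
    have h1 := ob_dn cs hg x i (Pj x (pi0 β R x v))
    have h2 := le_So (β := β) (R := R) (g := g) (e := e) (Pj := Pj) (lam := lam) (x := x)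
      (i := i + 1) (j := i + 1) le_rfl hi v
    rw [Nat.sub_self, pow_zero, one_mul, aS_apply] at h2
    exact h1.trans (mul_le_mul_of_nonneg_left h2 hA0.le)
  · have h2 := le_So (β := β) (R := R) (g := g) (e := e) (Pj := Pj) (lam := lam) (x := x)
      (i := i + 1) (j := j) (by omega) hj v
    have h3 : j - i = (j - (i + 1)) + 1 := by omega
    rw [h3, pow_succ]
    have h4 : ((lam:ℝ)⁻¹ ^ (j - (i + 1)) * (lam:ℝ)⁻¹) * aS β R g e Pj x j v =
        (lam:ℝ)⁻¹ * ((lam:ℝ)⁻¹ ^ (j - (i + 1)) * aS β R g e Pj x j v) := by ring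
    rw [h4]
    exact mul_le_mul hA h2 (mul_nonneg (by positivity) (apply_nonneg _ _)) hA0.le

lemma Uo_ratio (cs : Cst β R g e A N') (hg : St β g) (hl : 0 < lam) (hA : (lam:ℝ)⁻¹ ≤ A)
    {x : P} {i : ℕ} (v : E) :
    Uo β R g e Pj lam x (i + 1) v ≤ A * Uo β R g e Pj lam x i v := by
  have hl' : (0:ℝ) < lam := hl
  have hA0 : 0 < A := lt_of_lt_of_le (by positivity) hA
  refine Uo_le (mul_nonneg hA0.le (apply_nonneg _ _)) fun j hj => ?_
  rcases hj.eq_or_lt with h | h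
  · subst h
    rw [Nat.sub_self, pow_zero, one_mul, bS_apply]
    have h1 := ob_up cs hg x i (pi0 β R x v - Pj x (pi0 β R x v))
    have h2 := le_Uo (β := β) (R := R) (g := g) (e := e) (Pj := Pj) (lam := lam) (x := x)
      (i := i) (j := i) le_rfl v
    rw [Nat.sub_self, pow_zero, one_mul, bS_apply] at h2
    exact h1.trans (mul_le_mul_of_nonneg_left h2 hA0.le)
  · have h2 := le_Uo (β := β) (R := R) (g := g) (e := e) (Pj := Pj) (lam := lam) (x := x)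
      (i := i) (j := j) (by omega) v
    have h3 : i + 1 - j = (i - j) + 1 := by omega
    rw [h3, pow_succ]
    have h4 : ((lam:ℝ)⁻¹ ^ (i - j) * (lam:ℝ)⁻¹) * bS β R g e Pj x j v =
        (lam:ℝ)⁻¹ * ((lam:ℝ)⁻¹ ^ (i - j) * bS β R g e Pj x j v) := by ring
    rw [h4]
    exact mul_le_mul hA h2 (mul_nonneg (by positivity) (apply_nonneg _ _)) hA0.le

lemma ob_pi0 (c : CD β R) (cs : Cst β R g e A N') (hg : St β g) (hN : 0 ≤ N') (x : P) (i : ℕ)
    (v : E) : ‖ob g e x i (pi0 β R x v)‖ ≤ (1 + N' * N') * ‖ob g e x i v‖ := by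
  have h1 : ob g e x i (pi0 β R x v) = ob g e x i v - bL β x v • ob g e x i (rL R x) := by
    rw [pi0_apply, map_sub, map_smul]
  have h2 : ob g e x i (rL R x) = dvL e (g^[i] x) (rL R (g^[i] x)) := by
    rw [ob_apply]
    congr 1
    exact (St.iterate hg i).push_R c x
  have h3 : |bL β x v| ≤ N' * ‖ob g e x i v‖ := by
    rw [← bL_strict (St.iterate hg i) x v]
    exact cs.b _ _
  have h4 := cs.r (g^[i] x)
  rw [h1, h2]
  refine (norm_sub_le _ _).trans ?_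
  rw [norm_smul, Real.norm_eq_abs]
  have h5 : |bL β x v| * ‖dvL e (g^[i] x) (rL R (g^[i] x))‖ ≤ (N' * ‖ob g e x i v‖) * N' :=
    mul_le_mul h3 h4 (norm_nonneg _) (by positivity)
  linarith

/-- the bound at a good time -/
lemma So_good (d : Dich β g e Λ Pj C lam) (c : CD β R) (cs : Cst β R g e A N') (hg : St β g)
    (hN : 0 ≤ N') (hl : 0 < lam) {x : P} (hx : x ∈ Λ) {n i : ℕ} {M₀ : ℝ} (hM : 0 ≤ M₀)
    (hi : C (g^[i] x) ≤ M₀) (v : E) :
    So β R g e Pj lam x n i v ≤ M₀ * (1 + N' * N') * ‖ob g e x i v‖ := by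
  have hl' : (0:ℝ) < lam := hl
  refine So_le (by positivity) fun j hij hj => ?_
  rw [aS_apply]
  obtain ⟨k, rfl⟩ : ∃ k, j = k + i := ⟨j - i, by omega⟩
  have h1 := d.dec_s hg hx (bL_pi0 c x v) k i
  have h2 := ob_pi0 c cs hg hN x i v
  rw [Nat.add_sub_cancel]
  have h3 : (lam:ℝ)⁻¹ ^ k * ‖ob g e x (k + i) (Pj x (pi0 β R x v))‖ ≤
      (lam:ℝ)⁻¹ ^ k * (C (g^[i] x) * lam ^ k * ‖ob g e x i (pi0 β R x v)‖) := by gcongr
  have h4 : (lam:ℝ)⁻¹ ^ k * (C (g^[i] x) * lam ^ k * ‖ob g e x i (pi0 β R x v)‖) =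
      C (g^[i] x) * ‖ob g e x i (pi0 β R x v)‖ := by
    rw [inv_pow]; field_simp
  rw [h4] at h3
  refine h3.trans ?_
  calc C (g^[i] x) * ‖ob g e x i (pi0 β R x v)‖ ≤ M₀ * ‖ob g e x i (pi0 β R x v)‖ := by gcongr
    _ ≤ M₀ * ((1 + N' * N') * ‖ob g e x i v‖) := by gcongr
    _ = _ := by ring

lemma Uo_good (d : Dich β g e Λ Pj C lam) (c : CD β R) (cs : Cst β R g e A N') (hg : St β g)
    (hN : 0 ≤ N') (hl : 0 < lam) {x : P} (hx : x ∈ Λ) {i : ℕ} {M₀ : ℝ} (hM : 0 ≤ M₀)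
    (hi : C (g^[i] x) ≤ M₀) (v : E) :
    Uo β R g e Pj lam x i v ≤ M₀ * (1 + N' * N') * ‖ob g e x i v‖ := by
  have hl' : (0:ℝ) < lam := hl
  refine Uo_le (by positivity) fun j hj => ?_
  rw [bS_apply]
  obtain ⟨k, rfl⟩ : ∃ k, i = k + j := ⟨i - j, by omega⟩
  have h1 := d.dec_u hg hx (bL_pi0 c x v) k j
  have h2 := ob_pi0 c cs hg hN x (k + j) v
  rw [Nat.add_sub_cancel]
  have h3 : (lam:ℝ)⁻¹ ^ k * ‖ob g e x j (pi0 β R x v - Pj x (pi0 β R x v))‖ ≤
      (lam:ℝ)⁻¹ ^ k * (C (g^[k + j] x) * lam ^ k * ‖ob g e x (k + j) (pi0 β R x v)‖) := by gcongr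
  have h4 : (lam:ℝ)⁻¹ ^ k * (C (g^[k + j] x) * lam ^ k * ‖ob g e x (k + j) (pi0 β R x v)‖) =
      C (g^[k + j] x) * ‖ob g e x (k + j) (pi0 β R x v)‖ := by
    rw [inv_pow]; field_simp
  rw [h4] at h3
  refine h3.trans ?_
  calc C (g^[k + j] x) * ‖ob g e x (k + j) (pi0 β R x v)‖ ≤
        M₀ * ‖ob g e x (k + j) (pi0 β R x v)‖ := by gcongr
    _ ≤ M₀ * ((1 + N' * N') * ‖ob g e x (k + j) v‖) := by gcongr
    _ = _ := by ring

/-- lower bound -/
lemma ob_low (c : CD β R) (cs : Cst β R g e A N') (hg : St β g) {x : P} {n i : ℕ} (hi : i ≤ n)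
    (v : E) : ‖ob g e x i v‖ ≤ (2 + N') * max (max (So β R g e Pj lam x n i v)
      (Uo β R g e Pj lam x i v)) |bL β x v| := by
  have h1 : v = Pj x (pi0 β R x v) + (pi0 β R x v - Pj x (pi0 β R x v)) +
      bL β x v • rL R x := by
    rw [pi0_apply]; abel
  have h2 : ob g e x i (rL R x) = dvL e (g^[i] x) (rL R (g^[i] x)) := by
    rw [ob_apply]
    congr 1
    exact (St.iterate hg i).push_R c x
  have h3 := le_So (β := β) (R := R) (g := g) (e := e) (Pj := Pj) (lam := lam) (x := x)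
    (i := i) (j := i) le_rfl hi v
  rw [Nat.sub_self, pow_zero, one_mul, aS_apply] at h3
  have h4 := le_Uo (β := β) (R := R) (g := g) (e := e) (Pj := Pj) (lam := lam) (x := x)
    (i := i) (j := i) le_rfl v
  rw [Nat.sub_self, pow_zero, one_mul, bS_apply] at h4
  have h5 : ‖ob g e x i v‖ ≤ ‖ob g e x i (Pj x (pi0 β R x v))‖ +
      ‖ob g e x i (pi0 β R x v - Pj x (pi0 β R x v))‖ + |bL β x v| * N' := by
    conv_lhs => rw [h1]
    rw [map_add, map_add, map_smul, h2]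
    refine (norm_add_le _ _).trans ?_
    rw [norm_smul, Real.norm_eq_abs]
    have h6 := cs.r (g^[i] x)
    have h7 := norm_add_le (ob g e x i (Pj x (pi0 β R x v)))
      (ob g e x i (pi0 β R x v - Pj x (pi0 β R x v)))
    have h8 := mul_le_mul_of_nonneg_left h6 (abs_nonneg (bL β x v))
    linarith
  obtain ⟨m, hm⟩ : ∃ m, m = max (max (So β R g e Pj lam x n i v)
      (Uo β R g e Pj lam x i v)) |bL β x v| := ⟨_, rfl⟩
  have m1 : So β R g e Pj lam x n i v ≤ m := by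
    rw [hm]; exact (le_max_left _ _).trans (le_max_left _ _)
  have m2 : Uo β R g e Pj lam x i v ≤ m := by
    rw [hm]; exact (le_max_right _ _).trans (le_max_left _ _)
  have m3 : |bL β x v| ≤ m := by rw [hm]; exact le_max_right _ _
  have hN : 0 ≤ N' := (norm_nonneg _).trans (cs.r x)
  rw [← hm]
  have h9 := mul_le_mul_of_nonneg_right m3 hN
  linarith

lemma So_R (c : CD β R) {x : P} {n i : ℕ} : So β R g e Pj lam x n i (rL R x) = 0 := by
  refine le_antisymm (So_le le_rfl fun j _ _ => ?_) (apply_nonneg _ _)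
  rw [aS_apply, pi0_R c, map_zero, map_zero, norm_zero, mul_zero]

lemma Uo_R (c : CD β R) {x : P} {i : ℕ} : Uo β R g e Pj lam x i (rL R x) = 0 := by
  refine le_antisymm (Uo_le le_rfl fun j _ => ?_) (apply_nonneg _ _)
  rw [bS_apply, pi0_R c, map_zero, sub_zero, map_zero, norm_zero, mul_zero]

end

end Pool.Agent.K4H64.Kt
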