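import Mathlib
import Pool.Agent.K4H64.Kt.Orb

/-! The data of a segment of an orbit. -/

open scoped Topology ContDiff Manifold NNReal
open Set Metric Bundle Filter Pool.Agent.Helper186 Pool.Agent.H826R2.Wein Pool.Agent.W671.WU
open Pool.Agent.R774.Root Pool.Agent.R774.Hyp Pool.Agent.K4H64.We

noncomputable section

namespace Pool.Agent.K4H64.Kt

set_option linter.unusedSectionVars false

universe u

variable {E : Type u} [NormedAddCommGroup E] [NormedSpace ℝ E] [FiniteDimensional ℝ E]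
  {P : Type*} [TopologicalSpace P] [ChartedSpace E P] [IsManifold 𝓘(ℝ, E) ∞ P]
  {F : Type*} [NormedAddCommGroup F] [NormedSpace ℝ F]
  {β : (x : P) → TangentSpace 𝓘(ℝ, E) x →L[ℝ] ℝ}
  {R : (x : P) → TangentSpace 𝓘(ℝ, E) x} {Fl : P → ℝ → P}
  {g : P → P} {e : P → F} {Λ : Set P} {Pj : P → E →L[ℝ] E} {C : P → ℝ} {lam : ℝ≥0} {A N' : ℝ}

lemma So_chain (cs : Cst β R g e A N') (hg : St β g) (hl : 0 < lam) (hA : (lam:ℝ)⁻¹ ≤ A)
    {x : P} {n i : ℕ} (v : E) (l : ℕ) (hi : i + l ≤ n) :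
    So β R g e Pj lam x n i v ≤ A ^ l * So β R g e Pj lam x n (i + l) v := by
  have hl' : (0:ℝ) < lam := hl
  have hA0 : 0 < A := lt_of_lt_of_le (by positivity) hA
  induction l with
  | zero => simp
  | succ l ih =>
    have h1 := ih (by omega)
    have h2 := So_ratio (Pj := Pj) cs hg hl hA (x := x) (n := n) (i := i + l) (by omega) v
    calc So β R g e Pj lam x n i v ≤ A ^ l * So β R g e Pj lam x n (i + l) v := h1
      _ ≤ A ^ l * (A * So β R g e Pj lam x n (i + l + 1) v) := by gcongr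
      _ = A ^ (l + 1) * So β R g e Pj lam x n (i + (l + 1)) v := by
        rw [pow_succ, mul_assoc]; rfl

lemma Uo_chain (cs : Cst β R g e A N') (hg : St β g) (hl : 0 < lam) (hA : (lam:ℝ)⁻¹ ≤ A)
    {x : P} {i : ℕ} (v : E) (l : ℕ) :
    Uo β R g e Pj lam x (i + l) v ≤ A ^ l * Uo β R g e Pj lam x i v := by
  have hl' : (0:ℝ) < lam := hl
  have hA0 : 0 < A := lt_of_lt_of_le (by positivity) hA
  induction l with
  | zero => simp
  | succ l ih =>
    have h2 := Uo_ratio (Pj := Pj) cs hg hl hA (x := x) (i := i + l) v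
    calc Uo β R g e Pj lam x (i + (l + 1)) v ≤ A * Uo β R g e Pj lam x (i + l) v := h2
      _ ≤ A * (A ^ l * Uo β R g e Pj lam x i v) := by gcongr
      _ = A ^ (l + 1) * Uo β R g e Pj lam x i v := by rw [pow_succ]; ring

lemma So_anti (hl : 0 < lam) (hl1 : lam ≤ 1) {x : P} {n i : ℕ} (v : E) (l : ℕ) :
    So β R g e Pj lam x n (i + l) v ≤ So β R g e Pj lam x n i v := by
  induction l with
  | zero => simp
  | succ l ih =>
    have h1 := So_step (β := β) (R := R) (g := g) (e := e) (Pj := Pj) hl (x := x) (n := n)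
      (i := i + l) v
    have h2 : (lam:ℝ) ≤ 1 := hl1
    have h3 := apply_nonneg (So β R g e Pj lam x n (i + l)) v
    have h4 : (lam:ℝ) * So β R g e Pj lam x n (i + l) v ≤ So β R g e Pj lam x n (i + l) v := by
      nlinarith
    exact (h1.trans h4).trans ih

lemma Uo_mono (hl : 0 < lam) (hl1 : lam ≤ 1) {x : P} {i : ℕ} (v : E) (l : ℕ) :
    Uo β R g e Pj lam x i v ≤ Uo β R g e Pj lam x (i + l) v := by
  induction l with
  | zero => simp
  | succ l ih =>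
    have h1 := Uo_step (β := β) (R := R) (g := g) (e := e) (Pj := Pj) hl (x := x)
      (i := i + l) v
    have h2 : (lam:ℝ) ≤ 1 := hl1
    have h3 := apply_nonneg (Uo β R g e Pj lam x (i + l + 1)) v
    have h4 : (lam:ℝ) * Uo β R g e Pj lam x (i + l + 1) v ≤
        Uo β R g e Pj lam x (i + l + 1) v := by nlinarith
    exact ih.trans (h1.trans h4)

lemma ob_up_chain (cs : Cst β R g e A N') (hg : St β g) (hA : 0 ≤ A) (x : P) (i : ℕ) (v : E)
    (l : ℕ) : ‖ob g e x (i + l) v‖ ≤ A ^ l * ‖ob g e x i v‖ := by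
  induction l with
  | zero => simp
  | succ l ih =>
    have h2 := ob_up cs hg x (i + l) v
    calc ‖ob g e x (i + (l + 1)) v‖ ≤ A * ‖ob g e x (i + l) v‖ := h2
      _ ≤ A * (A ^ l * ‖ob g e x i v‖) := by gcongr
      _ = A ^ (l + 1) * ‖ob g e x i v‖ := by rw [pow_succ]; ring

lemma ob_dn_chain (cs : Cst β R g e A N') (hg : St β g) (hA : 0 ≤ A) (x : P) (i : ℕ) (v : E)
    (l : ℕ) : ‖ob g e x i v‖ ≤ A ^ l * ‖ob g e x (i + l) v‖ := by
  induction l with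
  | zero => simp
  | succ l ih =>
    have h2 := ob_dn cs hg x (i + l) v
    calc ‖ob g e x i v‖ ≤ A ^ l * ‖ob g e x (i + l) v‖ := ih
      _ ≤ A ^ l * (A * ‖ob g e x (i + l + 1) v‖) := by gcongr
      _ = A ^ (l + 1) * ‖ob g e x (i + (l + 1)) v‖ := by rw [pow_succ, mul_assoc]; rfl

/-- the bound near a good time -/
lemma SU_near (d : Dich β g e Λ Pj C lam) (c : CD β R) (cs : Cst β R g e A N') (hg : St β g)
    (hN : 0 ≤ N') (hl : 0 < lam) (hl1 : lam ≤ 1) (hA : (lam:ℝ)⁻¹ ≤ A) {x : P} (hx : x ∈ Λ)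
    {n i j l : ℕ} {M₀ : ℝ} (hM : 0 ≤ M₀) (hj : C (g^[j] x) ≤ M₀) (hin : i ≤ n) (hjn : j ≤ n)
    (h1 : i ≤ j + l) (h2 : j ≤ i + l) (v : E) :
    So β R g e Pj lam x n i v ≤ M₀ * (1 + N' * N') * (A ^ 2) ^ l * ‖ob g e x i v‖ ∧
    Uo β R g e Pj lam x i v ≤ M₀ * (1 + N' * N') * (A ^ 2) ^ l * ‖ob g e x i v‖ := by
  have hl' : (0:ℝ) < lam := hl
  have hl1' : (lam:ℝ) ≤ 1 := hl1
  have hA1 : 1 ≤ A := by
    refine le_trans ?_ hA
    rw [one_le_inv₀ hl']
    exact hl1'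
  have hA0 : 0 < A := by linarith
  obtain ⟨k, hkl, hk⟩ : ∃ k ≤ l, j = i + k ∨ i = j + k := by
    rcases le_total i j with h | h
    · exact ⟨j - i, by omega, Or.inl (by omega)⟩
    · exact ⟨i - j, by omega, Or.inr (by omega)⟩
  have hgS := So_good (n := n) d c cs hg hN hl hx hM hj v
  have hgU := Uo_good d c cs hg hN hl hx hM hj v
  obtain ⟨Mc, hMc⟩ : ∃ Mc, Mc = M₀ * (1 + N' * N') := ⟨_, rfl⟩
  have hMc0 : 0 ≤ Mc := by rw [hMc]; positivity
  rw [← hMc] at hgS hgU ⊢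
  have hpow : A ^ k * A ^ k ≤ (A ^ 2) ^ l := by
    rw [← pow_mul, ← pow_add]
    exact pow_le_pow_right₀ hA1 (by omega)
  have hpow1 : A ^ k ≤ (A ^ 2) ^ l := by
    rw [← pow_mul]
    exact pow_le_pow_right₀ hA1 (by omega)
  have hob0 : 0 ≤ ‖ob g e x i v‖ := norm_nonneg _
  rcases hk with rfl | rfl
  · have e1 := So_chain (Pj := Pj) cs hg hl hA (x := x) (n := n) v k hjn
    have e2 := Uo_mono (β := β) (R := R) (g := g) (e := e) (Pj := Pj) hl hl1 (x := x)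
      (i := i) v k
    have e3 := ob_up_chain cs hg hA0.le x i v k
    constructor
    · calc So β R g e Pj lam x n i v ≤ A ^ k * So β R g e Pj lam x n (i + k) v := e1
        _ ≤ A ^ k * (Mc * ‖ob g e x (i + k) v‖) := by gcongr
        _ ≤ A ^ k * (Mc * (A ^ k * ‖ob g e x i v‖)) := by gcongr
        _ = Mc * (A ^ k * A ^ k) * ‖ob g e x i v‖ := by ring
        _ ≤ Mc * (A ^ 2) ^ l * ‖ob g e x i v‖ := by gcongr
    · calc Uo β R g e Pj lam x i v ≤ Uo β R g e Pj lam x (i + k) v := e2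
        _ ≤ Mc * ‖ob g e x (i + k) v‖ := hgU
        _ ≤ Mc * (A ^ k * ‖ob g e x i v‖) := by gcongr
        _ = Mc * A ^ k * ‖ob g e x i v‖ := by ring
        _ ≤ Mc * (A ^ 2) ^ l * ‖ob g e x i v‖ := by gcongr
  · have e1 := Uo_chain (Pj := Pj) cs hg hl hA (x := x) (i := j) v k
    have e2 := So_anti (β := β) (R := R) (g := g) (e := e) (Pj := Pj) hl hl1 (x := x) (n := n)
      (i := j) v k
    have e3 := ob_dn_chain cs hg hA0.le x j v k
    constructor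
    · calc So β R g e Pj lam x n (j + k) v ≤ So β R g e Pj lam x n j v := e2
        _ ≤ Mc * ‖ob g e x j v‖ := hgS
        _ ≤ Mc * (A ^ k * ‖ob g e x (j + k) v‖) := by gcongr
        _ = Mc * A ^ k * ‖ob g e x (j + k) v‖ := by ring
        _ ≤ Mc * (A ^ 2) ^ l * ‖ob g e x (j + k) v‖ := by gcongr
    · calc Uo β R g e Pj lam x (j + k) v ≤ A ^ k * Uo β R g e Pj lam x j v := e1
        _ ≤ A ^ k * (Mc * ‖ob g e x j v‖) := by gcongr
        _ ≤ A ^ k * (Mc * (A ^ k * ‖ob g e x (j + k) v‖)) := by gcongr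
        _ = Mc * (A ^ k * A ^ k) * ‖ob g e x (j + k) v‖ := by ring
        _ ≤ Mc * (A ^ 2) ^ l * ‖ob g e x (j + k) v‖ := by gcongr

lemma exists_G (c : CD β R) {φ : P → P} (hφ : St β φ) (x : P) :
    ∃ G : E ≃ₗ[ℝ] E, ∀ v, G v = dmL φ x v := by
  have hinj : Function.Injective ((dmL φ x : E →L[ℝ] E) : E →ₗ[ℝ] E) := dmL_inj c hφ x
  exact ⟨LinearEquiv.ofInjectiveEndo ((dmL φ x : E →L[ℝ] E) : E →ₗ[ℝ] E) hinj, fun v => rfl⟩

/-- the scales on a segment -/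
def Ks (M q : ℝ≥0) (m i : ℕ) : ℝ≥0 := M * q ^ (min i (m + 1 - i) + 1)

theorem segData_of (d : Dich β g e Λ Pj C lam) (c : CD β R) (cs : Cst β R g e A N')
    (hg : St β g) (hN : 0 ≤ N') (hl : 0 < lam) (hl1 : lam ≤ 1) (hA : (lam:ℝ)⁻¹ ≤ A)
    {x : P} (hx : x ∈ Λ) {M₀ : ℝ} (hM₀ : 0 ≤ M₀) {M q : ℝ≥0} (hM : M₀ * (1 + N' * N') ≤ M)
    (hM1 : 1 ≤ M) (hq : 1 ≤ q) {n₀ : ℕ} (hq2 : A ^ 2 ≤ (q:ℝ) ^ n₀)
    {n i₀ m : ℕ} (hn : i₀ + (m + 1) ≤ n)
    (hgood : ∀ i ≤ m + 1, ∃ j l, j ≤ n ∧ C (g^[j] x) ≤ M₀ ∧ i₀ + i ≤ j + l ∧ j ≤ i₀ + i + l ∧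
      n₀ * l ≤ min i (m + 1 - i) + 1)
    {G : E ≃ₗ[ℝ] E} (hG : ∀ v, G v = dmL (g^[i₀]) x v) :
    SegData β R g e lam q (2 + N') (g^[i₀] x) m (Ks M q m)
      (fun i => (So β R g e Pj lam x n (i₀ + i)).comp (G.symm : E →ₗ[ℝ] E))
      (fun i => (Uo β R g e Pj lam x (i₀ + i)).comp (G.symm : E →ₗ[ℝ] E)) := by
  have hq' : (1:ℝ) ≤ q := hq
  have hM1' : (1:ℝ) ≤ M := hM1
  have hob : ∀ i v, dvL e (g^[i] (g^[i₀] x)) (dmL (g^[i]) (g^[i₀] x) v) =
      ob g e x (i₀ + i) (G.symm v) := fun i v => by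
    rw [add_comm i₀ i, ob_add hg, ← hG, G.apply_symm_apply]
    rfl
  have hGR : G.symm (rL R (g^[i₀] x)) = rL R x := by
    rw [LinearEquiv.symm_apply_eq, hG]
    exact ((St.iterate hg i₀).push_R c x).symm
  have hGb : ∀ v, bL β (g^[i₀] x) v = bL β x (G.symm v) := fun v => by
    rw [← bL_strict (St.iterate hg i₀) x, ← hG, G.apply_symm_apply]
  have hup : ∀ i ≤ m + 1, ∀ v, So β R g e Pj lam x n (i₀ + i) v ≤
      Ks M q m i * ‖ob g e x (i₀ + i) v‖ ∧ Uo β R g e Pj lam x (i₀ + i) v ≤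
      Ks M q m i * ‖ob g e x (i₀ + i) v‖ := fun i hi v => by
    obtain ⟨j, l, hj, hC, h1, h2, h3⟩ := hgood i hi
    obtain ⟨e1, e2⟩ := SU_near (i := i₀ + i) d c cs hg hN hl hl1 hA hx hM₀ hC (by omega) hj h1 h2 v
    have h4 : (A ^ 2) ^ l ≤ (q:ℝ) ^ (min i (m + 1 - i) + 1) := by
      calc (A ^ 2) ^ l ≤ ((q:ℝ) ^ n₀) ^ l := by gcongr
        _ = (q:ℝ) ^ (n₀ * l) := by rw [pow_mul]
        _ ≤ _ := pow_le_pow_right₀ hq' h3
    have h5 : M₀ * (1 + N' * N') * (A ^ 2) ^ l ≤ Ks M q m i := by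
      unfold Ks
      push_cast
      have : 0 ≤ M₀ * (1 + N' * N') := by positivity
      gcongr
    exact ⟨e1.trans (by gcongr), e2.trans (by gcongr)⟩
  refine ⟨fun i _ => ?_, fun i hi => ?_, fun i hi => ?_, ?_, fun i _ v => ?_, fun i _ v => ?_,
    fun i _ => ?_, fun i _ => ?_, fun i hi v => ?_, fun i hi v => ?_, fun i hi v => ?_⟩
  · unfold Ks
    push_cast
    have : (1:ℝ) ≤ (q:ℝ) ^ (min i (m + 1 - i) + 1) := one_le_pow₀ hq'
    nlinarith
  · unfold Ks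
    simp only [NNReal.coe_mul, NNReal.coe_pow]
    have h1 : (q:ℝ) ^ (min (i + 1) (m + 1 - (i + 1)) + 1) ≤ q * q ^ (min i (m + 1 - i) + 1) := by
      rw [← pow_succ']
      exact pow_le_pow_right₀ hq' (by omega)
    have h2 : (0:ℝ) ≤ M := by linarith
    have := mul_le_mul_of_nonneg_left h1 h2
    linarith
  · unfold Ks
    simp only [NNReal.coe_mul, NNReal.coe_pow]
    have h1 : (q:ℝ) ^ (min i (m + 1 - i) + 1) ≤ q * q ^ (min (i + 1) (m + 1 - (i + 1)) + 1) := by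
      rw [← pow_succ']
      exact pow_le_pow_right₀ hq' (by omega)
    have h2 : (0:ℝ) ≤ M := by linarith
    have := mul_le_mul_of_nonneg_left h1 h2
    linarith
  · unfold Ks
    simp
  · exact So_step hl _
  · exact Uo_step hl _
  · show So β R g e Pj lam x n (i₀ + i) (G.symm (rL R (g^[i₀] x))) = 0
    rw [hGR]; exact So_R c
  · show Uo β R g e Pj lam x (i₀ + i) (G.symm (rL R (g^[i₀] x))) = 0
    rw [hGR]; exact Uo_R c
  · rw [hob, hGb]
    exact ob_low c cs hg (by omega) _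
  · rw [hob]
    exact (hup i hi _).1
  · rw [hob]
    exact (hup i hi _).2

end Pool.Agent.K4H64.Kt
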