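import Mathlib
import Pool.Agent.K4H64.Kt.Sg2
import Pool.Agent.K4H64.Kt.Comb

/-! Uniform constants, and the pigeonhole principle. -/

open scoped Topology ContDiff Manifold NNReal
open Set Metric Bundle Filter Pool.Agent.Helper186 Pool.Agent.H826R2.Wein Pool.Agent.W671.WU
open Pool.Agent.R774.Root Pool.Agent.R774.Hyp Pool.Agent.K4H64.We

noncomputable section

namespace Pool.Agent.K4H64.Kt

set_option linter.unusedSectionVars false

universe u

section Pig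

variable {E : Type u} [NormedAddCommGroup E] [NormedSpace ℝ E] [FiniteDimensional ℝ E]

/-- seminorms which are close on a finite set are close -/
lemma semi_net {L η : ℝ} (hL : 0 ≤ L) (hη : 0 < η) : ∃ T : Finset E, (∀ t ∈ T, ‖t‖ ≤ 1) ∧
    ∀ p p' : Seminorm ℝ E, (∀ w, p w ≤ L * ‖w‖) → (∀ w, p' w ≤ L * ‖w‖) →
      (∀ t ∈ T, |p t - p' t| ≤ η / 2) → ∀ w, |p w - p' w| ≤ η * ‖w‖ := by
  have : ProperSpace E := FiniteDimensional.proper ℝ E
  obtain ⟨ε, hε, hε2⟩ : ∃ ε : ℝ, 0 < ε ∧ 2 * L * ε ≤ η / 2 := by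
    refine ⟨η / (4 * (L + 1)), by positivity, ?_⟩
    have h1 : 2 * L * (η / (4 * (L + 1))) = (L / (L + 1)) * (η / 2) := by
      field_simp
      ring
    rw [h1]
    have h2 : L / (L + 1) ≤ 1 := by
      rw [div_le_one (by positivity)]
      linarith
    nlinarith
  obtain ⟨T, hT1, hTf, hT2⟩ := (isCompact_closedBall (0:E) 1).finite_cover_balls hε
  refine ⟨hTf.toFinset, fun t ht => ?_, fun p p' hp hp' h w => ?_⟩
  · exact mem_closedBall_zero_iff.1 (hT1 (hTf.mem_toFinset.1 ht))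
  · have hunit : ∀ w : E, ‖w‖ ≤ 1 → |p w - p' w| ≤ η := by
      intro w hw
      have h1 := hT2 (mem_closedBall_zero_iff.2 hw)
      simp only [mem_iUnion, exists_prop] at h1
      obtain ⟨t, ht, hwt⟩ := h1
      rw [mem_ball, dist_eq_norm] at hwt
      have h2 : |p w - p t| ≤ L * ε := (abs_sub_map_le_sub p w t).trans
        ((hp _).trans (by gcongr))
      have h3 : |p' w - p' t| ≤ L * ε := (abs_sub_map_le_sub p' w t).trans
        ((hp' _).trans (by gcongr))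
      have h4 := h t (hTf.mem_toFinset.2 ht)
      rw [abs_le] at h2 h3 h4 ⊢
      constructor <;> linarith
    by_cases hw : w = 0
    · subst hw; simp
    · have hw0 : 0 < ‖w‖ := norm_pos_iff.2 hw
      have h1 := hunit (‖w‖⁻¹ • w) (by
        rw [norm_smul, norm_inv, norm_norm, inv_mul_cancel₀ hw0.ne'])
      rw [map_smul_eq_mul, map_smul_eq_mul, norm_inv, norm_norm, ← mul_sub, abs_mul,
        abs_of_pos (by positivity : 0 < ‖w‖⁻¹)] at h1
      rw [inv_mul_le_iff₀ hw0] at h1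
      linarith

/-- the pigeonhole principle for a totally bounded set -/
lemma pigeon {X α : Type*} [PseudoMetricSpace X] {K : Set X} (hK : TotallyBounded K) {δ : ℝ}
    (hδ : 0 < δ) (t : Finset α) : ∃ n : ℕ, ∀ (T : Finset ℕ) (f : ℕ → X) (a : ℕ → α),
      (∀ i ∈ T, f i ∈ K) → (∀ i ∈ T, a i ∈ t) → n < T.card →
      ∃ i ∈ T, ∃ j ∈ T, i < j ∧ a i = a j ∧ dist (f i) (f j) < δ := by
  classical
  obtain ⟨s, hs, hcov⟩ := Metric.totallyBounded_iff.1 hK (δ / 2) (by positivity)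
  refine ⟨(t ×ˢ hs.toFinset).card, fun T f a hf ha hT => ?_⟩
  have hc : ∀ i, ∃ y, i ∈ T → y ∈ s ∧ dist (f i) y < δ / 2 := by
    intro i
    by_cases hi : i ∈ T
    · have h1 := hcov (hf i hi)
      simp only [mem_iUnion, exists_prop, mem_ball] at h1
      obtain ⟨y, hy, h2⟩ := h1
      exact ⟨y, fun _ => ⟨hy, h2⟩⟩
    · exact ⟨f i, fun h => absurd h hi⟩
  choose y hy using hc
  obtain ⟨i, hi, j, hj, hij, hmap⟩ := Finset.exists_ne_map_eq_of_card_lt_of_maps_to hT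
    (f := fun i => (a i, y i)) (fun i hi => by
      simp only [Finset.coe_product, Set.mem_prod, Finset.mem_coe, Set.Finite.mem_toFinset]
      exact ⟨ha i hi, (hy i hi).1⟩)
  simp only [Prod.mk.injEq] at hmap
  have key : ∀ i ∈ T, ∀ j ∈ T, y i = y j → dist (f i) (f j) < δ := fun i hi j hj h => by
    have h1 := (hy i hi).2
    have h2 := (hy j hj).2
    rw [← h] at h2
    have h3 := dist_triangle_right (f i) (f j) (y i)
    linarith
  rcases lt_or_gt_of_ne hij with h | h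
  · exact ⟨i, hi, j, hj, h, hmap.1, key i hi j hj hmap.2⟩
  · exact ⟨j, hj, i, hi, h, hmap.1.symm, key j hj i hi hmap.2.symm⟩

end Pig

section

variable {E : Type u} [NormedAddCommGroup E] [NormedSpace ℝ E] [FiniteDimensional ℝ E]
  {P : Type*} [TopologicalSpace P] [ChartedSpace E P] [IsManifold 𝓘(ℝ, E) ∞ P]
  {F : Type*} [NormedAddCommGroup F] [NormedSpace ℝ F]
  {β : (x : P) → TangentSpace 𝓘(ℝ, E) x →L[ℝ] ℝ}
  {R : (x : P) → TangentSpace 𝓘(ℝ, E) x} {Fl : P → ℝ → P}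
  {g : P → P} {e : P → F}

lemma dsL_Rc (c : CD β R) (h : RF β R Fl) {x a : P} (hx : x ∈ (extChartAt 𝓘(ℝ, E) a).source) :
    dsL a (extChartAt 𝓘(ℝ, E) a x) (RF.Rc Fl a (extChartAt 𝓘(ℝ, E) a x)) = rL R x :=
  theta_R (β := β) c h (φ := fun x => x) st_id hx (dmL_zero (fun x : P => x) x _)

lemma bL_ds {x a : P} (hx : x ∈ (extChartAt 𝓘(ℝ, E) a).source) (w : E) :
    bL β x (dsL a (extChartAt 𝓘(ℝ, E) a x) w) =
      chartForm 𝓘(ℝ, E) β a (extChartAt 𝓘(ℝ, E) a x) w :=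
  theta_b (β := β) (φ := fun x => x) st_id hx (dmL_zero (fun x : P => x) x _)

theorem cst_of_UB (c : CD β R) (h : RF β R Fl) (hg : St β g)
    (he : ContMDiff 𝓘(ℝ, E) 𝓘(ℝ, F) ∞ e)
    {t : Finset P} {V : P → Set P}
    (hVs : ∀ a, V a ⊆ (extChartAt 𝓘(ℝ, E) a).source) (hVt : ∀ x, ∃ a ∈ t, x ∈ V a)
    {N : ℕ} (hUB : ∀ a ∈ t, ∀ b ∈ t, ∀ x, x ∈ V a → g x ∈ V b → UB β Fl g e a b x N) {A : ℝ}
    (hA : (N:ℝ) * N * N ≤ A) : Cst β R g e A ((N:ℝ) * N) := by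
  have hN0 : (0:ℝ) ≤ N := Nat.cast_nonneg _
  refine ⟨fun x => ?_, fun x v => ?_, fun x v => ?_, fun x v => ?_⟩
  · obtain ⟨a, ha, hxa⟩ := hVt x
    obtain ⟨b, hb, hgb⟩ := hVt (g x)
    have hub := hUB a ha b hb x hxa hgb
    rw [← dsL_Rc c h (hVs a hxa), dvL_ds he (hVs a hxa)]
    refine (ContinuousLinearMap.le_opNorm _ _).trans ?_
    exact mul_le_mul hub.de hub.rr (norm_nonneg _) hN0
  · obtain ⟨a, ha, hxa⟩ := hVt x
    obtain ⟨b, hb, hgb⟩ := hVt (g x)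
    have hub := hUB a ha b hb x hxa hgb
    obtain ⟨w, rfl⟩ := dsL_surj ((extChartAt 𝓘(ℝ, E) a).map_source (hVs a hxa)) v
    have h0 : bL β x (dsL a (extChartAt 𝓘(ℝ, E) a x) w) =
      chartForm 𝓘(ℝ, E) β a (extChartAt 𝓘(ℝ, E) a x) w := bL_ds (hVs a hxa) w
    rw [h0, dvL_ds he (hVs a hxa), ← Real.norm_eq_abs]
    refine (ContinuousLinearMap.le_opNorm _ _).trans ?_
    have h1 := mul_le_mul hub.bb (hub.dei w) (norm_nonneg _) hN0
    linarith
  · obtain ⟨a, ha, hxa⟩ := hVt x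
    obtain ⟨b, hb, hgb⟩ := hVt (g x)
    obtain ⟨b', hb', hgb'⟩ := hVt (g (g x))
    have hub := hUB a ha b hb x hxa hgb
    have hub' := hUB b hb b' hb' (g x) hgb hgb'
    obtain ⟨w, rfl⟩ := dsL_surj ((extChartAt 𝓘(ℝ, E) a).map_source (hVs a hxa)) v
    rw [dmL_ds hg.smooth (hVs a hxa) (hVs b hgb), dvL_ds he (hVs b hgb), dvL_ds he (hVs a hxa)]
    have h1 := hub.dei w
    calc _ ≤ ‖fderiv ℝ (cf b e) (extChartAt 𝓘(ℝ, E) b (g x))‖ *
        ‖fderiv ℝ (ch2 a b g) (extChartAt 𝓘(ℝ, E) a x) w‖ := ContinuousLinearMap.le_opNorm _ _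
      _ ≤ N * (N * ‖w‖) := by
        refine mul_le_mul hub'.de ?_ (norm_nonneg _) hN0
        exact (ContinuousLinearMap.le_opNorm _ _).trans
          (mul_le_mul_of_nonneg_right hub.dg (norm_nonneg _))
      _ ≤ N * (N * (N * ‖fderiv ℝ (cf a e) (extChartAt 𝓘(ℝ, E) a x) w‖)) := by gcongr
      _ = (N * N * N) * ‖fderiv ℝ (cf a e) (extChartAt 𝓘(ℝ, E) a x) w‖ := by ring
      _ ≤ _ := by gcongr
  · obtain ⟨a, ha, hxa⟩ := hVt x
    obtain ⟨b, hb, hgb⟩ := hVt (g x)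
    obtain ⟨b', hb', hgb'⟩ := hVt (g (g x))
    have hub := hUB a ha b hb x hxa hgb
    have hub' := hUB b hb b' hb' (g x) hgb hgb'
    obtain ⟨w, rfl⟩ := dsL_surj ((extChartAt 𝓘(ℝ, E) a).map_source (hVs a hxa)) v
    rw [dmL_ds hg.smooth (hVs a hxa) (hVs b hgb), dvL_ds he (hVs b hgb), dvL_ds he (hVs a hxa)]
    obtain ⟨w', hw'⟩ : ∃ w', w' = fderiv ℝ (ch2 a b g) (extChartAt 𝓘(ℝ, E) a x) w := ⟨_, rfl⟩
    have h1 := hub.dgi w
    have h2 := hub'.dei w'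
    rw [← hw'] at h1 ⊢
    calc _ ≤ ‖fderiv ℝ (cf a e) (extChartAt 𝓘(ℝ, E) a x)‖ * ‖w‖ :=
          ContinuousLinearMap.le_opNorm _ _
      _ ≤ N * (N * ‖w'‖) := mul_le_mul hub.de h1 (norm_nonneg _) hN0
      _ ≤ N * (N * (N * ‖fderiv ℝ (cf b e) (extChartAt 𝓘(ℝ, E) b (g x)) w'‖)) := by gcongr
      _ = (N * N * N) * ‖fderiv ℝ (cf b e) (extChartAt 𝓘(ℝ, E) b (g x)) w'‖ := by ring
      _ ≤ _ := by gcongr

/-- positions in charts are bounded -/
lemma pos_bound [CompactSpace P] {t : Finset P} {V : P → Set P} (hV : ∀ a, IsClosed (V a))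
    (hVs : ∀ a, V a ⊆ (extChartAt 𝓘(ℝ, E) a).source) :
    ∃ B : ℝ, 0 ≤ B ∧ ∀ a ∈ t, ∀ x ∈ V a, ‖extChartAt 𝓘(ℝ, E) a x‖ ≤ B := by
  have h1 : ∀ a, ∃ B : ℝ, 0 ≤ B ∧ ∀ x ∈ V a, ‖extChartAt 𝓘(ℝ, E) a x‖ ≤ B := by
    intro a
    obtain ⟨B, hB⟩ := ((hV a).isCompact.image_of_continuousOn
      ((continuousOn_extChartAt a).mono (hVs a))).isBounded.exists_norm_le
    refine ⟨max B 0, le_max_right _ _, fun x hx => ?_⟩
    exact (hB _ (mem_image_of_mem _ hx)).trans (le_max_left _ _)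
  choose B hB0 hB using h1
  refine ⟨∑ a ∈ t, B a, Finset.sum_nonneg fun a _ => hB0 a, fun a ha x hx => ?_⟩
  exact (hB a x hx).trans (Finset.single_le_sum (fun a _ => hB0 a) ha)

/-- the open sets which stay away from the complement -/
lemma exists_inner [CompactSpace P] [T2Space P] [MeasurableSpace P]
    [BorelSpace P] {μ : MeasureTheory.Measure P} {e : P → F} (he : Continuous e)
    (hinj : Function.Injective e) {U : Set P}
    (hU : IsOpen U) (hμ : μ U ≠ 0) :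
    ∃ V : Set P, IsOpen V ∧ μ V ≠ 0 ∧ ∃ η > 0, ∀ x ∈ V, ∀ y, ‖e y - e x‖ < η → y ∈ U := by
  rcases (Uᶜ).eq_empty_or_nonempty with hem | hne
  · rw [compl_empty_iff] at hem
    exact ⟨U, hU, hμ, 1, one_pos, fun x _ y _ => by rw [hem]; trivial⟩
  · obtain ⟨K, hK⟩ : ∃ K, K = e '' Uᶜ := ⟨_, rfl⟩
    have hKc : IsCompact K := by rw [hK]; exact hU.isClosed_compl.isCompact.image he
    have hKne : K.Nonempty := by rw [hK]; exact hne.image e
    obtain ⟨V, hV⟩ : ∃ V : ℕ → Set P, ∀ k, V k = {x | 1 / ((k:ℝ) + 1) < infDist (e x) K} :=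
      ⟨_, fun _ => rfl⟩
    have hVo : ∀ k, IsOpen (V k) := fun k => by
      rw [hV]
      exact isOpen_lt continuous_const ((continuous_infDist_pt K).comp he)
    have hsub : U ⊆ ⋃ k, V k := by
      intro x hx
      have hxK : e x ∉ K := by
        rw [hK]
        rintro ⟨z, hz, hzx⟩
        exact hz (hinj hzx ▸ hx)
      have h1 : 0 < infDist (e x) K := (hKc.isClosed.notMem_iff_infDist_pos hKne).1 hxK
      obtain ⟨k, hk⟩ := exists_nat_one_div_lt h1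
      exact mem_iUnion.2 ⟨k, by rw [hV]; exact hk⟩
    obtain ⟨k, hk⟩ : ∃ k, μ (V k) ≠ 0 := by
      by_contra hcon
      push Not at hcon
      exact hμ (MeasureTheory.measure_mono_null hsub (MeasureTheory.measure_iUnion_null hcon))
    refine ⟨V k, hVo k, hk, 1 / ((k:ℝ) + 1), by positivity, fun x hx y hy => ?_⟩
    rw [hV] at hx
    by_contra hyU
    have h1 : infDist (e x) K ≤ dist (e x) (e y) :=
      infDist_le_dist_of_mem (by rw [hK]; exact mem_image_of_mem e hyU)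
    rw [dist_comm, dist_eq_norm] at h1
    have hx' : 1 / ((k:ℝ) + 1) < infDist (e x) K := hx
    linarith

end

end Pool.Agent.K4H64.Kt
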