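import Mathlib
import Pool.Agent.K4H64.Kt.Const

/-! Katok's closing lemma modulo the Reeb flow, for a strict contact map with a nonuniformly
hyperbolic invariant measure. -/

open scoped Topology ContDiff Manifold NNReal ENNReal
open Set Metric Bundle Filter Pool.Agent.Helper186 Pool.Agent.H826R2.Wein Pool.Agent.W671.WU
open Pool.Agent.R774.Root Pool.Agent.R774.Hyp Pool.Agent.K4H64.We MeasureTheory

noncomputable section

namespace Pool.Agent.K4H64.Kt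

set_option linter.unusedSectionVars false

universe u

variable {E : Type u} [NormedAddCommGroup E] [NormedSpace ℝ E] [FiniteDimensional ℝ E]
  {P : Type*} [TopologicalSpace P] [ChartedSpace E P] [IsManifold 𝓘(ℝ, E) ∞ P]
  {F : Type*} [NormedAddCommGroup F] [NormedSpace ℝ F]
  {β : (x : P) → TangentSpace 𝓘(ℝ, E) x →L[ℝ] ℝ}
  {R : (x : P) → TangentSpace 𝓘(ℝ, E) x} {Fl : P → ℝ → P}
  {g : P → P} {e : P → F} {Λ : Set P} {Pj : P → E →L[ℝ] E} {C : P → ℝ} {lam : ℝ≥0} {A N' : ℝ}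

/-- sublevel sets of `C` have almost full measure -/
lemma exists_level [MeasurableSpace P] {μ : Measure P} [IsFiniteMeasure μ] {C : P → ℝ}
    (hC : Measurable C) {v : ℝ≥0∞} (hv : v ≠ 0) (a : ℕ) :
    ∃ k : ℕ, (a:ℝ≥0∞) * μ ({x | C x ≤ k}ᶜ) < v := by
  have h1 : Tendsto (fun k : ℕ => μ ({x | C x ≤ k}ᶜ)) atTop (𝓝 (μ (⋂ k : ℕ, {x | C x ≤ k}ᶜ))) := by
    refine tendsto_measure_iInter_atTop (fun k => ?_) ?_ ⟨0, measure_ne_top _ _⟩
    · exact (measurableSet_le hC measurable_const).compl.nullMeasurableSet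
    · intro k l hkl x hx
      simp only [mem_compl_iff, mem_ofPred_eq, not_le] at hx ⊢
      have : (k:ℝ) ≤ l := by exact_mod_cast hkl
      linarith
  have h2 : (⋂ k : ℕ, {x | C x ≤ k}ᶜ) = ∅ := by
    rw [eq_empty_iff_forall_notMem]
    intro x hx
    rw [mem_iInter] at hx
    obtain ⟨k, hk⟩ := exists_nat_ge (C x)
    exact hx k hk
  rw [h2, measure_empty] at h1
  have h3 : Tendsto (fun k : ℕ => (a:ℝ≥0∞) * μ ({x | C x ≤ k}ᶜ)) atTop (𝓝 ((a:ℝ≥0∞) * 0)) :=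
    ENNReal.Tendsto.const_mul h1 (Or.inr (by finiteness))
  rw [mul_zero] at h3
  exact (h3.eventually (gt_mem_nhds (pos_iff_ne_zero.2 hv))).exists

/-- the chart functions at time `i` -/
def Sh (β : (x : P) → TangentSpace 𝓘(ℝ, E) x →L[ℝ] ℝ)
    (R : (x : P) → TangentSpace 𝓘(ℝ, E) x) (g : P → P) (e : P → F) (Pj : P → E →L[ℝ] E)
    (lam : ℝ≥0) (x : P) (n i : ℕ) (G : E ≃ₗ[ℝ] E) (a : P) : Seminorm ℝ E :=
  (So β R g e Pj lam x n i).comp ((G.symm : E →ₗ[ℝ] E).comp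
    (dsL a (extChartAt 𝓘(ℝ, E) a (g^[i] x)) : E →ₗ[ℝ] E))

def Uh (β : (x : P) → TangentSpace 𝓘(ℝ, E) x →L[ℝ] ℝ)
    (R : (x : P) → TangentSpace 𝓘(ℝ, E) x) (g : P → P) (e : P → F) (Pj : P → E →L[ℝ] E)
    (lam : ℝ≥0) (x : P) (i : ℕ) (G : E ≃ₗ[ℝ] E) (a : P) : Seminorm ℝ E :=
  (Uo β R g e Pj lam x i).comp ((G.symm : E →ₗ[ℝ] E).comp
    (dsL a (extChartAt 𝓘(ℝ, E) a (g^[i] x)) : E →ₗ[ℝ] E))

lemma Sh_apply (x : P) (n i : ℕ) (G : E ≃ₗ[ℝ] E) (a : P) (w : E) :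
    Sh β R g e Pj lam x n i G a w =
      So β R g e Pj lam x n i (G.symm (dsL a (extChartAt 𝓘(ℝ, E) a (g^[i] x)) w)) := rfl

lemma Uh_apply (x : P) (i : ℕ) (G : E ≃ₗ[ℝ] E) (a : P) (w : E) :
    Uh β R g e Pj lam x i G a w =
      Uo β R g e Pj lam x i (G.symm (dsL a (extChartAt 𝓘(ℝ, E) a (g^[i] x)) w)) := rfl

/-- bounds of the chart functions at good times -/
lemma SUh_le (d : Dich β g e Λ Pj C lam) (c : CD β R) (cs : Cst β R g e A N') (hg : St β g)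
    (he : ContMDiff 𝓘(ℝ, E) 𝓘(ℝ, F) ∞ e)
    (hN : 0 ≤ N') (hl : 0 < lam) {x : P} (hx : x ∈ Λ) {n i : ℕ} {M₀ : ℝ} (hM : 0 ≤ M₀)
    (hi : C (g^[i] x) ≤ M₀) {G : E ≃ₗ[ℝ] E} (hG : ∀ v, G v = dmL (g^[i]) x v) {a : P}
    (ha : g^[i] x ∈ (extChartAt 𝓘(ℝ, E) a).source) {Nd : ℝ}
    (hde : ‖fderiv ℝ (cf a e) (extChartAt 𝓘(ℝ, E) a (g^[i] x))‖ ≤ Nd) (w : E) :
    Sh β R g e Pj lam x n i G a w ≤ M₀ * (1 + N' * N') * Nd * ‖w‖ ∧
    Uh β R g e Pj lam x i G a w ≤ M₀ * (1 + N' * N') * Nd * ‖w‖ := by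
  have h1 : ob g e x i (G.symm (dsL a (extChartAt 𝓘(ℝ, E) a (g^[i] x)) w)) =
      fderiv ℝ (cf a e) (extChartAt 𝓘(ℝ, E) a (g^[i] x)) w := by
    rw [ob_apply, ← hG, G.apply_symm_apply, dvL_ds he ha]
  have h2 : ‖ob g e x i (G.symm (dsL a (extChartAt 𝓘(ℝ, E) a (g^[i] x)) w))‖ ≤ Nd * ‖w‖ := by
    rw [h1]
    exact (ContinuousLinearMap.le_opNorm _ _).trans (by gcongr)
  have h3 : 0 ≤ M₀ * (1 + N' * N') := by positivity
  constructor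
  · rw [Sh_apply]
    refine (So_good d c cs hg hN hl hx hM hi _).trans ?_
    have := mul_le_mul_of_nonneg_left h2 h3
    linarith
  · rw [Uh_apply]
    refine (Uo_good d c cs hg hN hl hx hM hi _).trans ?_
    have := mul_le_mul_of_nonneg_left h2 h3
    linarith

attribute [local irreducible] PE AE GE dmL dvL dsL bL ob So Uo

set_option maxHeartbeats 8000000 in
theorem closed_of_hyp [T2Space P] [CompactSpace P] [MeasurableSpace P] [BorelSpace P]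
    (c : CD β R) (h : RF β R Fl) (hg : St β g)
    (he : ContMDiff 𝓘(ℝ, E) 𝓘(ℝ, F) ∞ e) (hinj : Function.Injective e)
    (himm : ∀ x, Function.Injective (dv E e x)) {μ : Measure P} [IsFiniteMeasure μ]
    (hmu : MeasurePreserving g μ μ) (hΛ : μ Λᶜ = 0) (d : Dich β g e Λ Pj C lam)
    (hl0 : 0 < lam) (hl1 : lam < 1) (hC : Measurable C) {U : Set P} (hU : IsOpen U)
    (hμU : μ U ≠ 0) : ∃ y ∈ U, ∃ T, 0 < T ∧ Fl y T = y := by
  classical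
  have hl0' : (0:ℝ) < lam := hl0
  have hl1' : (lam:ℝ) < 1 := hl1
  -- cover and constants
  obtain ⟨t, V, hVc, hVs, hVt⟩ := exists_cover E P
  obtain ⟨N, hUB⟩ := exists_UB (t := t) c h hg he hinj himm hVc hVs
  obtain ⟨A, hA1, hA2⟩ : ∃ A : ℝ, (N:ℝ) * N * N ≤ A ∧ (lam:ℝ)⁻¹ ≤ A :=
    ⟨_, le_max_left _ _, le_max_right _ _⟩
  have hN0 : (0:ℝ) ≤ N := Nat.cast_nonneg _
  have cs : Cst β R g e A ((N:ℝ) * N) := cst_of_UB c h hg he hVs hVt hUB hA1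
  obtain ⟨N', hN'⟩ : ∃ N' : ℝ, N' = (N:ℝ) * N := ⟨_, rfl⟩
  rw [← hN'] at cs
  have hN'0 : 0 ≤ N' := by rw [hN']; positivity
  -- the inner open set
  obtain ⟨W, hWo, hWμ, η, hη, hWU⟩ := exists_inner he.continuous hinj hU hμU
  -- the rate
  obtain ⟨q, hq1, hq2⟩ : ∃ q : ℝ≥0, 1 < q ∧ (lam:ℝ) * q < 1 := by
    have h1 : 1 < lam⁻¹ := (one_lt_inv₀ hl0).2 hl1
    obtain ⟨q, h2, h3⟩ := exists_between h1
    refine ⟨q, h2, ?_⟩
    have h4 : (q:ℝ) < (lam:ℝ)⁻¹ := by exact_mod_cast h3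
    rw [lt_inv_comm₀ (by positivity) hl0'] at h4
    have h5 : (0:ℝ) < q := by
      have : (1:ℝ) < q := h2
      linarith
    rw [inv_eq_one_div, lt_div_iff₀ h5] at h4
    exact h4
  have hq1' : (1:ℝ) < q := hq1
  obtain ⟨n₀, hn₀, hn2⟩ : ∃ n₀ : ℕ, A ^ 2 ≤ (q:ℝ) ^ n₀ ∧ 2 ≤ n₀ := by
    obtain ⟨n, hn⟩ := pow_unbounded_of_one_lt (A ^ 2) hq1'
    refine ⟨n + 2, hn.le.trans (pow_le_pow_right₀ hq1'.le (by omega)), by omega⟩
  -- the level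
  obtain ⟨k, hk⟩ := exists_level (μ := μ) hC hWμ (2 * n₀)
  obtain ⟨M₀, hM₀⟩ : ∃ M₀ : ℝ, M₀ = k := ⟨_, rfl⟩
  have hM₀0 : 0 ≤ M₀ := by rw [hM₀]; exact Nat.cast_nonneg _
  obtain ⟨M, hM1, hM2⟩ : ∃ M : ℝ≥0, 1 ≤ M ∧ M₀ * (1 + N' * N') ≤ M := by
    refine ⟨max 1 ⟨M₀ * (1 + N' * N'), by positivity⟩, le_max_left _ _, ?_⟩
    have h1 : (⟨M₀ * (1 + N' * N'), by positivity⟩ : ℝ≥0) ≤
      max 1 ⟨M₀ * (1 + N' * N'), by positivity⟩ := le_max_right _ _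
    exact h1
  have hM1' : (1:ℝ) ≤ M := hM1
  -- closing
  obtain ⟨η', hη', hclose⟩ := seg_close (t := t) (lam := (lam:ℝ)) (q := q) (c₁ := 2 + N') c h hg he
    hVs hVt hUB hl0'.le hq1'.le hq2 (by positivity) (η := η) (Kb := M * q) hη
    (by nlinarith)
  -- the net
  obtain ⟨L, hL⟩ : ∃ L, L = M₀ * (1 + N' * N') * N := ⟨_, rfl⟩
  have hL0 : 0 ≤ L := by rw [hL]; positivity
  obtain ⟨Tn, hTn1, hTn2⟩ := semi_net (E := E) hL0 hη'
  obtain ⟨Bp, hBp0, hBp⟩ := pos_bound (E := E) (t := t) hVc hVs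
  obtain ⟨Rb, hRb⟩ : ∃ Rb : ℝ, Rb = Bp + N + L := ⟨_, rfl⟩
  have hRb0 : 0 ≤ Rb := by rw [hRb]; positivity
  have hprop : ProperSpace (E × (E →L[ℝ] ℝ) × (Tn → ℝ) × (Tn → ℝ)) :=
    FiniteDimensional.proper ℝ _
  obtain ⟨n, hn⟩ := pigeon (isCompact_closedBall
    (0 : E × (E →L[ℝ] ℝ) × (Tn → ℝ) × (Tn → ℝ)) Rb).totallyBounded
    (show 0 < η' / 2 by positivity) t
  -- the orbit
  obtain ⟨Nh, x, hx, hcount⟩ := exists_orbit hmu hΛ hWo.measurableSet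
    (measurableSet_le hC measurable_const) (2 * n₀) hk n
  obtain ⟨T, hTn, hT1, hT2⟩ := segs (N := Nh) (n := n) hn2
    (z := fun i => if g^[i] x ∈ {x | C x ≤ (k:ℝ)} then 0 else 1)
    (W := fun i => g^[i] x ∈ W) hcount
  have hz : ∀ i, (if g^[i] x ∈ {x | C x ≤ (k:ℝ)} then 0 else 1) = 0 → C (g^[i] x) ≤ M₀ := by
    intro i hi
    by_contra hcon
    rw [hM₀] at hcon
    rw [if_neg (show ¬ (g^[i] x ∈ {x | C x ≤ (k:ℝ)}) from hcon)] at hi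
    exact one_ne_zero hi
  -- charts and derivatives along the orbit
  choose ctr hctr hctrV using hVt
  choose G hG using fun i : ℕ => exists_G c (St.iterate hg i) x
  obtain ⟨a, ha⟩ : ∃ a : ℕ → P, ∀ i, a i = ctr (g^[i] x) := ⟨_, fun _ => rfl⟩
  have haV : ∀ i, g^[i] x ∈ V (a i) := fun i => by rw [ha]; exact hctrV _
  have hat : ∀ i, a i ∈ t := fun i => by rw [ha]; exact hctr _
  have hub : ∀ i, UB β Fl g e (a i) (a (i + 1)) (g^[i] x) N := fun i => by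
    refine hUB _ (hat i) _ (hat _) _ (haV i) ?_
    rw [← Function.iterate_succ_apply' g i x]
    exact haV _
  obtain ⟨f, hf⟩ : ∃ f : ℕ → E × (E →L[ℝ] ℝ) × (Tn → ℝ) × (Tn → ℝ), ∀ i, f i =
    (extChartAt 𝓘(ℝ, E) (a i) (g^[i] x),
      chartForm 𝓘(ℝ, E) β (a i) (extChartAt 𝓘(ℝ, E) (a i) (g^[i] x)),
      fun s : Tn => Sh β R g e Pj lam x Nh i (G i) (a i) (s : E),
      fun s : Tn => Uh β R g e Pj lam x i (G i) (a i) (s : E)) := ⟨_, fun _ => rfl⟩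
  have hSU : ∀ i ∈ T, ∀ w, Sh β R g e Pj lam x Nh i (G i) (a i) w ≤ L * ‖w‖ ∧
      Uh β R g e Pj lam x i (G i) (a i) w ≤ L * ‖w‖ := fun i hi w => by
    rw [hL]
    exact SUh_le d c cs hg he hN'0 hl0 hx hM₀0 (hz i (hT1 i hi).2.2) (hG i) (hVs _ (haV i))
      (hub i).de w
  have hfb : ∀ i ∈ T, f i ∈ closedBall (0 : E × (E →L[ℝ] ℝ) × (Tn → ℝ) × (Tn → ℝ)) Rb := by
    intro i hi
    rw [mem_closedBall_zero_iff, hf, norm_prod_le_iff, norm_prod_le_iff, norm_prod_le_iff]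
    refine ⟨?_, ?_, ?_, ?_⟩
    · refine (hBp _ (hat i) _ (haV i)).trans ?_
      rw [hRb]; linarith
    · refine (hub i).bb.trans ?_
      rw [hRb]; linarith
    · refine (pi_norm_le_iff_of_nonneg hRb0).2 fun s => ?_
      have h1 := (hSU i hi (s:E)).1
      have h2 := hTn1 s s.2
      rw [Real.norm_eq_abs, abs_of_nonneg (apply_nonneg _ _)]
      have h3 : L * ‖(s:E)‖ ≤ L * 1 := by gcongr
      rw [hRb]; linarith
    · refine (pi_norm_le_iff_of_nonneg hRb0).2 fun s => ?_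
      have h1 := (hSU i hi (s:E)).2
      have h2 := hTn1 s s.2
      rw [Real.norm_eq_abs, abs_of_nonneg (apply_nonneg _ _)]
      have h3 : L * ‖(s:E)‖ ≤ L * 1 := by gcongr
      rw [hRb]; linarith
  obtain ⟨i₀, hi₀, j₀, hj₀, hij, haij, hdist⟩ := hn T f a hfb (fun i _ => hat i) hTn
  obtain ⟨m, rfl⟩ : ∃ m, j₀ = i₀ + (m + 1) := ⟨j₀ - i₀ - 1, by omega⟩
  have hj₀N := (hT1 _ hj₀).1
  -- the distances
  rw [dist_eq_norm, hf, hf, Prod.mk_sub_mk, Prod.mk_sub_mk, Prod.mk_sub_mk] at hdist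
  have hd := hdist.le
  rw [norm_prod_le_iff, norm_prod_le_iff, norm_prod_le_iff] at hd
  obtain ⟨hd1, hd2, hd3, hd4⟩ := hd
  simp only at hd1 hd2 hd3 hd4
  have hSd := hTn2 _ _ (fun w => (hSU i₀ hi₀ w).1) (fun w => (hSU _ hj₀ w).1) (fun s hs => by
    have h1 := (pi_norm_le_iff_of_nonneg (by positivity)).1 hd3 ⟨s, hs⟩
    exact h1)
  have hUd := hTn2 _ _ (fun w => (hSU i₀ hi₀ w).2) (fun w => (hSU _ hj₀ w).2) (fun s hs => by
    have h1 := (pi_norm_le_iff_of_nonneg (by positivity)).1 hd4 ⟨s, hs⟩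
    exact h1)
  -- the segment
  have hseg := segData_of (n := Nh) (i₀ := i₀) (m := m) d c cs hg hN'0 hl0 hl1.le hA2 hx hM₀0
    hM2 hM1 hq1.le hn₀ (by omega) (by
      intro i hi
      obtain ⟨j, l, h1, h2, h3, h4, h5⟩ := hT2 i₀ hi₀ m hj₀ i hi
      exact ⟨j, l, by omega, hz j h2, h3, h4, h5⟩) (hG i₀)
  have hitm : g^[i₀ + (m + 1)] x = g^[m + 1] (g^[i₀] x) := by
    rw [← Function.iterate_add_apply, add_comm]
  have hGm : ∀ w v', dmL (g^[m + 1]) (g^[i₀] x) v' = dsL (a i₀) (extChartAt 𝓘(ℝ, E) (a i₀)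
      (g^[m + 1] (g^[i₀] x))) w → (G i₀).symm v' = (G (i₀ + (m + 1))).symm
        (dsL (a (i₀ + (m + 1))) (extChartAt 𝓘(ℝ, E) (a (i₀ + (m + 1)))
          (g^[i₀ + (m + 1)] x)) w) := by
    intro w v' hv'
    rw [LinearEquiv.eq_symm_apply, hG, ← haij, hitm, ← hv']
    have h1 : dmL (g^[m + 1 + i₀]) x ((G i₀).symm v') = dmL (g^[m + 1]) (g^[i₀] x) v' := by
      rw [dmL_add hg, ← hG i₀, LinearEquiv.apply_symm_apply]
    have h2 : i₀ + (m + 1) = m + 1 + i₀ := add_comm _ _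
    rw [h2]
    exact h1
  have hcl : SegClose β g (g^[i₀] x) m
      (fun i => (So β R g e Pj lam x Nh (i₀ + i)).comp ((G i₀).symm : E →ₗ[ℝ] E))
      (fun i => (Uo β R g e Pj lam x (i₀ + i)).comp ((G i₀).symm : E →ₗ[ℝ] E)) (a i₀) η' := by
    refine ⟨?_, fun w v' hv' => ?_, fun w v' hv' => ?_, fun w => ?_⟩
    · rw [← hitm, norm_sub_rev]
      rw [← haij] at hd1
      linarith
    · have h1 := hSd w
      rw [Sh_apply, Sh_apply, ← hGm w v' hv'] at h1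
      exact h1
    · have h1 := hUd w
      rw [Uh_apply, Uh_apply, ← hGm w v' hv'] at h1
      exact h1
    · rw [← hitm]
      rw [← haij] at hd2
      rw [← _root_.sub_apply, ← Real.norm_eq_abs]
      refine (ContinuousLinearMap.le_opNorm _ _).trans ?_
      gcongr
      linarith
  obtain ⟨y, T', hT', hyT, hey⟩ := hclose (g^[i₀] x) m (Ks M q m) _ _ (by
    unfold Ks
    simp) hseg (a i₀) (hat _) (haV _) (by rw [← hitm, haij]; exact haV _) hcl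
  exact ⟨y, hWU _ (hT1 _ hi₀).2.1 y hey, T', hT', hyT⟩

end Pool.Agent.K4H64.Kt
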