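import Mathlib
import Pool.Agent.K4H64.Kt.Main
import Pool.Agent.R774.Hyp7

/-! Closed Reeb orbits from nonuniformly hyperbolic invariant measures of strict contact maps: the
statement in terms of the elementary definitions. -/

open scoped Topology ContDiff Manifold NNReal ENNReal
open Set Metric Filter Pool.Agent.Helper186 Pool.Agent.H826R2 Pool.Agent.H826R2.WStmt
open Pool.Agent.W671 Pool.Agent.W671.RStmt Pool.Agent.R774.RootStmt
open Pool.Agent.R774.Root Pool.Agent.R774.Hyp Pool.Agent.H826R2.Wein Pool.Agent.W671.WU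
open MeasureTheory

noncomputable section

set_option linter.unusedSectionVars false

namespace Pool.Agent.K4H64.Kt

universe u

section

variable {E : Type*} [NormedAddCommGroup E] [NormedSpace ℝ E]
  {M : Type*} [TopologicalSpace M] [ChartedSpace E M]
  {F : Type*} [NormedAddCommGroup F] [NormedSpace ℝ F]

/-- the length of the tangent vector `v` at `x`, measured by means of the map `e : M → F` -/
def len (e : M → F) (x : M) (v : E) : ℝ := ‖D (E := E) (E' := F) e x v‖

/-- The map `g` is nonuniformly hyperbolic on the invariant set `Λ`, transversally to the Reeb field: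
at each point `x` of `Λ` there is a linear map `π x` of the kernel of `α x` (for instance the
projection to a stable space along an unstable space), commuting with the derivative of `g`, such
that the vectors `π x v` are contracted by the iterates of `g` at the rate `lam x < 1` and the
vectors `v - π x v` are contracted by the inverse iterates at this rate, up to the factor `C`, which
is a function on `M` (it need not be bounded; for the inverse iterates it is taken at the end point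
`g^k x`). The rate `lam` is invariant, and need not be bounded away from `1`. -/
structure NonuniformlyHyperbolicOn (α : M → Cov E) (e : M → F) (g : M → M) (Λ : Set M)
    (π : M → E →L[ℝ] E) (C lam : M → ℝ) : Prop where
  invariant : ∀ x ∈ Λ, g x ∈ Λ
  rate_pos : ∀ x ∈ Λ, 0 < lam x
  rate_lt : ∀ x ∈ Λ, lam x < 1
  rate_inv : ∀ x ∈ Λ, lam (g x) = lam x
  kernel : ∀ x ∈ Λ, ∀ v : E, ev (α x) v = 0 → ev (α x) (π x v) = 0
  commutes : ∀ x ∈ Λ, ∀ v : E, ev (α x) v = 0 →
    π (g x) (D (E := E) (E' := E) g x v) = D (E := E) (E' := E) g x (π x v)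
  stable : ∀ x ∈ Λ, ∀ v : E, ev (α x) v = 0 → ∀ k : ℕ,
    len e (g^[k] x) (D (E := E) (E' := E) (g^[k]) x (π x v)) ≤ C x * lam x ^ k * len e x v
  unstable : ∀ x ∈ Λ, ∀ v : E, ev (α x) v = 0 → ∀ k : ℕ,
    len e x (v - π x v) ≤
      C (g^[k] x) * lam x ^ k * len e (g^[k] x) (D (E := E) (E' := E) (g^[k]) x v)

end

variable {E : Type u} [NormedAddCommGroup E] [NormedSpace ℝ E] [FiniteDimensional ℝ E]
  {M : Type*} [TopologicalSpace M] [ChartedSpace E M] [IsManifold 𝓘(ℝ, E) ∞ M]
  {F : Type*} [NormedAddCommGroup F] [NormedSpace ℝ F]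

theorem periodic_of_hyperbolic_measure [T2Space M] [CompactSpace M] [MeasurableSpace M]
    [BorelSpace M]
    (α : M → Cov E) (hα : WStmt.IsContact α) (R : M → E) (hR : WStmt.IsReeb α R)
    (g : M → M) (hg : IsStrict α g)
    (e : M → F) (he : IsInjImmersion (E := E) e)
    (μ : Measure M) [IsFiniteMeasure μ] (hμ : MeasurePreserving g μ μ)
    (Λ : Set M) (hΛ : μ Λᶜ = 0) (π : M → E →L[ℝ] E) (C lam : M → ℝ)
    (hC : Measurable C) (hlam : Measurable lam)
    (hyp : NonuniformlyHyperbolicOn α e g Λ π C lam)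
    (U : Set M) (hU : IsOpen U) (hμU : μ U ≠ 0) :
    ∃ (γ : ℝ → M) (T : ℝ), IsPeriodicOrbit R γ T ∧ γ 0 ∈ U := by
  have : IsManifold 𝓘(ℝ, E) 1 M := IsManifold.of_le (n := ∞) (by simp)
  have cd : Wein.CD (toForm α) (fun x => (R x : TangentSpace 𝓘(ℝ, E) x)) :=
    ⟨hα.toWein, hR.toWein⟩
  have hRs := WU.smooth_reeb cd
  choose Fl hF0 hF using fun x : M => Wein.complete_of_compact hRs isCompact_univ
    (fun y hy => absurd (mem_univ y) hy) x
  have hRF := WU.RF.of cd hF0 hF
  have hst := hg.toSt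
  -- a set on which the rate is bounded
  obtain ⟨S, hS⟩ : ∃ S : ℕ → Set M, ∀ k, S k = {x | lam x ≤ 1 - 1 / ((k:ℝ) + 2)} :=
    ⟨_, fun _ => rfl⟩
  have hSm : ∀ k, MeasurableSet (S k) := fun k => by
    rw [hS]; exact measurableSet_le hlam measurable_const
  have hsub : U ⊆ Λᶜ ∪ ⋃ k, (U ∩ S k) := by
    intro x hx
    by_cases hxL : x ∈ Λ
    · refine Or.inr ?_
      have h1 := hyp.rate_lt x hxL
      obtain ⟨k, hk⟩ := exists_nat_one_div_lt (show 0 < 1 - lam x by linarith)
      refine mem_iUnion.2 ⟨k, hx, ?_⟩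
      rw [hS]
      show lam x ≤ 1 - 1 / ((k:ℝ) + 2)
      have h2 : 1 / ((k:ℝ) + 2) ≤ 1 / ((k:ℝ) + 1) := by gcongr; norm_num
      linarith
    · exact Or.inl hxL
  obtain ⟨k, hk⟩ : ∃ k, μ (U ∩ S k) ≠ 0 := by
    by_contra hcon
    push Not at hcon
    refine hμU (measure_mono_null hsub ?_)
    exact measure_union_null hΛ (measure_iUnion_null hcon)
  have hk2 : (0:ℝ) < (k:ℝ) + 2 := by positivity
  obtain ⟨ℓ, hℓ⟩ : ∃ ℓ : ℝ≥0, (ℓ:ℝ) = 1 - 1 / ((k:ℝ) + 2) := by
    refine ⟨⟨1 - 1 / ((k:ℝ) + 2), ?_⟩, rfl⟩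
    rw [sub_nonneg, div_le_one hk2]
    linarith [Nat.cast_nonneg (α := ℝ) k]
  have hℓ1 : (ℓ:ℝ) < 1 := by
    rw [hℓ]
    have : 0 < 1 / ((k:ℝ) + 2) := by positivity
    linarith
  have hℓ0 : (0:ℝ) < ℓ := by
    rw [hℓ, sub_pos, div_lt_one hk2]
    linarith [Nat.cast_nonneg (α := ℝ) k]
  -- the restricted measure
  have hmp : MeasurePreserving g (μ.restrict (S k)) (μ.restrict (S k)) := by
    refine ⟨hμ.measurable, ?_⟩
    ext A hA
    rw [Measure.map_apply hμ.measurable hA, Measure.restrict_apply (hμ.measurable hA),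
      Measure.restrict_apply hA, ← hμ.measure_preimage (hA.inter (hSm k)).nullMeasurableSet]
    apply measure_congr
    have h1 : ∀ᵐ x ∂μ, x ∈ Λ := by
      rw [ae_iff]; exact hΛ
    filter_upwards [h1] with x hx
    have h2 := hyp.rate_inv x hx
    have h3 : (x ∈ S k) = (g x ∈ S k) := by
      rw [hS]
      show (lam x ≤ _) = (lam (g x) ≤ _)
      rw [h2]
    show (g x ∈ A ∧ x ∈ S k) = (g x ∈ A ∧ g x ∈ S k)
    rw [h3]
  have hΛ' : (μ.restrict (S k)) (Λ ∩ S k)ᶜ = 0 := by
    rw [Measure.restrict_apply' (hSm k)]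
    refine measure_mono_null ?_ hΛ
    rintro x ⟨h1, h2⟩ hx
    exact h1 ⟨hx, h2⟩
  have hU' : (μ.restrict (S k)) U ≠ 0 := by
    rw [Measure.restrict_apply' (hSm k)]
    exact hk
  have hlin : ∀ j (x : M) (v : E), len e (g^[j] x) (D (E := E) (E' := E) (g^[j]) x v) =
      ‖ob g e x j v‖ := fun j x v => rfl
  have hrate : ∀ x ∈ Λ ∩ S k, ∀ (y : M) (j : ℕ), C y * lam x ^ j ≤ |C y| * (ℓ:ℝ) ^ j := by
    rintro x ⟨hx, hxS⟩ y j
    have h1 : lam x ≤ ℓ := by
      rw [hS] at hxS
      rw [hℓ]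
      exact hxS
    have h2 := (hyp.rate_pos x hx).le
    calc C y * lam x ^ j ≤ |C y| * lam x ^ j := by
          gcongr
          exact le_abs_self _
      _ ≤ |C y| * (ℓ:ℝ) ^ j := by gcongr
  have hd : Dich (toForm α) g e (Λ ∩ S k) π (fun x => |C x|) ℓ := by
    refine ⟨?_, ?_, ?_, ?_, ?_⟩
    · rintro x ⟨hx, hxS⟩
      refine ⟨hyp.invariant x hx, ?_⟩
      rw [hS] at hxS ⊢
      show lam (g x) ≤ _
      rw [hyp.rate_inv x hx]
      exact hxS
    · rintro x ⟨hx, -⟩ v hv
      exact hyp.kernel x hx v hv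
    · rintro x ⟨hx, -⟩ v hv
      exact hyp.commutes x hx v hv
    · intro x hx v hv j
      have h1 := hyp.stable x hx.1 v hv j
      rw [hlin] at h1
      have h2 := mul_le_mul_of_nonneg_right (hrate x hx x j) (norm_nonneg (dvL e x v))
      exact h1.trans h2
    · intro x hx v hv j
      have h1 := hyp.unstable x hx.1 v hv j
      rw [hlin] at h1
      have h2 := mul_le_mul_of_nonneg_right (hrate x hx (g^[j] x) j)
        (norm_nonneg (ob g e x j v))
      exact h1.trans h2
  obtain ⟨y, hy, T, hT, hyT⟩ := closed_of_hyp cd hRF hst he.smooth he.injective he.immersion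
    hmp hΛ' hd hℓ0 (by exact_mod_cast hℓ1) (hC.abs) hU hU'
  refine ⟨Fl y, T, ⟨hT, hF y, fun t => ?_⟩, ?_⟩
  · rw [add_comm, hRF.add, hyT]
  · rw [hF0]; exact hy

/-- the range of a periodic orbit is closed -/
lemma isClosed_periodic [T2Space M] {R : M → E} {γ : ℝ → M} {T : ℝ} (h : IsPeriodicOrbit R γ T) :
    IsClosed (range γ) := by
  have hc : Continuous γ := h.integral.continuous
  have h1 : range γ = γ '' Icc 0 T := by
    apply Subset.antisymm
    · rintro _ ⟨t, rfl⟩
      have hp : Function.Periodic γ T := h.period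
      obtain ⟨s, hs, hts⟩ := hp.exists_mem_Ico₀ h.pos t
      exact ⟨s, Ico_subset_Icc_self hs, hts.symm⟩
    · exact image_subset_range _ _
  rw [h1]
  exact (isCompact_Icc.image hc).isClosed

theorem another_periodic [T2Space M] [CompactSpace M] [MeasurableSpace M]
    [BorelSpace M]
    (α : M → Cov E) (hα : WStmt.IsContact α) (R : M → E) (hR : WStmt.IsReeb α R)
    (g : M → M) (hg : IsStrict α g)
    (e : M → F) (he : IsInjImmersion (E := E) e)
    (μ : Measure M) [IsFiniteMeasure μ] (hμ : MeasurePreserving g μ μ)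
    (Λ : Set M) (hΛ : μ Λᶜ = 0) (π : M → E →L[ℝ] E) (C lam : M → ℝ)
    (hC : Measurable C) (hlam : Measurable lam)
    (hyp : NonuniformlyHyperbolicOn α e g Λ π C lam)
    (r : ℕ) (c : Fin r → ℝ → M) (τ : Fin r → ℝ) (hc : ∀ i, IsPeriodicOrbit R (c i) (τ i))
    (hne : μ (⋃ i, range (c i))ᶜ ≠ 0) :
    ∃ (γ : ℝ → M) (T : ℝ), IsPeriodicOrbit R γ T ∧ ∀ i, γ 0 ∉ range (c i) := by
  obtain ⟨γ, T, h1, h2⟩ := periodic_of_hyperbolic_measure α hα R hR g hg e he μ hμ Λ hΛ π C lam hC
    hlam hyp (⋃ i, range (c i))ᶜ (isClosed_iUnion_of_finite fun i =>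
      isClosed_periodic (hc i)).isOpen_compl hne
  exact ⟨γ, T, h1, fun i hi => h2 (mem_iUnion.2 ⟨i, hi⟩)⟩

end Pool.Agent.K4H64.Kt
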